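import Pool.Agent.MP_0c5eb8_lc.H36.Step

/-!
The parity algorithm and its correctness.
-/

set_option autoImplicit false
set_option linter.unusedSectionVars false

namespace Pool.Agent.MP_0c5eb8_lc.H36

open Finset

variable {n : ℕ}

/-- Greedy extension of a matching. -/
def greedy (n : ℕ) (E M : List Line) : List Line :=
  E.foldl (fun M e => if rk n (e.1 :: e.2 :: flat M) = rk n (flat M) + 2 then e :: M else M) M

theorem greedy_aux {E : List Line} (L M : List Line) (hL : ∀ e ∈ L, e ∈ E) (hM : IsM n E M) :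
    let M' := L.foldl
      (fun M e => if rk n (e.1 :: e.2 :: flat M) = rk n (flat M) + 2 then e :: M else M) M
    IsM n E M' ∧ M.length ≤ M'.length ∧ sp n (flat M) ≤ sp n (flat M') ∧
      ∀ e ∈ L, dm (sp n (flat M') ⊔ ln n e) ≤ dm (sp n (flat M')) + 1 := by
  induction L generalizing M with
  | nil => exact ⟨hM, le_rfl, le_rfl, by simp⟩
  | cons e L ih =>
    have hL' := fun f hf => hL f (List.mem_cons_of_mem _ hf)
    simp only [List.foldl_cons]
    split_ifs with h
    · rw [rk_eq, rk_eq] at h
      obtain ⟨i1, i2, i3, i4⟩ := ih (e :: M) hL'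
        ⟨List.forall_mem_cons.2 ⟨hL e List.mem_cons_self, hM.1⟩, by
          have := hM.2
          rw [flat_cons, List.length_cons]
          omega⟩
      rw [sp_flat_cons] at i3
      refine ⟨i1, by rw [List.length_cons] at i2; omega, by order,
        List.forall_mem_cons.2 ⟨?_, i4⟩⟩
      rw [sup_eq_left.2 (by order)]
      omega
    · obtain ⟨i1, i2, i3, i4⟩ := ih M hL' hM
      refine ⟨i1, i2, i3, List.forall_mem_cons.2 ⟨?_, i4⟩⟩
      rw [rk_eq, rk_eq, sp_cons_cons, sup_comm] at h
      have a1 := dm_sup_ln_le (sp n (flat M)) e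
      have a2 := relsub i3 (ln n e)
      omega

/-- The first state for a given matching. -/
def init (n : ℕ) (E M : List Line) : State :=
  (greedy n E M, flat (greedy n E M),
    dd ((ofRank n (flat (greedy n E M)) 1 E).map (single n (flat (greedy n E M)))))

theorem init_inv {E M : List Line} (hM : IsM n E M) :
    Inv n E (init n E M).1 (init n E M).2.1 (init n E M).2.2 ∧ KS (init n E M).2.2.toFinset = 0 ∧
      M.length ≤ (init n E M).1.length ∧ dm (sp n (init n E M).2.1) = 2 * (init n E M).1.length := by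
  obtain ⟨i1, i2, _, i4⟩ := greedy_aux E M (fun _ h => h) hM
  simp only [init]
  change IsM n E (greedy n E M) at i1
  change M.length ≤ (greedy n E M).length at i2
  change ∀ e ∈ E, dm (sp n (flat (greedy n E M)) ⊔ ln n e) ≤ dm (sp n (flat (greedy n E M))) + 1
    at i4
  generalize greedy n E M = M' at *
  have hmem : ∀ c, c ∈ dd ((ofRank n (flat M') 1 E).map (single n (flat M'))) ↔
      ∃ e ∈ ofRank n (flat M') 1 E, single n (flat M') e = c := fun c => by
    rw [mem_dd, List.mem_map]
  have hnd := nodup_dd ((ofRank n (flat M') 1 E).map (single n (flat M')))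
  generalize dd ((ofRank n (flat M') 1 E).map (single n (flat M'))) = I at *
  have hsing : ∀ e ∈ ofRank n (flat M') 1 E,
      Good n E (single n (flat M') e) ∧ ck (single n (flat M') e) = 0 :=
    fun e he => good_single (mem_ofRank.1 he).1 (mem_ofRank.1 he).2
  have hK : ∀ Y ⊆ I.toFinset, KS Y = 0 := fun Y hY => sum_eq_zero fun c hc => by
    obtain ⟨e, he, rfl⟩ := (hmem c).1 (List.mem_toFinset.1 (hY hc))
    exact (hsing e he).2
  have := i1.2
  refine ⟨⟨i1, le_rfl, hnd, fun c hc => ?_, PS_le.2 fun c hc => ?_, fun e he => ?_, le_sup_left,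
    fun Y hY hne => ?_, M', i1, ?_⟩, hK _ Subset.rfl, i2, this⟩
  · obtain ⟨e, he, rfl⟩ := (hmem c).1 hc
    exact (hsing e he).1
  · obtain ⟨e, he, rfl⟩ := (hmem c).1 (List.mem_toFinset.1 hc)
    rw [single_P]
    exact inf_le_right
  · by_cases b0 : dm (sp n (flat M') ⊔ ln n e) ≤ dm (sp n (flat M'))
    · exact Or.inl (le_of_dm b0)
    · have := i4 e he
      exact Or.inr ⟨single n (flat M') e, (hmem _).2 ⟨e, mem_ofRank.2 ⟨he, by omega⟩, rfl⟩,
        by rw [single_W]⟩
  · obtain ⟨d, hd⟩ := hne
    obtain ⟨e, he, rfl⟩ := (hmem d).1 (List.mem_toFinset.1 (hY hd))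
    have a3 := single_T (n := n) (N := flat M') e
    have a4 := le_TS (n := n) hd
    have a5 : dm (sp n (flat M') ⊔ ln n e) ≤ dm (sp n (flat M') ⊔ TS n Y) := dm_mono (by order)
    have a6 := (mem_ofRank.1 he).2
    have a7 : dm (sp n (flat M')) ≤ dm (sp n (flat M') ⊔ PS n (I.toFinset \ Y)) :=
      dm_mono le_sup_left
    rw [hK Y hY]
    omega
  · rw [hK _ Subset.rfl]
    omega

/-- The lines of the matching that can be released. -/
def cand (n : ℕ) (s : State) : List Line :=
  s.1.filter fun l => decide (rk n s.2.1 ≤ rk n (flat (del s.1 l) ++ s.2.2.flatMap fun c => c.2.1) + 1)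

/-- The step for a released line `l`. -/
def stepAt (n : ℕ) (E : List Line) (s : State) (l : Line) : State :=
  if (gT s.2.2).length + 2 * rk n s.2.1
      ≤ rho n (flat (del s.1 l)) s.2.1 s.2.2 (cpX n (flat (del s.1 l)) s.2.1 s.2.2) then
    init n E (cpF n (flat (del s.1 l)) s.2.1 s.2.2 ++ del s.1 l)
  else
    (del s.1 l, newZ n (del s.1 l) s.2.2 (cpY n (flat (del s.1 l)) s.2.1 s.2.2),
      newI n E s.2.1 (newZ n (del s.1 l) s.2.2 (cpY n (flat (del s.1 l)) s.2.1 s.2.2)) l s.2.2
        (cpY n (flat (del s.1 l)) s.2.1 s.2.2))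

/-- One step of the algorithm. -/
def step (n : ℕ) (E : List Line) (s : State) : State :=
  if (cand n s).isEmpty then s else stepAt n E s ((cand n s).headD ([], []))

/-- The size of the matching that a state stands for. -/
def val (n : ℕ) (s : State) : ℕ := rk n s.2.1 + (s.2.2.map ck).sum - s.1.length

/-- The size of a largest matching. -/
def nu (n : ℕ) (E : List Line) : ℕ := val n ((step n E)^[(n + 1) * (n + 1)] (init n E []))

theorem val_eq {E : List Line} {s : State} (H : Inv n E s.1 s.2.1 s.2.2) :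
    val n s + s.1.length = dm (sp n s.2.1) + KS s.2.2.toFinset := by
  have h1 := dm_mono H.lz
  have h2 := H.isM.2
  have h3 : KS s.2.2.toFinset = (s.2.2.map ck).sum := List.sum_toFinset ck H.nodup
  rw [val, rk_eq, h3]
  omega

theorem IsM.length_le {E M : List Line} (h : IsM n E M) : 2 * M.length ≤ n := h.2 ▸ dm_le _

theorem mem_cand {s : State} {l : Line} : l ∈ cand n s ↔ l ∈ s.1 ∧
    dm (sp n s.2.1) ≤ dm (sp n (flat (del s.1 l)) ⊔ PS n s.2.2.toFinset) + 1 := by
  rw [cand, List.mem_filter, decide_eq_true_eq, rk_eq, rk_eq, sp_append, sp_flatMap_P]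

theorem stepAt_cases {E : List Line} {s : State} (H : Inv n E s.1 s.2.1 s.2.2) {l : Line}
    (hl : l ∈ cand n s) :
    (∃ M, IsM n E M ∧ M.length = val n s + 1 ∧ stepAt n E s l = init n E M) ∨
    ∃ Y : List Comp, stepAt n E s l = (del s.1 l, newZ n (del s.1 l) s.2.2 Y,
        newI n E s.2.1 (newZ n (del s.1 l) s.2.2 Y) l s.2.2 Y) ∧
      (∃ k, StarHyp n E s.2.1 (newZ n (del s.1 l) s.2.2 Y) l (mrg s.2.2 Y)
        (ofRank n (newZ n (del s.1 l) s.2.2 Y) 2 (inside n E s.2.1)) k) ∧
      Inv n E (del s.1 l) (newZ n (del s.1 l) s.2.2 Y)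
        (newI n E s.2.1 (newZ n (del s.1 l) s.2.2 Y) l s.2.2 Y) ∧
      dm (sp n (newZ n (del s.1 l) s.2.2 Y))
        + KS (newI n E s.2.1 (newZ n (del s.1 l) s.2.2 Y) l s.2.2 Y).toFinset + 1
        = dm (sp n s.2.1) + KS s.2.2.toFinset := by
  obtain ⟨M, Z, I⟩ := s
  obtain ⟨hl, hl'⟩ := mem_cand.1 hl
  have hv := val_eq H
  simp only at H hl hl' hv ⊢
  obtain ⟨hM', hlen⟩ := H.isM.del hl
  have eL := sp_flat_del (n := n) hl
  have lz := H.lz
  rw [eL] at lz
  by_cases h : (gT I).length + 2 * rk n Z ≤ rho n (flat (del M l)) Z I (cpX n (flat (del M l)) Z I)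
  · left
    refine ⟨cpF n (flat (del M l)) Z I ++ del M l, ?_, ?_, by simp only [stepAt, if_pos h]⟩
    all_goals
      rw [rk_eq] at h
      obtain ⟨b1, _, b3, b4⟩ := cp_succ H.nodup H.good (by order)
        (fun c hc => (le_PS (List.mem_toFinset.2 hc)).trans H.pz) h
      have := hM'.2
    · refine ⟨fun e he => (List.mem_append.1 he).elim (b1 e) (hM'.1 e), ?_⟩
      rw [flat_append, sp_append, sup_comm, List.length_append]
      omega
    · rw [List.length_append]
      omega
  · right
    refine ⟨cpY n (flat (del M l)) Z I, by simp only [stepAt, if_neg h], ?_⟩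
    rw [rk_eq] at h
    obtain ⟨_, a1, a2, a3⟩ := cp_min (flat (del M l)) Z H.nodup H.good
    have hge : ∀ Y' ⊆ I.toFinset, 2 * dm (sp n Z) + 2 * KS Y'
        ≤ dm (sp n Z ⊔ TS n Y') + dm (sp n (flat (del M l)) ⊔ PS n (I.toFinset \ Y')) + 1 := by
      intro Y' hY'
      rcases Y'.eq_empty_or_nonempty with rfl | hne
      · simp only [TS_empty, sup_bot_eq, KS_empty, sdiff_empty]
        omega
      · have b1 := H.s5 Y' hY' hne
        have b2 := dm_sup_ln_le (sp n (flat (del M l)) ⊔ PS n (I.toFinset \ Y')) l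
        rw [eL, sup_right_comm] at b1
        omega
    have a4 := hge _ a1
    exact merge_inv H hl a1 (by omega) hge fun Y' hY' h' => (a3 Y' hY').2 (by omega)

theorem step_cases (E : List Line) (s : State) :
    (cand n s = [] ∧ step n E s = s) ∨ ∃ l ∈ cand n s, step n E s = stepAt n E s l := by
  unfold step
  cases h : cand n s with
  | nil => simp
  | cons l L => simp

theorem stepAt_spec {E : List Line} {s : State} (H : Inv n E s.1 s.2.1 s.2.2) {l : Line}
    (hl : l ∈ cand n s) :
    Inv n E (stepAt n E s l).1 (stepAt n E s l).2.1 (stepAt n E s l).2.2 ∧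
      val n s * (n + 1) + (n - s.1.length)
        < val n (stepAt n E s l) * (n + 1) + (n - (stepAt n E s l).1.length) := by
  rcases stepAt_cases H hl with ⟨M, h1, h2, h3⟩ | ⟨Y, h1, _, h3, h4⟩
  · obtain ⟨a1, a2, a3, a4⟩ := init_inv h1
    have a5 := val_eq a1
    rw [h3]
    refine ⟨a1, ?_⟩
    have : val n s + 1 ≤ val n (init n E M) := by omega
    have := Nat.mul_le_mul_right (n + 1) this
    have : n - s.1.length ≤ n := Nat.sub_le _ _
    nlinarith [Nat.zero_le (n - (init n E M).1.length)]
  · have H' : Inv n E (stepAt n E s l).1 (stepAt n E s l).2.1 (stepAt n E s l).2.2 := by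
      rw [h1]; exact h3
    refine ⟨H', ?_⟩
    have a1 := val_eq H'
    have a2 := val_eq H
    have a3 := (H.isM.del (mem_cand.1 hl).1).2
    have a4 := H.isM.length_le
    rw [h1] at a1 ⊢
    simp only at a1 ⊢
    have : val n (del s.1 l, newZ n (del s.1 l) s.2.2 Y,
        newI n E s.2.1 (newZ n (del s.1 l) s.2.2 Y) l s.2.2 Y) = val n s := by omega
    rw [this]
    omega

theorem nodup_of_dm {M : List Line} (h : dm (sp n (flat M)) = 2 * M.length) : M.Nodup := by
  induction M with
  | nil => simp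
  | cons l M ih =>
    have a1 := dm_sup_ln_le (sp n (flat M)) l
    have a2 := dm_sp_le (n := n) (flat M)
    rw [sp_flat_cons, sup_comm, List.length_cons] at h
    rw [length_flat] at a2
    refine List.nodup_cons.2 ⟨fun hl => ?_, ih (by omega)⟩
    rw [sup_eq_left.2 (ln_le_flat hl)] at h
    omega

theorem direct_of_del {P : Sp n} {M : List Line} (hM : M.Nodup)
    (h : ∀ l ∈ M, dm (P ⊔ sp n (flat (del M l))) + 2 ≤ dm (P ⊔ sp n (flat M))) :
    dm P + 2 * M.length ≤ dm (P ⊔ sp n (flat M)) := by
  induction M with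
  | nil => simp
  | cons l M ih =>
    obtain ⟨h1, h2⟩ := List.nodup_cons.1 hM
    have e1 : del (l :: M) l = M := by
      rw [del, List.filter_cons_of_neg (by simp), List.filter_eq_self]
      intro e he
      simpa using fun h : e = l => h1 (h ▸ he)
    have a1 := h l List.mem_cons_self
    rw [e1] at a1
    have a2 := ih h2 fun l' hl' => by
      have e2 : del (l :: M) l' = l :: del M l' := by
        rw [del, List.filter_cons_of_pos (by simpa using fun h : l = l' => h1 (h ▸ hl'))]
        rfl
      have b1 := h l' (List.mem_cons_of_mem _ hl')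
      have b2 := relsub (O := P ⊔ sp n (flat (del M l')))
        (O' := P ⊔ (ln n l ⊔ sp n (flat (del M l')))) (by order) (ln n l')
      have b3 := sp_flat_del (n := n) hl'
      have b4 : P ⊔ (ln n l ⊔ sp n (flat (del M l'))) ⊔ ln n l' = P ⊔ (ln n l ⊔ sp n (flat M)) := by
        order
      have b5 : P ⊔ sp n (flat (del M l')) ⊔ ln n l' = P ⊔ sp n (flat M) := by order
      rw [e2, sp_flat_cons, sp_flat_cons] at b1
      rw [b4, b5] at b2
      omega
    rw [List.length_cons]
    omega

theorem group_le {O W : Sp n} {k : ℕ} (hW : dm (O ⊔ W) ≤ dm O + 2 * k + 1) {M : List Line}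
    (h : ∀ e ∈ M, ln n e ≤ W) : dm (O ⊔ sp n (flat M)) ≤ dm O + M.length + k := by
  have a1 := dm_sup_sp_le O (flat M)
  have a2 : dm (O ⊔ sp n (flat M)) ≤ dm (O ⊔ W) := dm_mono (sup_le_sup_left (sp_flat_le.2 h) _)
  rw [length_flat] at a1
  omega

theorem groups_le {O W : Sp n} {k : ℕ} (hW : dm (O ⊔ W) ≤ dm O + 2 * k + 1) (I : Finset Comp)
    (hI : ∀ c ∈ I, dm (O ⊔ cW n c) ≤ dm O + 2 * ck c + 1) (M : List Line)
    (h : ∀ e ∈ M, ln n e ≤ W ∨ ∃ c ∈ I, ln n e ≤ cW n c) :
    dm (O ⊔ sp n (flat M)) ≤ dm O + M.length + k + KS I := by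
  classical
  induction I using Finset.induction_on generalizing M with
  | empty => exact group_le hW fun e he => by simpa using h e he
  | insert c I hc ih =>
    have a1 := group_le (hI c (mem_insert_self _ _))
      (M := M.filter fun e => decide (ln n e ≤ cW n c))
      fun e he => of_decide_eq_true (List.mem_filter.1 he).2
    have a2 := ih (fun d hd => hI d (mem_insert_of_mem hd))
      (M.filter fun e => decide (¬ ln n e ≤ cW n c)) fun e he => by
        obtain ⟨b1, b2⟩ := List.mem_filter.1 he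
        refine (h e b1).imp id fun ⟨d, hd, hd'⟩ => ⟨d, ?_, hd'⟩
        refine (mem_insert.1 hd).resolve_left fun h => ?_
        exact of_decide_eq_true b2 (h ▸ hd')
    have a3 := len_split M (fun e => ln n e ≤ cW n c) (fun e => ¬ ln n e ≤ cW n c) (fun _ => True)
      (fun y _ => by tauto) (fun y _ => by tauto)
    simp only [decide_true, List.filter_true] at a3
    have a4 : KS (insert c I) = ck c + KS I := sum_insert hc
    have a5 := relsub (O := O) (O' := O ⊔ sp n (flat (M.filter fun e => decide (¬ ln n e ≤ cW n c))))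
      le_sup_left (sp n (flat (M.filter fun e => decide (ln n e ≤ cW n c))))
    have a6 : dm (O ⊔ sp n (flat M))
        ≤ dm (O ⊔ sp n (flat (M.filter fun e => decide (¬ ln n e ≤ cW n c)))
          ⊔ sp n (flat (M.filter fun e => decide (ln n e ≤ cW n c)))) := by
      refine dm_mono (sup_le (by order) (sp_flat_le.2 fun e he => ?_))
      by_cases b : ln n e ≤ cW n c
      · exact le_sup_of_le_right (ln_le_flat (List.mem_filter.2 ⟨he, decide_eq_true b⟩))
      · exact le_sup_of_le_left (le_sup_of_le_right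
          (ln_le_flat (List.mem_filter.2 ⟨he, decide_eq_true b⟩)))
    omega

theorem terminal {E : List Line} {s : State} (H : Inv n E s.1 s.2.1 s.2.2) (h : cand n s = [])
    {M : List Line} (hM : IsM n E M) : M.length ≤ val n s := by
  have hv := val_eq H
  have lz := H.lz
  have pz := H.pz
  have s4 := H.s4
  have e : PS n s.2.2.toFinset ⊔ sp n (flat s.1) = sp n s.2.1 := by order
  have a1 := direct_of_del (P := PS n s.2.2.toFinset) (nodup_of_dm H.isM.2) fun l hl => by
    have : l ∉ cand n s := by simp [h]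
    rw [mem_cand, not_and, not_le] at this
    have := this hl
    rw [e, sup_comm]
    omega
  have a2 := dm_sup_sp_le (PS n s.2.2.toFinset) (flat s.1)
  rw [length_flat] at a2
  rw [e] at a1 a2
  have a3 := groups_le (O := PS n s.2.2.toFinset) (W := sp n s.2.1) (k := s.1.length)
    (by rw [sup_eq_right.2 pz]; omega) s.2.2.toFinset (fun c hc => by
      have b1 := dm_sup_sp_le (PS n s.2.2.toFinset) c.1
      have b2 := le_PS (n := n) hc
      have b3 := (H.good c (List.mem_toFinset.1 hc)).odd
      have b4 : dm (PS n s.2.2.toFinset ⊔ cW n c) ≤ dm (PS n s.2.2.toFinset ⊔ sp n c.1) :=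
        dm_mono (by rw [cW]; order)
      omega) M fun e he => (H.cover e (hM.1 e he)).imp id
        fun ⟨c, hc, hc'⟩ => ⟨c, List.mem_toFinset.2 hc, hc'⟩
  have a4 : dm (sp n (flat M)) ≤ dm (PS n s.2.2.toFinset ⊔ sp n (flat M)) := dm_mono le_sup_right
  have a5 := hM.2
  omega

theorem isM_nil (E : List Line) : IsM n E [] := ⟨by simp, by simp⟩

theorem step_inv {E : List Line} {s : State} (H : Inv n E s.1 s.2.1 s.2.2) :
    Inv n E (step n E s).1 (step n E s).2.1 (step n E s).2.2 := by
  rcases step_cases (n := n) E s with h | ⟨l, hl, h⟩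
  · rwa [h.2]
  · rw [h]; exact (stepAt_spec H hl).1

theorem nu_spec (E : List Line) : IsGreatest {k | ∃ M, IsM n E M ∧ M.length = k} (nu n E) := by
  obtain ⟨H, hfix⟩ := iterate_fix (f := step n E) (P := fun s => Inv n E s.1 s.2.1 s.2.2)
    (φ := fun s => val n s * (n + 1) + (n - s.1.length)) (N := (n + 1) * (n + 1))
    (s := init n E []) (init_inv (isM_nil E)).1 (fun s hs => step_inv hs)
    (fun s hs => by
      rcases step_cases (n := n) E s with h | ⟨l, hl, h⟩
      · exact Or.inl h.2
      · right; rw [h]; exact (stepAt_spec hs hl).2)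
    (fun s hs => by
      obtain ⟨M, h1, h2⟩ := hs.ex
      have a1 := val_eq hs
      have a2 := h1.length_le
      have a3 : val n s ≤ n := by omega
      have := Nat.mul_le_mul_right (n + 1) a3
      have : n - s.1.length ≤ n := Nat.sub_le _ _
      nlinarith)
  unfold nu
  generalize (step n E)^[(n + 1) * (n + 1)] (init n E []) = s at *
  constructor
  · obtain ⟨M, h1, h2⟩ := H.ex
    have a1 := val_eq H
    exact ⟨M, h1, by omega⟩
  · rintro k ⟨M, hM, rfl⟩
    rcases step_cases (n := n) E s with h | ⟨l, hl, h⟩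
    · exact terminal H h.1 hM
    · have := (stepAt_spec H hl).2
      rw [← h, hfix] at this
      exact absurd this (lt_irrefl _)

end Pool.Agent.MP_0c5eb8_lc.H36
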