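import Pool.Agent.MP_0c5eb8_lc.H36.Round

/-!
The configuration problem: choose members of the families of the components whose union is
independent modulo `R` and spans `X` modulo `R`.
-/

set_option autoImplicit false
set_option linter.unusedSectionVars false

namespace Pool.Agent.MP_0c5eb8_lc.H36

open Finset

abbrev El := Comp × Bool × Vec

instance instDecEqEl : DecidableEq El := inferInstance

/-- The tagged vectors of the lists `T`. -/
def gT (I : List Comp) : List El := I.flatMap fun c => c.1.map fun v => (c, false, v)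

/-- The tagged vectors of the lists `P`. -/
def gP (I : List Comp) : List El := I.flatMap fun c => c.2.1.map fun v => (c, true, v)

/-- The rank oracle: the dual of the matroid of the `T` modulo `X`, plus that of the `P` modulo `R`. -/
def rho (n : ℕ) (R X : List Vec) (I : List Comp) (l : List El) : ℕ :=
  ((gT I).filter fun y => decide (y ∈ l)).length
    + rk n (X ++ ((gT I).filter fun y => decide (y ∉ l)).map fun y => y.2.2)
    + rk n (R ++ ((gP I).filter fun y => decide (y ∈ l)).map fun y => y.2.2)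

/-- The span of the vectors of the elements satisfying `p`. -/
def vs (n : ℕ) (L : List El) (p : El → Prop) [DecidablePred p] : Sp n :=
  sp n ((L.filter fun y => decide (p y)).map fun y => y.2.2)

/-- The rank function on finite sets. -/
noncomputable def rF (n : ℕ) (R X : Sp n) (I : List Comp) (A : Finset El) : ℕ :=
  ((gT I).filter fun y => decide (y ∈ A)).length + dm (X ⊔ vs n (gT I) (fun y => y ∉ A))
    + dm (R ⊔ vs n (gP I) (fun y => y ∈ A))

variable {n : ℕ}

theorem rho_eq (R X : List Vec) (I : List Comp) (l : List El) :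
    rho n R X I l = rF n (sp n R) (sp n X) I l.toFinset := by
  simp [rho, rF, vs, rk_eq]

theorem vs_le {L : List El} {p : El → Prop} [DecidablePred p] {O : Sp n} :
    vs n L p ≤ O ↔ ∀ y ∈ L, p y → pt n y.2.2 ≤ O := by
  simp only [vs, sp_le, List.mem_map, List.mem_filter, decide_eq_true_eq]
  constructor
  · intro h y hy hp
    exact h _ ⟨y, ⟨hy, hp⟩, rfl⟩
  · rintro h _ ⟨y, ⟨hy, hp⟩, rfl⟩
    exact h y hy hp

theorem le_vs {L : List El} {p : El → Prop} [DecidablePred p] {y : El} (hy : y ∈ L) (hp : p y) :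
    pt n y.2.2 ≤ vs n L p := vs_le.1 le_rfl y hy hp

theorem vs_mono {L : List El} {p q : El → Prop} [DecidablePred p] [DecidablePred q]
    (h : ∀ y ∈ L, p y → q y) : vs n L p ≤ vs n L q := vs_le.2 fun y hy hp => le_vs hy (h y hy hp)

theorem vs_le_sup {L : List El} {p q s : El → Prop} [DecidablePred p] [DecidablePred q]
    [DecidablePred s] (h : ∀ y ∈ L, p y → q y ∨ s y) : vs n L p ≤ vs n L q ⊔ vs n L s :=
  vs_le.2 fun y hy hp => (h y hy hp).elim (fun h => le_sup_of_le_left (le_vs hy h))
    fun h => le_sup_of_le_right (le_vs hy h)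

theorem dm_sup_vs_le (O : Sp n) (L : List El) (p : El → Prop) [DecidablePred p] :
    dm (O ⊔ vs n L p) ≤ dm O + (L.filter fun y => decide (p y)).length := by
  simpa [vs] using dm_sup_sp_le O ((L.filter fun y => decide (p y)).map fun y => y.2.2)

theorem len_modular {γ : Type} (L : List γ) (p q s t : γ → Prop) [DecidablePred p] [DecidablePred q]
    [DecidablePred s] [DecidablePred t] (hs : ∀ y ∈ L, s y ↔ p y ∨ q y)
    (ht : ∀ y ∈ L, t y ↔ p y ∧ q y) :
    (L.filter fun y => decide (s y)).length + (L.filter fun y => decide (t y)).length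
      = (L.filter fun y => decide (p y)).length + (L.filter fun y => decide (q y)).length := by
  induction L with
  | nil => rfl
  | cons y L ih =>
    have ih' := ih (fun z hz => hs z (List.mem_cons_of_mem _ hz))
      (fun z hz => ht z (List.mem_cons_of_mem _ hz))
    have h1 := hs y List.mem_cons_self
    have h2 := ht y List.mem_cons_self
    simp only [List.filter_cons]
    by_cases hp : p y <;> by_cases hq : q y <;> simp [hp, hq, h1, h2] <;> omega

theorem len_split {γ : Type} (L : List γ) (p q s : γ → Prop) [DecidablePred p] [DecidablePred q]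
    [DecidablePred s] (hs : ∀ y ∈ L, s y ↔ p y ∨ q y) (ht : ∀ y ∈ L, ¬ (p y ∧ q y)) :
    (L.filter fun y => decide (s y)).length
      = (L.filter fun y => decide (p y)).length + (L.filter fun y => decide (q y)).length := by
  have := len_modular L p q s (fun _ => False) hs (fun y hy => by simpa using ht y hy)
  simpa using this

theorem mem_gT {I : List Comp} {y : El} : y ∈ gT I ↔ y.1 ∈ I ∧ y.2.1 = false ∧ y.2.2 ∈ y.1.1 := by
  obtain ⟨c, b, v⟩ := y
  simp only [gT, List.mem_flatMap, List.mem_map, Prod.mk.injEq]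
  constructor
  · rintro ⟨c, h1, v, h2, rfl, rfl, rfl⟩
    exact ⟨h1, rfl, h2⟩
  · rintro ⟨h1, rfl, h2⟩
    exact ⟨c, h1, v, h2, rfl, rfl, rfl⟩

theorem mem_gP {I : List Comp} {y : El} : y ∈ gP I ↔ y.1 ∈ I ∧ y.2.1 = true ∧ y.2.2 ∈ y.1.2.1 := by
  obtain ⟨c, b, v⟩ := y
  simp only [gP, List.mem_flatMap, List.mem_map, Prod.mk.injEq]
  constructor
  · rintro ⟨c, h1, v, h2, rfl, rfl, rfl⟩
    exact ⟨h1, rfl, h2⟩
  · rintro ⟨h1, rfl, h2⟩
    exact ⟨c, h1, v, h2, rfl, rfl, rfl⟩

theorem nodup_gT {I : List Comp} (hI : I.Nodup) (hT : ∀ c ∈ I, c.1.Nodup) : (gT I).Nodup := by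
  unfold gT
  rw [List.nodup_flatMap]
  refine ⟨fun c hc => (hT c hc).map fun v w h => by simpa using h, hI.imp fun {a b} hab => ?_⟩
  intro y h1 h2
  obtain ⟨v, _, rfl⟩ := List.mem_map.1 h1
  obtain ⟨w, _, h⟩ := List.mem_map.1 h2
  exact hab (congrArg Prod.fst h).symm

theorem rankFn_rF (R X : Sp n) {I : List Comp} (hI : (gT I).Nodup) : RankFn (rF n R X I) := by
  refine ⟨fun A B h => ?_, fun A y => ?_, fun A B => ?_⟩
  · unfold rF
    have h1 : dm (R ⊔ vs n (gP I) (fun y => y ∈ A)) ≤ dm (R ⊔ vs n (gP I) (fun y => y ∈ B)) :=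
      dm_mono (sup_le_sup_left (vs_mono fun y _ hy => h hy) _)
    have h2 := len_split (gT I) (fun y => y ∈ A) (fun y => y ∈ B ∧ y ∉ A) (fun y => y ∈ B)
      (fun y _ => by have := @h y; tauto) (fun y _ => by tauto)
    have h3 := dm_sup_vs_le (X ⊔ vs n (gT I) (fun y => y ∉ B)) (gT I) (fun y => y ∈ B ∧ y ∉ A)
    have h4 : vs n (gT I) (fun y => y ∉ A)
        ≤ vs n (gT I) (fun y => y ∉ B) ⊔ vs n (gT I) (fun y => y ∈ B ∧ y ∉ A) :=
      vs_le_sup fun y _ hy => by tauto
    have h5 : dm (X ⊔ vs n (gT I) (fun y => y ∉ A)) ≤ dm (X ⊔ vs n (gT I) (fun y => y ∉ B)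
        ⊔ vs n (gT I) (fun y => y ∈ B ∧ y ∉ A)) := dm_mono (by order)
    omega
  · unfold rF
    have h1 : dm (X ⊔ vs n (gT I) (fun z => z ∉ insert y A))
        ≤ dm (X ⊔ vs n (gT I) (fun z => z ∉ A)) :=
      dm_mono (sup_le_sup_left (vs_mono fun z _ hz h => hz (mem_insert_of_mem h)) _)
    have h2 := len_modular (gT I) (fun z => z ∈ A) (fun z => z = y) (fun z => z ∈ insert y A)
      (fun z => z ∈ A ∧ z = y) (fun z _ => by rw [mem_insert]; tauto) (fun z _ => Iff.rfl)
    cases hb : y.2.1
    · have h3 : ((gT I).filter fun z => decide (z = y)).length ≤ 1 := by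
        rw [← List.countP_eq_length_filter]
        have := List.nodup_iff_count_le_one.1 hI y
        rw [List.count_eq_countP] at this
        convert this using 2
        funext z
        rw [Bool.eq_iff_iff]
        simp
      have h4 : dm (R ⊔ vs n (gP I) (fun z => z ∈ insert y A))
          ≤ dm (R ⊔ vs n (gP I) (fun z => z ∈ A)) := by
        refine dm_mono (sup_le_sup_left (vs_mono fun z hz h => ?_) _)
        rcases mem_insert.1 h with rfl | h
        · rw [(mem_gP.1 hz).2.1] at hb
          cases hb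
        · exact h
      omega
    · have h3 : ((gT I).filter fun z => decide (z = y)).length = 0 := by
        rw [List.length_eq_zero_iff, List.filter_eq_nil_iff]
        intro z hz h
        rw [← of_decide_eq_true h, (mem_gT.1 hz).2.1] at hb
        cases hb
      have h4 : vs n (gP I) (fun z => z ∈ insert y A)
          ≤ vs n (gP I) (fun z => z ∈ A) ⊔ pt n y.2.2 := by
        refine vs_le.2 fun z hz h => ?_
        rcases mem_insert.1 h with rfl | h
        · exact le_sup_right
        · exact le_sup_of_le_left (le_vs hz h)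
      have h5 := dm_sup_pt_le (R ⊔ vs n (gP I) (fun z => z ∈ A)) y.2.2
      have h6 : dm (R ⊔ vs n (gP I) (fun z => z ∈ insert y A))
          ≤ dm (R ⊔ vs n (gP I) (fun z => z ∈ A) ⊔ pt n y.2.2) := dm_mono (by order)
      omega
  · unfold rF
    have h1 := len_modular (gT I) (fun z => z ∈ A) (fun z => z ∈ B) (fun z => z ∈ A ∪ B)
      (fun z => z ∈ A ∩ B) (fun z _ => mem_union) (fun z _ => mem_inter)
    have h2 := dm_modular (X ⊔ vs n (gT I) (fun z => z ∉ A)) (X ⊔ vs n (gT I) (fun z => z ∉ B))
    have h3 := dm_modular (R ⊔ vs n (gP I) (fun z => z ∈ A)) (R ⊔ vs n (gP I) (fun z => z ∈ B))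
    have a1 : vs n (gT I) (fun z => z ∉ A ∪ B) ≤ vs n (gT I) (fun z => z ∉ A) :=
      vs_mono fun z _ h h' => h (mem_union_left _ h')
    have a2 : vs n (gT I) (fun z => z ∉ A ∪ B) ≤ vs n (gT I) (fun z => z ∉ B) :=
      vs_mono fun z _ h h' => h (mem_union_right _ h')
    have a3 : vs n (gT I) (fun z => z ∉ A ∩ B)
        ≤ vs n (gT I) (fun z => z ∉ A) ⊔ vs n (gT I) (fun z => z ∉ B) :=
      vs_le_sup fun z _ h => by rw [mem_inter] at h; tauto
    have a4 : vs n (gP I) (fun z => z ∈ A ∩ B) ≤ vs n (gP I) (fun z => z ∈ A) :=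
      vs_mono fun z _ h => (mem_inter.1 h).1
    have a5 : vs n (gP I) (fun z => z ∈ A ∩ B) ≤ vs n (gP I) (fun z => z ∈ B) :=
      vs_mono fun z _ h => (mem_inter.1 h).2
    have a6 : vs n (gP I) (fun z => z ∈ A ∪ B)
        ≤ vs n (gP I) (fun z => z ∈ A) ⊔ vs n (gP I) (fun z => z ∈ B) :=
      vs_le_sup fun z _ h => mem_union.1 h
    have b1 : dm (X ⊔ vs n (gT I) (fun z => z ∉ A ∪ B)) ≤
        dm ((X ⊔ vs n (gT I) (fun z => z ∉ A)) ⊓ (X ⊔ vs n (gT I) (fun z => z ∉ B))) :=
      dm_mono (by order)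
    have b2 : dm (X ⊔ vs n (gT I) (fun z => z ∉ A ∩ B)) ≤
        dm ((X ⊔ vs n (gT I) (fun z => z ∉ A)) ⊔ (X ⊔ vs n (gT I) (fun z => z ∉ B))) :=
      dm_mono (by order)
    have b3 : dm (R ⊔ vs n (gP I) (fun z => z ∈ A ∩ B)) ≤
        dm ((R ⊔ vs n (gP I) (fun z => z ∈ A)) ⊓ (R ⊔ vs n (gP I) (fun z => z ∈ B))) :=
      dm_mono (by order)
    have b4 : dm (R ⊔ vs n (gP I) (fun z => z ∈ A ∪ B)) ≤
        dm ((R ⊔ vs n (gP I) (fun z => z ∈ A)) ⊔ (R ⊔ vs n (gP I) (fun z => z ∈ B))) :=
      dm_mono (by order)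
    omega

/-- The sum of the spans of the lists `T`. -/
def TS (n : ℕ) (Y : Finset Comp) : Sp n := Y.sup fun c => sp n c.1

/-- The sum of the spans of the lists `P`. -/
def PS (n : ℕ) (Y : Finset Comp) : Sp n := Y.sup fun c => sp n c.2.1

/-- The sum of the numbers `k`. -/
def KS (Y : Finset Comp) : ℕ := ∑ c ∈ Y, ck c

theorem le_TS {Y : Finset Comp} {c : Comp} (h : c ∈ Y) : sp n c.1 ≤ TS n Y :=
  le_sup (f := fun c : Comp => sp n c.1) h
theorem le_PS {Y : Finset Comp} {c : Comp} (h : c ∈ Y) : sp n c.2.1 ≤ PS n Y :=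
  le_sup (f := fun c : Comp => sp n c.2.1) h
theorem TS_le {Y : Finset Comp} {O : Sp n} : TS n Y ≤ O ↔ ∀ c ∈ Y, sp n c.1 ≤ O := Finset.sup_le_iff
theorem PS_le {Y : Finset Comp} {O : Sp n} : PS n Y ≤ O ↔ ∀ c ∈ Y, sp n c.2.1 ≤ O :=
  Finset.sup_le_iff
theorem TS_mono {Y Y' : Finset Comp} (h : Y ⊆ Y') : TS n Y ≤ TS n Y' := sup_mono h
theorem PS_mono {Y Y' : Finset Comp} (h : Y ⊆ Y') : PS n Y ≤ PS n Y' := sup_mono h
theorem TS_union (Y Y' : Finset Comp) : TS n (Y ∪ Y') = TS n Y ⊔ TS n Y' := sup_union
theorem PS_union (Y Y' : Finset Comp) : PS n (Y ∪ Y') = PS n Y ⊔ PS n Y' := sup_union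
@[simp] theorem TS_empty : TS n ∅ = ⊥ := rfl
@[simp] theorem PS_empty : PS n ∅ = ⊥ := rfl
@[simp] theorem KS_empty : KS ∅ = 0 := rfl

theorem length_gT_filter {I : List Comp} (hI : I.Nodup) (p : Comp → Prop) [DecidablePred p] :
    ((gT I).filter fun y => decide (p y.1)).length
      = ∑ c ∈ I.toFinset.filter p, c.1.length := by
  induction I with
  | nil => simp [gT]
  | cons c I ih =>
    obtain ⟨h1, h2⟩ := List.nodup_cons.1 hI
    have e : gT (c :: I) = (c.1.map fun v => (c, false, v)) ++ gT I := rfl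
    rw [e, List.filter_append, List.length_append, ih h2, List.toFinset_cons, filter_insert]
    split_ifs with h
    · rw [sum_insert (by simp [h1]), List.filter_eq_self.2 (by simp [h]), List.length_map]
    · rw [List.filter_eq_nil_iff.2 (by simp [h])]
      simp

theorem rF_compl {E : List Line} (R X : Sp n) {I : List Comp} (hI : I.Nodup)
    (hG : ∀ c ∈ I, Good n E c) {Y : Finset Comp} (hY : Y ⊆ I.toFinset) :
    rF n R X I (gc (gT I ++ gP I) Y) + Y.card + 2 * KS Y
      = (gT I).length + dm (X ⊔ TS n Y) + dm (R ⊔ PS n (I.toFinset \ Y)) := by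
  unfold rF
  have e1 : ((gT I).filter fun y =>
      decide (y ∈ gc (gT I ++ gP I) Y)) =
      (gT I).filter fun y => decide (y.1 ∉ Y) :=
    List.filter_congr fun y hy => by simp [hy, gc]
  have e2 : vs n (gT I) (fun y => y ∉ gc (gT I ++ gP I) Y)
      = TS n Y := by
    refine le_antisymm (vs_le.2 fun y hy h => ?_) (TS_le.2 fun c hc => sp_le.2 fun v hv => ?_)
    · have : y.1 ∈ Y := by simpa [hy, gc] using h
      exact (pt_le_sp (mem_gT.1 hy).2.2).trans (le_TS this)
    · exact le_vs (y := (c, false, v)) (mem_gT.2 ⟨List.mem_toFinset.1 (hY hc), rfl, hv⟩)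
        (by simp [hc, gc])
  have e3 : vs n (gP I) (fun y => y ∈ gc (gT I ++ gP I) Y)
      = PS n (I.toFinset \ Y) := by
    refine le_antisymm (vs_le.2 fun y hy h => ?_) (PS_le.2 fun c hc => sp_le.2 fun v hv => ?_)
    · exact (pt_le_sp (mem_gP.1 hy).2.2).trans (le_PS (mem_sdiff.2
        ⟨List.mem_toFinset.2 (mem_gP.1 hy).1, (mem_filter.1 h).2⟩))
    · obtain ⟨h1, h2⟩ := mem_sdiff.1 hc
      have : (c, true, v) ∈ gP I := mem_gP.2 ⟨List.mem_toFinset.1 h1, rfl, hv⟩
      exact le_vs (y := (c, true, v)) this (by simp [this, h2, gc])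
  rw [e1, e2, e3]
  have h1 := len_split (gT I) (fun y => y.1 ∈ Y) (fun y => y.1 ∉ Y) (fun _ => True)
    (fun y _ => by tauto) (fun y _ => by tauto)
  rw [length_gT_filter hI (fun c => c ∈ Y), filter_mem_eq_inter, inter_eq_right.2 hY] at h1
  have h2 : ∑ c ∈ Y, c.1.length = Y.card + 2 * KS Y := by
    rw [KS, mul_sum, card_eq_sum_ones, ← sum_add_distrib]
    refine sum_congr rfl fun c hc => ?_
    rw [(hG c (List.mem_toFinset.1 (hY hc))).odd]
    omega
  simp only [decide_true, List.filter_true] at h1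
  omega

/-- The independent transversal. -/
def cpX (n : ℕ) (R X : List Vec) (I : List Comp) : List El :=
  radoX (rho n R X I) I (gT I ++ gP I)

/-- The least minimiser. -/
def cpY (n : ℕ) (R X : List Vec) (I : List Comp) : List Comp :=
  radoY (rho n R X I) I (gT I ++ gP I)

/-- The chosen vector of `P`, if any. -/
def ups (x : List El) (c : Comp) : List Vec :=
  (x.filter fun y => decide (y.1 = c ∧ y.2.1 = true)).map fun y => y.2.2

/-- The vectors kept from `T`. -/
def downs (x : List El) (c : Comp) : List Vec :=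
  (c.1.filter fun v => decide ((c, false, v) ∉ x)).take (2 * ck c + (ups x c).length)

/-- The lines that solve the configuration problem. -/
def cpF (n : ℕ) (R X : List Vec) (I : List Comp) : List Line :=
  round n R (I.map fun c => (c, ups (cpX n R X I) c ++ downs (cpX n R X I) c))

theorem cp_min {E : List Line} (R X : List Vec) {I : List Comp} (hI : I.Nodup)
    (hG : ∀ c ∈ I, Good n E c) :
    Trans (rho n R X I) (gT I ++ gP I) (cpX n R X I) ∧ (cpY n R X I).toFinset ⊆ I.toFinset ∧
    rho n R X I (cpX n R X I) + 2 * KS (cpY n R X I).toFinset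
      = (gT I).length + dm (sp n X ⊔ TS n (cpY n R X I).toFinset)
        + dm (sp n R ⊔ PS n (I.toFinset \ (cpY n R X I).toFinset)) ∧
    ∀ Y ⊆ I.toFinset, rho n R X I (cpX n R X I) + 2 * KS Y
        ≤ (gT I).length + dm (sp n X ⊔ TS n Y) + dm (sp n R ⊔ PS n (I.toFinset \ Y)) ∧
      ((gT I).length + dm (sp n X ⊔ TS n Y) + dm (sp n R ⊔ PS n (I.toFinset \ Y))
        ≤ rho n R X I (cpX n R X I) + 2 * KS Y → (cpY n R X I).toFinset ⊆ Y) := by
  obtain ⟨h1, h2, h3, h4⟩ := rado_spec (I := I) (G := gT I ++ gP I)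
    (rankFn_rF (sp n R) (sp n X) (nodup_gT hI fun c hc => (hG c hc).nodup)) (rho_eq R X I)
    (fun y hy => (List.mem_append.1 hy).elim (fun h => (mem_gT.1 h).1) fun h => (mem_gP.1 h).1)
  have h5 : (cpY n R X I).toFinset ⊆ I.toFinset := fun c hc =>
    List.mem_toFinset.2 (h2 c (List.mem_toFinset.1 hc))
  have h6 := h1.indep
  rw [rho_eq R X I [], List.toFinset_nil] at h6
  change rho n R X I (cpX n R X I) = _ + (cpX n R X I).length at h6
  change _ + (cpY n R X I).toFinset.card ≤ _ + (cpX n R X I).length at h3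
  refine ⟨h1, h5, ?_, fun Y hY => ?_⟩
  · have a1 := rF_compl (sp n R) (sp n X) hI hG h5
    have a2 := (h4 (cpY n R X I).toFinset).1
    change _ + (cpX n R X I).length ≤ _ at a2
    change rF n (sp n R) (sp n X) I (gc (gT I ++ gP I) (cpY n R X I).toFinset) + _ ≤ _ at h3
    omega
  · have a1 := rF_compl (sp n R) (sp n X) hI hG hY
    obtain ⟨a2, a3⟩ := h4 Y
    change _ + (cpX n R X I).length ≤ _ at a2
    change _ ≤ _ + (cpX n R X I).length → (cpY n R X I).toFinset ⊆ Y at a3
    exact ⟨by omega, fun h => a3 (by omega)⟩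

theorem length_le_of_nodup {γ : Type} {l l' : List γ} (h : l.Nodup) (h' : ∀ a ∈ l, a ∈ l') :
    l.length ≤ l'.length := (List.subperm_of_subset h h').length_le

theorem ups_le {x : List El} (hx : (x.map Prod.fst).Nodup) {c : Comp} (hc : c.1.Nodup) :
    (c.1.filter fun v => decide ((c, false, v) ∈ x)).length + (ups x c).length ≤ 1 := by
  have h1 : ((c.1.filter fun v => decide ((c, false, v) ∈ x)).map
      fun v => ((c, false, v) : El)).length
      ≤ (x.filter fun y => decide (y.1 = c ∧ y.2.1 = false)).length := by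
    refine length_le_of_nodup ((hc.filter _).map fun v w h => by simpa using h) fun y hy => ?_
    obtain ⟨v, hv, rfl⟩ := List.mem_map.1 hy
    simpa using (List.mem_filter.1 hv).2
  have h2 := len_split x (fun y => y.1 = c ∧ y.2.1 = false) (fun y => y.1 = c ∧ y.2.1 = true)
    (fun y => y.1 = c) (fun y _ => by cases y.2.1 <;> simp) (fun y _ => by cases y.2.1 <;> simp)
  have h3 : ((x.filter fun y => decide (y.1 = c)).map Prod.fst).length ≤ [c].length := by
    refine length_le_of_nodup (hx.sublist (List.filter_sublist.map _)) fun a ha => ?_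
    obtain ⟨v, hv, rfl⟩ := List.mem_map.1 ha
    simpa using (List.mem_filter.1 hv).2
  simp only [ups, List.length_map, List.length_singleton] at *
  omega

theorem sum_ups_le {x : List El} (hx : x.Nodup) {I : List Comp} (hI : I.Nodup) :
    (I.flatMap (ups x)).length ≤ (x.filter fun y => decide (y.2.1 = true)).length := by
  have h1 : (I.flatMap fun c => x.filter fun y => decide (y.1 = c ∧ y.2.1 = true)).length
      ≤ (x.filter fun y => decide (y.2.1 = true)).length := by
    refine length_le_of_nodup ?_ fun y hy => ?_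
    · rw [List.nodup_flatMap]
      refine ⟨fun c _ => hx.filter _, hI.imp fun {a b} hab y h1 h2 => hab ?_⟩
      have h1 := of_decide_eq_true (List.mem_filter.1 h1).2
      have h2 := of_decide_eq_true (List.mem_filter.1 h2).2
      exact h1.1.symm.trans h2.1
    · obtain ⟨c, _, h⟩ := List.mem_flatMap.1 hy
      obtain ⟨h1, h2⟩ := List.mem_filter.1 h
      exact List.mem_filter.2 ⟨h1, decide_eq_true (of_decide_eq_true h2).2⟩
  refine le_trans (le_of_eq ?_) h1
  simp [List.length_flatMap, ups]

theorem downs_sublist (x : List El) (I : List Comp) : (I.flatMap (downs x)).Sublist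
    (((gT I).filter fun y => decide (y ∉ x)).map fun y => y.2.2) := by
  induction I with
  | nil => simp
  | cons c I ih =>
    have e : gT (c :: I) = (c.1.map fun v => (c, false, v)) ++ gT I := rfl
    rw [e, List.filter_append, List.map_append, List.flatMap_cons]
    refine List.Sublist.append ((List.take_sublist _ _).trans ?_) ih
    simp [List.filter_map, Function.comp_def]

theorem items_flat (x : List El) (I : List Comp) :
    sp n ((I.map fun c => (c, ups x c ++ downs x c)).flatMap Prod.snd)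
      = sp n (I.flatMap (ups x)) ⊔ sp n (I.flatMap (downs x)) ∧
    ((I.map fun c => (c, ups x c ++ downs x c)).flatMap Prod.snd).length
      = (I.flatMap (ups x)).length + (I.flatMap (downs x)).length := by
  induction I with
  | nil => simp
  | cons c I ih =>
    simp only [List.map_cons, List.flatMap_cons, sp_append, List.length_append, ih.1, ih.2]
    exact ⟨by order, by omega⟩

theorem cp_succ {E : List Line} {R X : List Vec} {I : List Comp} (hI : I.Nodup)
    (hG : ∀ c ∈ I, Good n E c) (hR : sp n R ≤ sp n X) (hP : ∀ c ∈ I, sp n c.2.1 ≤ sp n X)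
    (h : (gT I).length + 2 * dm (sp n X) ≤ rho n R X I (cpX n R X I)) :
    (∀ e ∈ cpF n R X I, e ∈ E) ∧
      sp n (flat (cpF n R X I)) ≤ TS n I.toFinset ⊔ PS n I.toFinset ∧
      (cpF n R X I).length + dm (sp n R) = KS I.toFinset + dm (sp n X) ∧
      dm (sp n R ⊔ sp n (flat (cpF n R X I))) = dm (sp n R) + 2 * (cpF n R X I).length := by
  have hx := (cp_min R X hI hG).1
  unfold cpF
  generalize cpX n R X I = x at *
  have hind := hx.indep
  simp only [rho, rk_eq, sp_append] at h hind
  simp only [List.not_mem_nil, decide_false, List.filter_false, List.length_nil, List.map_nil,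
    sp_nil, sup_bot_eq, zero_add, not_false_eq_true, decide_true, List.filter_true] at hind
  have a1 := len_split (gT I) (fun y => y ∈ x) (fun y => y ∉ x) (fun _ => True)
    (fun y _ => by tauto) (fun y _ => by tauto)
  simp only [decide_true, List.filter_true] at a1
  have a2 := dm_sup_sp_le (sp n X) (((gT I).filter fun y => decide (y ∉ x)).map fun y => y.2.2)
  have a3 : sp n (((gP I).filter fun y => decide (y ∈ x)).map fun y => y.2.2)
      ≤ sp n (I.flatMap (ups x)) := by
    refine sp_mono fun v hv => ?_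
    obtain ⟨y, hy, rfl⟩ := List.mem_map.1 hv
    obtain ⟨h1, h2⟩ := List.mem_filter.1 hy
    refine List.mem_flatMap.2 ⟨y.1, (mem_gP.1 h1).1, List.mem_map.2 ⟨y, List.mem_filter.2
      ⟨of_decide_eq_true h2, decide_eq_true ⟨rfl, (mem_gP.1 h1).2.1⟩⟩, rfl⟩⟩
  have a4 : ∀ c, sp n (ups x c) ≤ sp n c.2.1 := by
    intro c
    refine sp_mono fun v hv => ?_
    obtain ⟨y, hy, rfl⟩ := List.mem_map.1 hv
    obtain ⟨h1, h2⟩ := List.mem_filter.1 hy
    obtain ⟨rfl, h3⟩ := of_decide_eq_true h2
    rcases List.mem_append.1 (hx.sub y h1) with h4 | h4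
    · rw [(mem_gT.1 h4).2.1] at h3
      cases h3
    · exact (mem_gP.1 h4).2.2
  have a5 : sp n (I.flatMap (ups x)) ≤ sp n X :=
    sp_flatMap_le.2 fun c hc => (a4 c).trans (hP c hc)
  have a6 : dm (sp n R ⊔ sp n (((gP I).filter fun y => decide (y ∈ x)).map fun y => y.2.2))
      ≤ dm (sp n R ⊔ sp n (I.flatMap (ups x))) := dm_mono (by order)
  have a7 : dm (sp n R ⊔ sp n (I.flatMap (ups x))) ≤ dm (sp n X) := dm_mono (by order)
  have a8 : dm (sp n X ⊔ sp n (((gT I).filter fun y => decide (y ∉ x)).map fun y => y.2.2))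
      ≤ dm (sp n X ⊔ sp n ((gT I).map fun y => y.2.2)) :=
    dm_mono (sup_le_sup_left (sp_mono fun v hv => (List.filter_sublist.map _).subset hv) _)
  have a9 : ((gT I).filter fun y => decide (y ∈ x)).length
      ≤ (x.filter fun y => decide (y.2.1 = false)).length :=
    length_le_of_nodup ((nodup_gT hI fun c hc => (hG c hc).nodup).filter _) fun y hy =>
      List.mem_filter.2 ⟨of_decide_eq_true (List.mem_filter.1 hy).2,
        decide_eq_true (mem_gT.1 (List.mem_filter.1 hy).1).2.1⟩
  have a10 := len_split x (fun y => y.2.1 = false) (fun y => y.2.1 = true) (fun _ => True)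
    (fun y _ => by cases y.2.1 <;> simp) (fun y _ => by cases y.2.1 <;> simp)
  simp only [decide_true, List.filter_true] at a10
  have a11 := sum_ups_le hx.nodup' hI
  have a12 := dm_sup_sp_le (sp n R) (I.flatMap (ups x))
  rw [List.length_map] at a2
  have b1 : sp n R ⊔ sp n (I.flatMap (ups x)) = sp n X := eq_of_dm (by order) (by omega)
  have b2 := indep_sublist (O := sp n X) (downs_sublist x I) (by rw [List.length_map]; omega)
  obtain ⟨b3, b4⟩ := items_flat (n := n) x I
  have b5 : ∀ c ∈ I, (ups x c).length ≤ 1 ∧ (downs x c).length = 2 * ck c + (ups x c).length := by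
    intro c hc
    have c1 := ups_le hx.nodup (hG c hc).nodup
    have c2 := len_split c.1 (fun v => (c, false, v) ∈ x) (fun v => (c, false, v) ∉ x)
      (fun _ => True) (fun y _ => by tauto) (fun y _ => by tauto)
    have c3 := (hG c hc).odd
    simp only [decide_true, List.filter_true] at c2
    refine ⟨by omega, ?_⟩
    rw [downs, List.length_take]
    omega
  have b6 : (I.flatMap (downs x)).length = 2 * KS I.toFinset + (I.flatMap (ups x)).length := by
    rw [KS, List.sum_toFinset _ hI]
    clear * - b5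
    induction I with
    | nil => simp
    | cons c I ih =>
      have := ih fun c hc => b5 c (List.mem_cons_of_mem _ hc)
      have := (b5 c List.mem_cons_self).2
      simp only [List.flatMap_cons, List.length_append, List.map_cons, List.sum_cons]
      omega
  obtain ⟨d1, d2, d3, d4⟩ := round_spec (n := n) (E := E) (up := fun p => (ups x p.1).length)
    (X := sp n X) (W := TS n I.toFinset ⊔ PS n I.toFinset) (R := R)
    (L := I.map fun c => (c, ups x c ++ downs x c))
    (fun p hp => by
      obtain ⟨c, hc, rfl⟩ := List.mem_map.1 hp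
      refine ⟨hG c hc, hP c hc, ?_, (b5 c hc).1, ?_⟩
      · have c1 := a4 c
        have c2 : sp n (downs x c) ≤ sp n c.1 := sp_mono fun v hv =>
          (List.mem_filter.1 (List.mem_of_mem_take hv)).1
        simp only [sp_append, cW]
        order
      · have := (b5 c hc).2
        simp only [List.length_append]
        omega)
    (fun p hp => by
      obtain ⟨c, hc, rfl⟩ := List.mem_map.1 hp
      exact sup_le_sup (le_TS (List.mem_toFinset.2 hc)) (le_PS (List.mem_toFinset.2 hc)))
    (by rw [b3, b4, ← sup_assoc, b1, b2]; omega)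
    (by
      have : ((I.map fun c => (c, ups x c ++ downs x c)).map
          fun p => (ups x p.1).length).sum = (I.flatMap (ups x)).length := by
        simp [List.length_flatMap, Function.comp_def]
      rw [this, sup_eq_right.2 hR]
      omega)
  exact ⟨d1, d2, by omega, d4⟩

/-- If the condition of Rado type holds, the configuration problem is solved. -/
theorem cp_ok {E : List Line} {R X : List Vec} {I : List Comp} (hI : I.Nodup)
    (hG : ∀ c ∈ I, Good n E c) (hR : sp n R ≤ sp n X) (hP : ∀ c ∈ I, sp n c.2.1 ≤ sp n X)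
    (h : ∀ Y ⊆ I.toFinset, 2 * dm (sp n X) + 2 * KS Y
      ≤ dm (sp n X ⊔ TS n Y) + dm (sp n R ⊔ PS n (I.toFinset \ Y))) :
    (∀ e ∈ cpF n R X I, e ∈ E) ∧
      sp n (flat (cpF n R X I)) ≤ TS n I.toFinset ⊔ PS n I.toFinset ∧
      (cpF n R X I).length + dm (sp n R) = KS I.toFinset + dm (sp n X) ∧
      dm (sp n R ⊔ sp n (flat (cpF n R X I))) = dm (sp n R) + 2 * (cpF n R X I).length := by
  obtain ⟨_, h1, h2, _⟩ := cp_min R X hI hG
  have := h _ h1
  exact cp_succ hI hG hR hP (by omega)

section PT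

open Pool.Agent.Shared.H56 Polynomial

variable {α : Type} [N487b59b3 α]

@[fun_prop] theorem pt_gT {I : α → List Comp} (hI : PT I) : PT fun a => gT (I a) := by
  unfold gT
  fun_prop

@[fun_prop] theorem pt_gP {I : α → List Comp} (hI : PT I) : PT fun a => gP (I a) := by
  unfold gP
  fun_prop

@[fun_prop] theorem pt_rho {n : α → ℕ} {R X : α → List Vec} {I : α → List Comp} {l : α → List El}
    (hn : PT fun a => un (n a)) (hR : PT R) (hX : PT X) (hI : PT I) (hl : PT l) :
    PT fun a => rho (n a) (R a) (X a) (I a) (l a) := by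
  unfold rho
  fun_prop

@[fun_prop] theorem pt_cpX {n : α → ℕ} {R X : α → List Vec} {I : α → List Comp}
    (hn : PT fun a => un (n a)) (hR : PT R) (hX : PT X) (hI : PT I) :
    PT fun a => cpX (n a) (R a) (X a) (I a) := by
  have hn' : PT fun p : α × List El => un (n p.1) := hn.comp (by fun_prop)
  exact pt_radoX (ρ := fun a => rho (n a) (R a) (X a) (I a)) (by fun_prop) hI (by fun_prop)

@[fun_prop] theorem pt_cpY {n : α → ℕ} {R X : α → List Vec} {I : α → List Comp}
    (hn : PT fun a => un (n a)) (hR : PT R) (hX : PT X) (hI : PT I) :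
    PT fun a => cpY (n a) (R a) (X a) (I a) := by
  have hn' : PT fun p : α × List El => un (n p.1) := hn.comp (by fun_prop)
  exact pt_radoY (ρ := fun a => rho (n a) (R a) (X a) (I a)) (by fun_prop) hI (by fun_prop)

@[fun_prop] theorem pt_ups {x : α → List El} {c : α → Comp} (hx : PT x) (hc : PT c) :
    PT fun a => ups (x a) (c a) := by
  unfold ups
  fun_prop

@[fun_prop] theorem pt_downs {x : α → List El} {c : α → Comp} (hx : PT x) (hc : PT c) :
    PT fun a => downs (x a) (c a) := by
  unfold downs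
  fun_prop

@[fun_prop] theorem pt_cpF {n : α → ℕ} {R X : α → List Vec} {I : α → List Comp}
    (hn : PT fun a => un (n a)) (hR : PT R) (hX : PT X) (hI : PT I) :
    PT fun a => cpF (n a) (R a) (X a) (I a) := by
  unfold cpF
  have h : PT fun p : α × Comp => cpX (n p.1) (R p.1) (X p.1) (I p.1) :=
    (pt_cpX hn hR hX hI).comp (by fun_prop)
  exact pt_round hn hR (PT.map (PT.prodMk (by fun_prop)
    (PT.append (pt_ups h (by fun_prop)) (pt_downs h (by fun_prop)))) hI)

theorem sz_cpF_le (n : ℕ) (R X : List Vec) (I : List Comp) : sz (cpF n R X I) ≤ sz I := by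
  refine (sz_round_le _ _ _).trans ?_
  generalize cpX n R X I = x
  induction I with
  | nil => simp
  | cons c I ih =>
    simp only [List.map_cons, List.sum_cons, sz_cons]
    omega

end PT

end Pool.Agent.MP_0c5eb8_lc.H36
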