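import Pool.Agent.MP_0c5eb8_lc.H36.Trim

/-!
Reduction of matroid matching in hypergraphic matroids to linear matroid parity.
-/

set_option autoImplicit false
set_option linter.unusedSectionVars false

namespace Pool.Agent.MP_0c5eb8_lc.H36

open Finset

variable {n : ℕ}

theorem nodup_of_indep {A : List Vec} (h : dm (sp n A) = A.length) : A.Nodup := by
  induction A with
  | nil => simp
  | cons a A ih =>
    have a1 := dm_sup_pt_le (sp n A) a
    have a2 := dm_sp_le (n := n) A
    rw [sp_cons, sup_comm, List.length_cons] at h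
    refine List.nodup_cons.2 ⟨fun hl => ?_, ih (by omega)⟩
    rw [sup_eq_left.2 (pt_le_sp hl)] at h
    omega

theorem indep_subperm {A B : List Vec} (h : dm (sp n A) = A.length) (hB : B.Nodup)
    (hBA : ∀ b ∈ B, b ∈ A) : dm (sp n B) = B.length := by
  obtain ⟨C, h1, h2⟩ := List.subperm_of_subset hB hBA
  have := indep_sublist (O := (⊥ : Sp n)) h2 (by simpa using h)
  rw [bot_sup_eq, dm_bot, zero_add, sp_congr fun a => h1.mem_iff, h1.length_eq] at this
  exact this

theorem pairs_disj {γ : Type} {M : List (γ × γ)} (h : (M.flatMap fun e => [e.1, e.2]).Nodup) :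
    M.Nodup ∧ (∀ e ∈ M, e.1 ≠ e.2) ∧
      ∀ e ∈ M, ∀ f ∈ M, e ≠ f → e.1 ≠ f.1 ∧ e.2 ≠ f.1 ∧ e.2 ≠ f.2 := by
  rw [List.nodup_flatMap] at h
  refine ⟨h.2.imp fun {a b} hab e => ?_, fun e he => by simpa using h.1 e he,
    fun e he f hf hne => ?_⟩
  · subst e
    exact hab (a := a.1) (by simp) (by simp)
  · have : Std.Symm (Function.onFun List.Disjoint fun e : γ × γ => [e.1, e.2]) :=
      ⟨fun _ _ h => List.disjoint_symm h⟩
    have := h.2.forall he hf hne
    exact ⟨fun e' => this (a := e.1) (by simp) (by simp [e']),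
      fun e' => this (a := e.2) (by simp) (by simp [e']),
      fun e' => this (a := e.2) (by simp) (by simp [e'])⟩

theorem ue_le_Kc {j i : ℕ} (hj : j < n) : pt n (ue n i) ≤ Kc n j ↔ j ≠ i := by
  rw [pt_le_Kc hj, getD_ue hj]
  simp

theorem ue_inj {j i : ℕ} (hj : j < n) (h : ue n j = ue n i) : j = i := by
  by_contra hne
  have := (ue_le_Kc (n := n) hj).2 hne
  rw [← h, ue_le_Kc hj] at this
  exact this rfl

/-- The data of the reduction. -/
structure Setup (m t : ℕ) (ix : ℕ → ℕ) (V : Finset ℕ) (e : ℕ → Finset ℕ) (π : List (ℕ × ℕ))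
    (Ls : List Line) : Prop where
  inj : Set.InjOn ix V
  lt : ∀ u ∈ V, ix u < m
  sub : ∀ i, e i ⊆ V
  perm : (π.flatMap fun p => [p.1, p.2]).Perm (List.range t)
  mem : ∀ l, l ∈ Ls ↔ (∃ i < t, ∃ u ∈ e i, ∃ v ∈ e i, l = (ev (m + t) ix u v, ue (m + t) (m + i))) ∨
    ∃ p ∈ π, l = (ue (m + t) (m + p.1), ue (m + t) (m + p.2))

namespace Setup

variable {m t : ℕ} {ix : ℕ → ℕ} {V : Finset ℕ} {e : ℕ → Finset ℕ} {π : List (ℕ × ℕ)}
  {Ls : List Line} (H : Setup m t ix V e π Ls)
include H

theorem nd : (π.flatMap fun p => [p.1, p.2]).Nodup := H.perm.nodup_iff.2 List.nodup_range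

theorem lt_iff {i : ℕ} : i < t ↔ ∃ p ∈ π, i = p.1 ∨ i = p.2 := by
  rw [← List.mem_range, ← H.perm.mem_iff]
  simp

theorem len : t = 2 * π.length := by
  have := H.perm.length_eq
  rw [List.length_range] at this
  rw [← this]
  clear * -
  induction π with
  | nil => rfl
  | cons p π ih => simp only [List.flatMap_cons, List.length_append, List.length_cons, ih]; simp; omega

theorem ev_le {i u v j : ℕ} (hu : u ∈ e i) (hv : v ∈ e i) (hj : j < t) :
    pt (m + t) (ev (m + t) ix u v) ≤ Kc (m + t) (m + j) := by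
  have := H.lt u (H.sub i hu)
  have := H.lt v (H.sub i hv)
  rw [ev_le_Kc (by omega)]
  omega

theorem upper {M : List Line} (hM : IsM (m + t) Ls M) : ∃ S ⊆ π.toFinset,
    M.length ≤ π.length + S.card ∧ ∀ X ⊆ S.biUnion fun p => {p.1, p.2}, X.Nonempty →
      X.card + 1 ≤ (X.biUnion e).card := by
  classical
  have hind : dm (sp (m + t) (flat M)) = (flat M).length := by rw [hM.2, length_flat]
  obtain ⟨d1, d2, d3⟩ := pairs_disj (M := M) (nodup_of_indep hind)
  obtain ⟨p1, _, _⟩ := pairs_disj H.nd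
  let U : Finset ℕ := (range t).filter fun i => ∃ u ∈ e i, ∃ v ∈ e i,
    (ev (m + t) ix u v, ue (m + t) (m + i)) ∈ M
  let D : Finset (ℕ × ℕ) := π.toFinset.filter fun p =>
    (ue (m + t) (m + p.1), ue (m + t) (m + p.2)) ∈ M
  refine ⟨π.toFinset.filter fun p => p.1 ∈ U ∧ p.2 ∈ U, filter_subset _ _, ?_, fun X hX hne => ?_⟩
  · have a1 : (M.toFinset.image Prod.snd).card = M.length := by
      rw [card_image_of_injOn, List.toFinset_card_of_nodup d1]
      intro a ha b hb h
      by_contra hne
      exact (d3 a (by simpa using ha) b (by simpa using hb) hne).2.2 h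
    have a2 : M.toFinset.image Prod.snd ⊆ U.image (fun i => ue (m + t) (m + i))
        ∪ D.image (fun p => ue (m + t) (m + p.2)) := by
      intro a ha
      obtain ⟨l, hl, rfl⟩ := mem_image.1 ha
      have hl := List.mem_toFinset.1 hl
      rcases (H.mem l).1 (hM.1 l hl) with ⟨i, hi, u, hu, v, hv, rfl⟩ | ⟨p, hp, rfl⟩
      · exact mem_union_left _ (mem_image.2
          ⟨i, mem_filter.2 ⟨mem_range.2 hi, u, hu, v, hv, hl⟩, rfl⟩)
      · exact mem_union_right _ (mem_image.2 ⟨p, mem_filter.2 ⟨List.mem_toFinset.2 hp, hl⟩, rfl⟩)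
    have a3 := (card_le_card a2).trans ((card_union_le _ _).trans
      (Nat.add_le_add card_image_le card_image_le))
    have a4 : U ⊆ π.toFinset.biUnion fun p => ({p.1, p.2} : Finset ℕ).filter (· ∈ U) := by
      intro i hi
      obtain ⟨p, hp, h⟩ := H.lt_iff.1 (mem_range.1 (mem_filter.1 hi).1)
      exact mem_biUnion.2 ⟨p, List.mem_toFinset.2 hp, mem_filter.2 ⟨by simpa using h, hi⟩⟩
    have a5 := (card_le_card a4).trans card_biUnion_le
    have a6 : ∀ p ∈ π.toFinset, (({p.1, p.2} : Finset ℕ).filter (· ∈ U)).card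
        + (if (ue (m + t) (m + p.1), ue (m + t) (m + p.2)) ∈ M then 1 else 0)
        ≤ 1 + (if p.1 ∈ U ∧ p.2 ∈ U then 1 else 0) := by
      intro p hp
      have hp := List.mem_toFinset.1 hp
      by_cases h1 : (ue (m + t) (m + p.1), ue (m + t) (m + p.2)) ∈ M
      · have b1 : p.1 ∉ U := fun h => by
          obtain ⟨_, u, _, v, _, h⟩ := mem_filter.1 h
          by_cases hne : (ev (m + t) ix u v, ue (m + t) (m + p.1))
              = (ue (m + t) (m + p.1), ue (m + t) (m + p.2))
          · exact d2 _ h1 (Prod.mk.inj hne).2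
          · exact (d3 _ h _ h1 hne).2.1 rfl
        have b2 : p.2 ∉ U := fun h => by
          obtain ⟨_, u, hu, v, hv, h⟩ := mem_filter.1 h
          by_cases hne : (ev (m + t) ix u v, ue (m + t) (m + p.2))
              = (ue (m + t) (m + p.1), ue (m + t) (m + p.2))
          · have c0 : p.1 < t := H.lt_iff.2 ⟨p, hp, Or.inl rfl⟩
            have c1 := H.ev_le hu hv c0
            rw [(Prod.mk.inj hne).1, ue_le_Kc (by omega)] at c1
            exact c1 rfl
          · exact (d3 _ h _ h1 hne).2.2 rfl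
        rw [filter_false_of_mem (by simp [b1, b2]), if_pos h1]
        simp
      · rw [if_neg h1]
        split_ifs with h2
        · have := card_filter_le ({p.1, p.2} : Finset ℕ) (· ∈ U)
          have := card_le_two (a := p.1) (b := p.2)
          omega
        · rw [filter_insert, filter_singleton]
          by_cases b1 : p.1 ∈ U <;> by_cases b2 : p.2 ∈ U <;> simp_all
    have a7 := sum_le_sum a6
    rw [sum_add_distrib, sum_add_distrib, ← card_filter, ← card_filter, ← card_eq_sum_ones,
      List.toFinset_card_of_nodup p1] at a7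
    change _ + D.card ≤ _ at a7
    omega
  · have hXU : ∀ i ∈ X, i ∈ U := fun i hi => by
      obtain ⟨p, hp, h⟩ := mem_biUnion.1 (hX hi)
      obtain ⟨_, h1, h2⟩ := mem_filter.1 hp
      rcases mem_insert.1 h with rfl | h
      · exact h1
      · rwa [mem_singleton.1 h]
    have : ∀ i, ∃ p : ℕ × ℕ, i ∈ U → p.1 ∈ e i ∧ p.2 ∈ e i ∧
        (ev (m + t) ix p.1 p.2, ue (m + t) (m + i)) ∈ M := fun i => by
      by_cases hi : i ∈ U
      · obtain ⟨_, u, hu, v, hv, h⟩ := mem_filter.1 hi
        exact ⟨(u, v), fun _ => ⟨hu, hv, h⟩⟩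
      · exact ⟨(0, 0), fun h => absurd h hi⟩
    choose g hg using this
    have a1 := indep_subperm hind (B := X.toList.map fun i => ev (m + t) ix (g i).1 (g i).2)
      (by
        refine (nodup_toList X).map_on fun i hi j hj h => ?_
        have hi := hXU i (mem_toList.1 hi)
        have hj := hXU j (mem_toList.1 hj)
        by_contra hne
        refine (d3 _ (hg i hi).2.2 _ (hg j hj).2.2 fun h' => hne ?_).1 h
        have c0 := mem_range.1 (mem_filter.1 hi).1
        have := ue_inj (by omega) (Prod.mk.inj h').2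
        omega)
      (fun b hb => by
        obtain ⟨i, hi, rfl⟩ := List.mem_map.1 hb
        exact List.mem_flatMap.2 ⟨_, (hg i (hXU i (mem_toList.1 hi))).2.2, by simp⟩)
    have a2 : sp (m + t) (X.toList.map fun i => ev (m + t) ix (g i).1 (g i).2)
        ≤ AX (m + t) ix e X := sp_le.2 fun b hb => by
      obtain ⟨i, hi, rfl⟩ := List.mem_map.1 hb
      have hi := mem_toList.1 hi
      exact le_AX hi (hg i (hXU i hi)).1 (hg i (hXU i hi)).2.1
    have a3 := dm_mono a2
    obtain ⟨i, hi⟩ := hne
    have a4 := dm_AX_le (n := m + t) (ix := ix) (e := e) (X := X)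
      ⟨(g i).1, mem_biUnion.2 ⟨i, hi, (hg i (hXU i hi)).1⟩⟩
    rw [List.length_map, length_toList] at a1
    omega

theorem lower {S : Finset (ℕ × ℕ)} (hS : S ⊆ π.toFinset)
    (h : ∀ X ⊆ S.biUnion fun p => {p.1, p.2}, X.Nonempty → X.card + 1 ≤ (X.biUnion e).card) :
    ∃ M, IsM (m + t) Ls M ∧ M.length = π.length + S.card := by
  obtain ⟨p1, p2, p3⟩ := pairs_disj H.nd
  obtain ⟨x, x1, x2, x3, x4⟩ := trim (n := m + t) H.inj (fun u hu => by
    have := H.lt u hu
    omega) H.sub _ h
  have a1 : (S.biUnion fun p => ({p.1, p.2} : Finset ℕ)).card = 2 * S.card := by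
    rw [card_biUnion, mul_comm, ← smul_eq_mul, ← sum_const]
    · exact sum_congr rfl fun p hp => card_pair (p2 p (List.mem_toFinset.1 (hS hp)))
    · intro p hp q hq hne
      have hp := List.mem_toFinset.1 (hS hp)
      have hq := List.mem_toFinset.1 (hS hq)
      have b1 := p3 p hp q hq hne
      have b2 := p3 q hq p hp hne.symm
      simp only [Function.onFun, disjoint_insert_left, disjoint_singleton_left, mem_insert,
        mem_singleton, not_or]
      exact ⟨⟨b1.1, b2.2.1.symm⟩, b1.2.1, b1.2.2⟩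
  have a2 := card_sdiff_add_card_eq_card hS
  rw [List.toFinset_card_of_nodup p1] at a2
  have hx : ∀ y ∈ x, ∃ p ∈ S, y.1 = p.1 ∨ y.1 = p.2 := fun y hy => by
    have : y.1 ∈ (x.map Prod.fst).toFinset := List.mem_toFinset.2 (List.mem_map.2 ⟨y, hy, rfl⟩)
    rw [x1] at this
    simpa using this
  let M : List Line := (x.map fun y => (ev (m + t) ix y.2.1 y.2.2, ue (m + t) (m + y.1))) ++
    (π.toFinset \ S).toList.map fun p => (ue (m + t) (m + p.1), ue (m + t) (m + p.2))
  have hlen : M.length = π.length + S.card := by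
    simp only [M, List.length_append, List.length_map, length_toList]
    omega
  refine ⟨M, ⟨fun l hl => (H.mem l).2 ?_, ?_⟩, hlen⟩
  · rcases List.mem_append.1 hl with hl | hl
    · obtain ⟨y, hy, rfl⟩ := List.mem_map.1 hl
      obtain ⟨p, hp, hp'⟩ := hx y hy
      exact Or.inl ⟨y.1, H.lt_iff.2 ⟨p, List.mem_toFinset.1 (hS hp), hp'⟩, _, (x3 y hy).1, _,
        (x3 y hy).2, rfl⟩
    · obtain ⟨p, hp, rfl⟩ := List.mem_map.1 hl
      exact Or.inr ⟨p, List.mem_toFinset.1 (mem_sdiff.1 (mem_toList.1 hp)).1, rfl⟩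
  · have b1 := tri (range t) (fun i => m + i) (fun i => ue (m + t) (m + i))
      (sp (m + t) (x.map fun y => ev (m + t) ix y.2.1 y.2.2))
      (fun i hi => sp_le.2 fun a ha => by
        obtain ⟨y, hy, rfl⟩ := List.mem_map.1 ha
        exact H.ev_le (x3 y hy).1 (x3 y hy).2 (mem_range.1 hi))
      (fun i hi => by
        have := mem_range.1 hi
        rw [ue_le_Kc (by omega)]
        simp)
      (fun i hi j _ hne => by
        have := mem_range.1 hi
        rw [ue_le_Kc (by omega)]
        omega)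
    have b2 : (sp (m + t) (x.map fun y => ev (m + t) ix y.2.1 y.2.2)
        ⊔ (range t).sup fun i => pt (m + t) (ue (m + t) (m + i))) ≤ sp (m + t) (flat M) := by
      refine sup_le (sp_le.2 fun a ha => ?_) (Finset.sup_le fun i hi => ?_)
      · obtain ⟨y, hy, rfl⟩ := List.mem_map.1 ha
        have := ln_le_flat (n := m + t) (M := M)
          (e := (ev (m + t) ix y.2.1 y.2.2, ue (m + t) (m + y.1)))
          (List.mem_append_left _ (List.mem_map.2 ⟨y, hy, rfl⟩))
        exact (_root_.sup_le_iff.1 this).1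
      · obtain ⟨p, hp, hp'⟩ := H.lt_iff.1 (mem_range.1 hi)
        by_cases hpS : p ∈ S
        · have : i ∈ (x.map Prod.fst).toFinset := by
            rw [x1]
            exact mem_biUnion.2 ⟨p, hpS, by simpa using hp'⟩
          obtain ⟨y, hy, rfl⟩ := List.mem_map.1 (List.mem_toFinset.1 this)
          have := ln_le_flat (n := m + t) (M := M)
            (e := (ev (m + t) ix y.2.1 y.2.2, ue (m + t) (m + y.1)))
            (List.mem_append_left _ (List.mem_map.2 ⟨y, hy, rfl⟩))
          exact (_root_.sup_le_iff.1 this).2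
        · have := ln_le_flat (n := m + t) (M := M)
            (e := (ue (m + t) (m + p.1), ue (m + t) (m + p.2)))
            (List.mem_append_right _ (List.mem_map.2
              ⟨p, mem_toList.2 (mem_sdiff.2 ⟨List.mem_toFinset.2 hp, hpS⟩), rfl⟩))
          rcases hp' with rfl | rfl
          · exact (_root_.sup_le_iff.1 this).1
          · exact (_root_.sup_le_iff.1 this).2
    have b3 := dm_mono b2
    have b4 := dm_sp_le (n := m + t) (flat M)
    have b5 := H.len
    rw [length_flat] at b4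
    rw [card_range] at b1
    omega

theorem greatest : IsGreatest {k | ∃ S ⊆ π.toFinset, S.card = k ∧
    ∀ X ⊆ S.biUnion fun p => {p.1, p.2}, X.Nonempty → X.card + 1 ≤ (X.biUnion e).card}
    (nu (m + t) Ls - π.length) := by
  obtain ⟨⟨M, h1, h2⟩, h3⟩ := nu_spec (n := m + t) Ls
  constructor
  · obtain ⟨S, a1, a2, a3⟩ := H.upper h1
    obtain ⟨M', b1, b2⟩ := H.lower a1 a3
    have := h3 ⟨M', b1, rfl⟩
    exact ⟨S, a1, by omega, a3⟩
  · rintro k ⟨S, a1, rfl, a3⟩
    obtain ⟨M', b1, b2⟩ := H.lower a1 a3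
    have := h3 ⟨M', b1, rfl⟩
    omega

end Setup

/-- The lines of the parity instance. -/
def lines (V : List ℕ) (E : List (List ℕ)) (π : List (ℕ × ℕ)) : List Line :=
  ((List.range E.length).flatMap fun i => (E.getD i [] ×ˢ E.getD i []).map fun p =>
    (vadd (V.length + E.length) (ue (V.length + E.length) (V.idxOf p.1))
      (ue (V.length + E.length) (V.idxOf p.2)), ue (V.length + E.length) (V.length + i))) ++
  π.map fun p => (ue (V.length + E.length) (V.length + p.1), ue (V.length + E.length) (V.length + p.2))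

/-- The algorithm. -/
def answer (a : Finset ℕ × List (Finset ℕ) × List (ℕ × ℕ)) : ℕ :=
  nu ((a.1.sort (· ≤ ·)).length + (a.2.1.map fun e => e.sort (· ≤ ·)).length)
    (lines (a.1.sort (· ≤ ·)) (a.2.1.map fun e => e.sort (· ≤ ·)) a.2.2) - a.2.2.length

theorem setup {V : Finset ℕ} {E : List (Finset ℕ)} {π : List (ℕ × ℕ)} (h1 : ∀ e ∈ E, e ⊆ V)
    (h2 : (π.flatMap fun p => [p.1, p.2]).Perm (List.range E.length)) :
    Setup (V.sort (· ≤ ·)).length (E.map fun e => e.sort (· ≤ ·)).length
      (fun u => (V.sort (· ≤ ·)).idxOf u) V (fun i => E.getD i ∅) π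
      (lines (V.sort (· ≤ ·)) (E.map fun e => e.sort (· ≤ ·)) π) := by
  have key : ∀ i u, u ∈ (E.map fun e => e.sort (· ≤ ·)).getD i [] ↔ u ∈ E.getD i ∅ := by
    intro i u
    simp only [List.getD_eq_getElem?_getD, List.getElem?_map]
    cases E[i]? <;> simp
  refine ⟨fun u hu v _ h => (List.idxOf_inj ((mem_sort _).2 hu)).1 h,
    fun u hu => List.idxOf_lt_length_of_mem ((mem_sort _).2 hu), fun i => ?_,
    by rwa [List.length_map], fun l => ?_⟩
  · rw [List.getD_eq_getElem?_getD]
    cases h : E[i]? with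
    | none => simp
    | some e => exact h1 e (List.mem_of_getElem? h)
  · simp only [lines, List.mem_append, List.mem_flatMap, List.mem_range, List.mem_map, ev]
    refine or_congr (exists_congr fun i => and_congr_right fun _ => ?_)
      (exists_congr fun p => and_congr_right fun _ => eq_comm)
    constructor
    · rintro ⟨⟨u, v⟩, hp, rfl⟩
      rw [List.mem_product, key, key] at hp
      exact ⟨u, hp.1, v, hp.2, rfl⟩
    · rintro ⟨u, hu, v, hv, rfl⟩
      exact ⟨(u, v), by rw [List.mem_product, key, key]; exact ⟨hu, hv⟩, rfl⟩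

section PT

open Pool.Agent.Shared.H56

variable {α : Type} [N487b59b3 α]

@[fun_prop] theorem pt_ue {n j : α → ℕ} (hn : PT fun a => un (n a)) (hj : PT j) :
    PT fun a => ue (n a) (j a) := by
  unfold ue
  fun_prop

@[fun_prop] theorem pt_sort {s : α → Finset ℕ} (hs : PT s) : PT fun a => (s a).sort (· ≤ ·) :=
  hs.congr' fun _ => rfl

@[fun_prop] theorem pt_lines {V : α → List ℕ} {E : α → List (List ℕ)} {π : α → List (ℕ × ℕ)}
    (hV : PT V) (hE : PT E) (hπ : PT π) : PT fun a => lines (V a) (E a) (π a) := by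
  unfold lines
  fun_prop

theorem pt_answer : PT answer := by
  unfold answer
  fun_prop

end PT

end Pool.Agent.MP_0c5eb8_lc.H36
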