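import Pool.Agent.Shared.H56.More

/-!
Linear algebra over the field with two elements on lists of bits: rank, membership, extension of a
basis and intersection, with their specifications.
-/

set_option autoImplicit false

namespace Pool.Agent.MP_0c5eb8_lc.H36

open Module

abbrev Vec := List Bool
abbrev Line := Vec × Vec
abbrev Sp (n : ℕ) := Submodule (ZMod 2) (Fin n → ZMod 2)

/-- The first `n` coordinates of a list of bits. -/
def toV (n : ℕ) (a : Vec) : Fin n → ZMod 2 := fun i => if a.getD i false then 1 else 0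

/-- The span of a list of bit vectors. -/
def sp (n : ℕ) (A : List Vec) : Sp n := Submodule.span (ZMod 2) (toV n '' {a | a ∈ A})

/-- The dimension. -/
noncomputable def dm {n : ℕ} (A : Sp n) : ℕ := finrank (ZMod 2) A

/-- The span of one vector. -/
def pt (n : ℕ) (a : Vec) : Sp n := Submodule.span (ZMod 2) {toV n a}

variable {n : ℕ}

/-! ### Dimension counting -/

theorem dm_mono {A B : Sp n} (h : A ≤ B) : dm A ≤ dm B := Submodule.finrank_mono h

theorem dm_modular (A B : Sp n) : dm (A ⊔ B) + dm (A ⊓ B) = dm A + dm B :=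
  Submodule.finrank_sup_add_finrank_inf_eq A B

theorem dm_le (A : Sp n) : dm A ≤ n := by
  have := Submodule.finrank_le A
  simpa [dm] using this

@[simp] theorem dm_bot : dm (⊥ : Sp n) = 0 := finrank_bot _ _

theorem eq_of_dm {A B : Sp n} (h : A ≤ B) (h' : dm B ≤ dm A) : A = B :=
  Submodule.eq_of_le_of_finrank_le h h'

theorem dm_lt {A B : Sp n} (h : A ≤ B) (h' : ¬ B ≤ A) : dm A + 1 ≤ dm B :=
  Submodule.finrank_lt_finrank_of_lt (lt_of_le_not_ge h h')

theorem le_of_dm {A B : Sp n} (h : dm (A ⊔ B) ≤ dm A) : B ≤ A := by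
  have := eq_of_dm (le_sup_left : A ≤ A ⊔ B) h
  order

theorem dm_sup_lt {A B : Sp n} (h : ¬ B ≤ A) : dm A + 1 ≤ dm (A ⊔ B) :=
  dm_lt le_sup_left (fun h' => h (by order))

/-- Relative rank decreases when the base grows. -/
theorem relsub {O O' : Sp n} (h : O ≤ O') (A : Sp n) :
    dm (O' ⊔ A) + dm O ≤ dm (O ⊔ A) + dm O' := by
  have h1 := dm_modular (O ⊔ A) O'
  have h2 : dm O ≤ dm ((O ⊔ A) ⊓ O') := dm_mono (by order)
  have h3 : O ⊔ A ⊔ O' = O' ⊔ A := by order
  rw [h3] at h1
  omega

theorem dm_sup_le (A B : Sp n) : dm (A ⊔ B) ≤ dm A + dm B := by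
  have := dm_modular A B
  omega

theorem dm_pt_le (a : Vec) : dm (pt n a) ≤ 1 := by
  unfold dm pt
  by_cases h : toV n a = 0
  · rw [h, Submodule.span_zero_singleton]; simp
  · rw [finrank_span_singleton h]

theorem pt_le {a : Vec} {O : Sp n} : pt n a ≤ O ↔ toV n a ∈ O :=
  Submodule.span_singleton_le_iff_mem _ _

theorem dm_sup_pt_le (O : Sp n) (a : Vec) : dm (O ⊔ pt n a) ≤ dm O + 1 := by
  have := dm_sup_le O (pt n a)
  have := dm_pt_le (n := n) a
  omega

theorem dm_sup_pt {O : Sp n} {a : Vec} (h : ¬ pt n a ≤ O) : dm (O ⊔ pt n a) = dm O + 1 :=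
  le_antisymm (dm_sup_pt_le O a) (dm_sup_lt h)

/-! ### Spans of lists -/

@[simp] theorem sp_nil : sp n [] = ⊥ := by simp [sp]

@[simp] theorem sp_cons (a : Vec) (A : List Vec) : sp n (a :: A) = pt n a ⊔ sp n A := by
  unfold sp pt
  rw [← Submodule.span_union]
  congr 1
  ext v
  simp [eq_comm]

@[simp] theorem sp_append (A B : List Vec) : sp n (A ++ B) = sp n A ⊔ sp n B := by
  induction A with
  | nil => simp
  | cons a A ih => simp [ih, sup_assoc]

theorem pt_le_sp {a : Vec} {A : List Vec} (h : a ∈ A) : pt n a ≤ sp n A :=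
  pt_le.2 (Submodule.subset_span ⟨a, h, rfl⟩)

theorem sp_le {A : List Vec} {O : Sp n} : sp n A ≤ O ↔ ∀ a ∈ A, pt n a ≤ O := by
  induction A with
  | nil => simp
  | cons a A ih => simp [ih]

theorem sp_mono {A B : List Vec} (h : ∀ a ∈ A, a ∈ B) : sp n A ≤ sp n B :=
  sp_le.2 fun a ha => pt_le_sp (h a ha)

theorem sp_congr {A B : List Vec} (h : ∀ a, a ∈ A ↔ a ∈ B) : sp n A = sp n B :=
  le_antisymm (sp_mono fun a ha => (h a).1 ha) (sp_mono fun a ha => (h a).2 ha)

theorem exists_not_le {A : List Vec} {O : Sp n} (h : ¬ sp n A ≤ O) : ∃ a ∈ A, ¬ pt n a ≤ O := by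
  by_contra h'
  push Not at h'
  exact h (sp_le.2 h')

theorem dm_sup_sp_le (O : Sp n) (A : List Vec) : dm (O ⊔ sp n A) ≤ dm O + A.length := by
  induction A with
  | nil => simp
  | cons a A ih =>
    have := dm_sup_pt_le (O ⊔ sp n A) a
    have e : O ⊔ sp n (a :: A) = O ⊔ sp n A ⊔ pt n a := by rw [sp_cons]; order
    rw [e, List.length_cons]
    omega

theorem dm_sp_le (A : List Vec) : dm (sp n A) ≤ A.length := by
  simpa using dm_sup_sp_le ⊥ A

theorem sp_flatMap_le {α : Type} {f : α → List Vec} {l : List α} {O : Sp n} :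
    sp n (l.flatMap f) ≤ O ↔ ∀ x ∈ l, sp n (f x) ≤ O := by
  induction l with
  | nil => simp
  | cons a A ih => simp [ih]

theorem le_sp_flatMap {α : Type} (f : α → List Vec) {l : List α} {x : α} (h : x ∈ l) :
    sp n (f x) ≤ sp n (l.flatMap f) := sp_flatMap_le.1 le_rfl x h

/-! ### Addition and cutting with a hyperplane -/

/-- Sum of two vectors. -/
def vadd (n : ℕ) (a b : Vec) : Vec :=
  (List.range n).map fun i => xor (a.getD i false) (b.getD i false)

theorem toV_vadd (a b : Vec) : toV n (vadd n a b) = toV n a + toV n b := by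
  funext i
  have : (vadd n a b).getD i false = xor (a.getD i false) (b.getD i false) := by
    simp [vadd, List.getD_eq_getElem?_getD]
  simp only [toV, this, Pi.add_apply]
  cases a.getD i false <;> cases b.getD i false <;> simp
  rfl

@[simp] theorem length_vadd (a b : Vec) : (vadd n a b).length = n := by simp [vadd]

/-- Intersection of the span of `A` with a hyperplane given by a membership test. -/
def cut (n : ℕ) (t : Vec → Bool) (A : List Vec) : List Vec :=
  A.map fun a => if t a then a else vadd n a ((A.filter fun b => !t b).headD [])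

theorem headD_filter {α : Type} {p : α → Bool} {l : List α} (d : α) (h : ∃ x ∈ l, p x = true) :
    (l.filter p).headD d ∈ l ∧ p ((l.filter p).headD d) = true := by
  obtain ⟨x, hx, hp⟩ := h
  have : x ∈ l.filter p := List.mem_filter.2 ⟨hx, hp⟩
  cases hl : l.filter p with
  | nil => simp [hl] at this
  | cons y ys =>
    have : y ∈ l.filter p := by simp [hl]
    simpa using List.mem_filter.1 this

theorem headD_filter_none {α : Type} {p : α → Bool} {l : List α} (d : α)
    (h : ¬ ∃ x ∈ l, p x = true) : (l.filter p).headD d = d := by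
  have : l.filter p = [] := by
    rw [List.filter_eq_nil_iff]
    intro a ha hp
    exact h ⟨a, ha, hp⟩
  simp [this]

theorem add_self_V (v : Fin n → ZMod 2) : v + v = 0 := by
  funext i
  simp only [Pi.add_apply, Pi.zero_apply]
  generalize v i = x
  revert x
  decide

theorem cut_spec {t : Vec → Bool} {H : Sp n} {A : List Vec} (ht : ∀ a, t a = true ↔ pt n a ≤ H)
    (hc : ∀ a ∈ A, ∀ b ∈ A, toV n a ∉ H → toV n b ∉ H → toV n a + toV n b ∈ H) :
    sp n (cut n t A) = sp n A ⊓ H ∧ dm (sp n A) ≤ dm (sp n (cut n t A)) + 1 := by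
  by_cases hall : ∃ x ∈ A, (!t x) = true
  · obtain ⟨h0, h1⟩ := headD_filter [] hall
    set a0 := (A.filter fun b => !t b).headD [] with ha0
    have h2 : toV n a0 ∉ H := fun h => by
      have := (ht a0).2 (pt_le.2 h)
      simp [this] at h1
    have k1 : sp n (cut n t A) ≤ sp n A ⊓ H := by
      refine sp_le.2 fun b hb => ?_
      obtain ⟨a, ha, rfl⟩ := List.mem_map.1 hb
      split_ifs with h
      · exact le_inf (pt_le_sp ha) ((ht a).1 h)
      · rw [pt_le, toV_vadd]
        refine ⟨add_mem (pt_le.1 (pt_le_sp ha)) (pt_le.1 (pt_le_sp h0)), hc a ha a0 h0 ?_ h2⟩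
        exact fun h' => h ((ht a).2 (pt_le.2 h'))
    have k2 : sp n A ≤ sp n (cut n t A) ⊔ pt n a0 := by
      refine sp_le.2 fun a ha => ?_
      have hb : (if t a then a else vadd n a a0) ∈ cut n t A := List.mem_map.2 ⟨a, ha, rfl⟩
      have hb' := pt_le_sp (n := n) hb
      split_ifs at hb' with h
      · order
      · rw [pt_le, toV_vadd] at hb'
        rw [pt_le]
        have : toV n a = (toV n a + toV n a0) + toV n a0 := by
          rw [add_assoc, add_self_V, add_zero]
        rw [this]
        exact Submodule.add_mem_sup hb' (pt_le.1 le_rfl)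
    have k3 := dm_mono k2
    have k4 := dm_sup_pt_le (sp n (cut n t A)) a0
    refine ⟨eq_of_dm k1 ?_, by omega⟩
    have k5 : dm (sp n A ⊓ H) + 1 ≤ dm (sp n A) := by
      refine dm_lt inf_le_left fun h => h2 ?_
      have := pt_le_sp (n := n) h0
      exact pt_le.1 (by order)
    omega
  · have e : cut n t A = A := by
      unfold cut
      conv_rhs => rw [← List.map_id A]
      refine List.map_congr_left fun a ha => ?_
      have : t a = true := by
        by_contra h
        exact hall ⟨a, ha, by simpa using h⟩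
      simp [this]
    rw [e]
    refine ⟨?_, by omega⟩
    have : sp n A ≤ H := sp_le.2 fun a ha => (ht a).1 (by
      by_contra h
      exact hall ⟨a, ha, by simpa using h⟩)
    order

theorem codim_one {H K : Sp n} (h : dm (H ⊔ K) ≤ dm H + 1) {v w : Fin n → ZMod 2} (hv : v ∈ K)
    (hw : w ∈ K) (hv' : v ∉ H) (hw' : w ∉ H) : v + w ∈ H := by
  have h1 : H ⊔ Submodule.span (ZMod 2) {w} = H ⊔ K := by
    refine eq_of_dm (sup_le_sup_left ((Submodule.span_singleton_le_iff_mem _ _).2 hw) _) ?_
    have : dm H + 1 ≤ dm (H ⊔ Submodule.span (ZMod 2) {w}) :=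
      dm_sup_lt fun h => hw' ((Submodule.span_singleton_le_iff_mem _ _).1 h)
    omega
  have h2 : v ∈ H ⊔ Submodule.span (ZMod 2) {w} := h1 ▸ Submodule.mem_sup_right hv
  obtain ⟨x, hx, y, hy, rfl⟩ := Submodule.mem_sup.1 h2
  obtain ⟨c, rfl⟩ := Submodule.mem_span_singleton.1 hy
  have hc : c = 0 ∨ c = 1 := (by decide : ∀ c : ZMod 2, c = 0 ∨ c = 1) c
  rcases hc with rfl | rfl
  · simp at hv'
    exact absurd hx hv'
  · rw [one_smul, add_assoc, add_self_V, add_zero]
    exact hx

theorem cut_codim {t : Vec → Bool} {H : Sp n} {A : List Vec} (ht : ∀ a, t a = true ↔ pt n a ≤ H)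
    (h : dm (H ⊔ sp n A) ≤ dm H + 1) : sp n (cut n t A) = sp n A ⊓ H :=
  (cut_spec ht fun _ ha _ hb h1 h2 =>
    codim_one h (pt_le.1 (pt_le_sp ha)) (pt_le.1 (pt_le_sp hb)) h1 h2).1

@[simp] theorem length_cut (t : Vec → Bool) (A : List Vec) : (cut n t A).length = A.length := by
  simp [cut]

/-! ### Rank -/

/-- One column of Gaussian elimination. -/
def rkStep (n : ℕ) (s : ℕ × List Vec) (i : ℕ) : ℕ × List Vec :=
  (if s.2.all (fun a => !a.getD i false) then s.1 else s.1 + 1,
    cut n (fun a => !a.getD i false) s.2)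

/-- The rank of a list of vectors. -/
def rk (n : ℕ) (A : List Vec) : ℕ := ((List.range n).foldl (rkStep n) (0, A)).1

theorem rk_inv (A : List Vec) (k : ℕ) (hk : k ≤ n) :
    ((List.range k).foldl (rkStep n) (0, A)).1
      + dm (sp n ((List.range k).foldl (rkStep n) (0, A)).2) = dm (sp n A) ∧
    ∀ v ∈ sp n ((List.range k).foldl (rkStep n) (0, A)).2, ∀ i : Fin n, i.val < k → v i = 0 := by
  induction k with
  | zero => simp
  | succ k ih =>
    obtain ⟨ih1, ih2⟩ := ih (by omega)
    rw [List.range_succ, List.foldl_append]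
    set s := (List.range k).foldl (rkStep n) (0, A) with hs
    simp only [List.foldl_cons, List.foldl_nil]
    let H : Sp n := LinearMap.ker (LinearMap.proj (⟨k, by omega⟩ : Fin n))
    have ht : ∀ a : Vec, (!a.getD k false) = true ↔ pt n a ≤ H := by
      intro a
      rw [pt_le]
      simp only [H, LinearMap.mem_ker, LinearMap.proj_apply, toV]
      cases a.getD k false <;> simp
    have hc : ∀ a ∈ s.2, ∀ b ∈ s.2, toV n a ∉ H → toV n b ∉ H → toV n a + toV n b ∈ H := by
      intro a _ b _
      simp only [H, LinearMap.mem_ker, LinearMap.proj_apply, Pi.add_apply]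
      generalize toV n a _ = x
      generalize toV n b _ = y
      revert x y
      decide
    obtain ⟨k1, k2⟩ := cut_spec ht hc
    constructor
    · simp only [rkStep]
      split_ifs with h
      · have : sp n s.2 ≤ H := sp_le.2 fun a ha => (ht a).1 (List.all_eq_true.1 h a ha)
        have e : sp n s.2 ⊓ H = sp n s.2 := by order
        rw [k1, e]
        exact ih1
      · have : ¬ sp n s.2 ≤ H := fun h' =>
          h (List.all_eq_true.2 fun a ha => (ht a).2 (sp_le.1 h' a ha))
        have k3 : dm (sp n s.2 ⊓ H) + 1 ≤ dm (sp n s.2) :=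
          dm_lt inf_le_left fun h => this (by order)
        rw [← k1] at k3
        omega
    · intro v hv i hi
      simp only [rkStep] at hv
      rw [k1] at hv
      rcases Nat.lt_succ_iff_lt_or_eq.1 hi with h | h
      · exact ih2 v hv.1 i h
      · have := hv.2
        simp only [H, SetLike.mem_coe, LinearMap.mem_ker, LinearMap.proj_apply] at this
        have e : i = ⟨k, by omega⟩ := Fin.ext h
        rw [e]
        exact this

theorem rk_eq (A : List Vec) : rk n A = dm (sp n A) := by
  obtain ⟨h1, h2⟩ := rk_inv (n := n) A n le_rfl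
  have : sp n ((List.range n).foldl (rkStep n) (0, A)).2 = ⊥ := by
    rw [eq_bot_iff]
    intro v hv
    rw [Submodule.mem_bot]
    funext i
    exact h2 v hv i i.2
  rw [this, dm_bot] at h1
  exact h1

/-- Membership in the span. -/
def inS (n : ℕ) (A : List Vec) (v : Vec) : Bool := decide (rk n (v :: A) ≤ rk n A)

theorem inS_iff {A : List Vec} {v : Vec} : inS n A v = true ↔ pt n v ≤ sp n A := by
  simp only [inS, decide_eq_true_eq, rk_eq, sp_cons]
  constructor
  · intro h
    exact le_of_dm (by rwa [sup_comm])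
  · intro h
    exact dm_mono (by order)

/-! ### Extension and intersection -/

/-- A sublist of `A` that is a basis of the span of `A` modulo `Z`. -/
def ext (n : ℕ) (Z A : List Vec) : List Vec :=
  A.foldl (fun T a => if inS n (T ++ Z) a then T else a :: T) []

theorem ext_aux (Z A T : List Vec) (hT : dm (sp n Z ⊔ sp n T) = dm (sp n Z) + T.length) :
    let T' := A.foldl (fun T a => if inS n (T ++ Z) a then T else a :: T) T
    dm (sp n Z ⊔ sp n T') = dm (sp n Z) + T'.length ∧ (∀ a ∈ T', a ∈ T ∨ a ∈ A) ∧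
      sp n Z ⊔ sp n T ⊔ sp n A ≤ sp n Z ⊔ sp n T' := by
  induction A generalizing T with
  | nil => exact ⟨hT, fun a ha => Or.inl ha, by simp⟩
  | cons a A ih =>
    simp only [List.foldl_cons]
    split_ifs with h
    · obtain ⟨i1, i2, i3⟩ := ih T hT
      refine ⟨i1, fun b hb => (i2 b hb).imp id (List.mem_cons_of_mem _), ?_⟩
      have := inS_iff.1 h
      rw [sp_append] at this
      rw [sp_cons]
      order
    · have h' : ¬ pt n a ≤ sp n Z ⊔ sp n T := fun h' => h (inS_iff.2 (by rw [sp_append]; order))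
      have e : sp n Z ⊔ sp n (a :: T) = sp n Z ⊔ sp n T ⊔ pt n a := by rw [sp_cons]; order
      obtain ⟨i1, i2, i3⟩ := ih (a :: T) (by rw [e, dm_sup_pt h', hT, List.length_cons]; omega)
      refine ⟨i1, fun b hb => ?_, ?_⟩
      · rcases i2 b hb with h1 | h1
        · rcases List.mem_cons.1 h1 with rfl | h1
          · simp
          · exact Or.inl h1
        · exact Or.inr (List.mem_cons_of_mem _ h1)
      · rw [sp_cons] at i3 ⊢
        order

theorem dm_ext (Z A : List Vec) :
    dm (sp n Z ⊔ sp n (ext n Z A)) = dm (sp n Z) + (ext n Z A).length :=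
  (ext_aux Z A [] (by simp)).1

theorem mem_of_mem_ext {Z A : List Vec} {a : Vec} (h : a ∈ ext n Z A) : a ∈ A := by
  simpa using (ext_aux Z A [] (by simp)).2.1 a h

theorem sp_ext_le (Z A : List Vec) : sp n (ext n Z A) ≤ sp n A :=
  sp_mono fun _ => mem_of_mem_ext

theorem sup_ext (Z A : List Vec) : sp n Z ⊔ sp n (ext n Z A) = sp n Z ⊔ sp n A := by
  have h1 := (ext_aux (n := n) Z A [] (by simp)).2.2
  have h2 := sp_ext_le (n := n) Z A
  simp only [sp_nil] at h1
  change _ ≤ sp n Z ⊔ sp n (ext n Z A) at h1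
  order

theorem length_ext_le (Z A : List Vec) : (ext n Z A).length ≤ n := by
  have := dm_ext (n := n) Z A
  have := dm_le (sp n Z ⊔ sp n (ext n Z A))
  omega

theorem sp_ext_nil (A : List Vec) : sp n (ext n [] A) = sp n A := by
  simpa using sup_ext (n := n) [] A

/-- A spanning list of the intersection of two spans. -/
def inter (n : ℕ) (A Z : List Vec) : List Vec :=
  (List.range A.length).foldl (fun S i => cut n (inS n (Z ++ A.drop (i + 1))) S) A

theorem inter_inv (A Z : List Vec) (k : ℕ) (hk : k ≤ A.length) :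
    sp n ((List.range k).foldl (fun S i => cut n (inS n (Z ++ A.drop (i + 1))) S) A)
      = sp n A ⊓ (sp n Z ⊔ sp n (A.drop k)) := by
  induction k with
  | zero => simp
  | succ k ih =>
    rw [List.range_succ, List.foldl_append]
    simp only [List.foldl_cons, List.foldl_nil]
    have e : A.drop k = A[k] :: A.drop (k + 1) := List.drop_eq_getElem_cons (by omega)
    have ih' := ih (by omega)
    rw [e, sp_cons] at ih'
    rw [cut_codim (H := sp n Z ⊔ sp n (A.drop (k + 1))) (fun a => by rw [inS_iff, sp_append]), ih']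
    · order
    · rw [ih']
      refine le_trans (dm_mono ?_) (dm_sup_pt_le _ A[k])
      order

theorem sp_inter (A Z : List Vec) : sp n (inter n A Z) = sp n A ⊓ sp n Z := by
  have := inter_inv (n := n) A Z A.length le_rfl
  simpa [inter] using this

end Pool.Agent.MP_0c5eb8_lc.H36
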