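import Pool.Agent.MP_0c5eb8_lc.H36.Lin

/-!
The linear algebra routines run in polynomial time.
-/

set_option autoImplicit false

namespace Pool.Agent.MP_0c5eb8_lc.H36

open Pool.Agent.Shared.H56 Polynomial

variable {α β γ : Type} [N487b59b3 α] [N487b59b3 β] [N487b59b3 γ]

/-- All vectors of the list have length at most `m`. -/
def Bd (m : ℕ) (A : List Vec) : Prop := ∀ a ∈ A, a.length ≤ m

theorem sz_le_of_forall {l : List β} {m : ℕ} (h : ∀ a ∈ l, sz a ≤ m) :
    sz l ≤ l.length * (2 * m + 1) := by
  induction l with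
  | nil => simp
  | cons a l ih =>
    have h1 := h a List.mem_cons_self
    have h2 := ih fun b hb => h b (List.mem_cons_of_mem _ hb)
    simp only [sz_cons, List.length_cons]
    nlinarith

theorem Bd.sz_le {m : ℕ} {A : List Vec} (h : Bd m A) : sz A ≤ A.length * (6 * m + 1) := by
  have := sz_le_of_forall (l := A) (m := 3 * m) fun a ha => by
    rw [sz_list_bool]
    have := h a ha
    omega
  nlinarith

theorem bd_sz (A : List Vec) : Bd (sz A) A := fun a ha =>
  (length_le_sz a).trans (sz_le_of_mem ha)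

theorem Bd.mono {m m' : ℕ} {A : List Vec} (h : Bd m A) (h' : m ≤ m') : Bd m' A :=
  fun a ha => (h a ha).trans h'

theorem Bd.cut {n m : ℕ} {A : List Vec} (h : Bd m A) (hn : n ≤ m) (t : Vec → Bool) :
    Bd m (cut n t A) := by
  intro b hb
  obtain ⟨a, ha, rfl⟩ := List.mem_map.1 hb
  split_ifs
  · exact h a ha
  · simpa using hn

theorem foldl_inv {σ τ : Type} {P : σ → Prop} {f : σ → τ → σ} {l : List τ} {s : σ} (h0 : P s)
    (h : ∀ s x, x ∈ l → P s → P (f s x)) : P (l.foldl f s) := by
  induction l generalizing s with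
  | nil => exact h0
  | cons x l ih =>
    exact ih (h s x List.mem_cons_self h0) fun s y hy => h s y (List.mem_cons_of_mem _ hy)

theorem Bd.inter {n m : ℕ} {A : List Vec} (h : Bd m A) (hn : n ≤ m) (Z : List Vec) :
    Bd m (inter n A Z) :=
  foldl_inv (P := Bd m) h fun _ _ _ hs => hs.cut hn _

theorem length_inter {n : ℕ} (A Z : List Vec) : (inter n A Z).length = A.length :=
  foldl_inv (P := fun S : List Vec => S.length = A.length) rfl fun _ _ _ hs => by simpa using hs

theorem Bd.ext {n m : ℕ} {A : List Vec} (h : Bd m A) (Z : List Vec) : Bd m (ext n Z A) :=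
  fun a ha => h a (mem_of_mem_ext ha)

theorem un_size {n : α → ℕ} (hn : PT fun a => un (n a)) :
    ∃ B : Polynomial ℕ, ∀ a, n a ≤ B.eval (sz a) := by
  obtain ⟨B, hB⟩ := hn.size
  exact ⟨B, fun a => by simpa using (length_le_sz (un (n a))).trans (hB a)⟩

@[fun_prop] theorem pt_vadd {n : α → ℕ} {a b : α → Vec} (hn : PT fun a => un (n a)) (ha : PT a)
    (hb : PT b) : PT fun x => vadd (n x) (a x) (b x) := by
  unfold vadd
  fun_prop

@[fun_prop] theorem pt_cut {n : α → ℕ} {t : α → Vec → Bool} {A : α → List Vec}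
    (hn : PT fun a => un (n a)) (ht : PT fun p : α × Vec => t p.1 p.2) (hA : PT A) :
    PT fun x => cut (n x) (t x) (A x) := by
  unfold cut
  have hn' : PT fun p : α × Vec => un (n p.1) := hn.comp (by fun_prop)
  fun_prop

@[fun_prop] theorem pt_rk {n : α → ℕ} {A : α → List Vec} (hn : PT fun a => un (n a)) (hA : PT A) :
    PT fun x => rk (n x) (A x) := by
  unfold rk
  refine PT.fst (PT.foldl (f := fun a s i => rkStep (n a) s i) ?_ (by fun_prop) (by fun_prop) ?_)
  · unfold rkStep
    have hn' : PT fun p : α × (ℕ × List Vec) × ℕ => un (n p.1) := hn.comp (by fun_prop)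
    fun_prop
  · obtain ⟨B, hB⟩ := un_size hn
    obtain ⟨C, hC⟩ := hA.size
    refine ⟨2 * B + 1 + C * (6 * (B + C) + 1), fun a k => ?_⟩
    have key : ∀ (l : List ℕ) (s : ℕ × List Vec), Bd (n a + sz (A a)) s.2 →
        (l.foldl (rkStep (n a)) s).1 ≤ s.1 + l.length ∧
        (l.foldl (rkStep (n a)) s).2.length = s.2.length ∧
        Bd (n a + sz (A a)) (l.foldl (rkStep (n a)) s).2 := by
      intro l
      induction l with
      | nil => intro s hs; exact ⟨le_rfl, rfl, hs⟩
      | cons i l ih =>
        intro s hs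
        obtain ⟨i1, i2, i3⟩ := ih (rkStep (n a) s i) (hs.cut (by omega) _)
        refine ⟨i1.trans ?_, i2.trans (by simp [rkStep]), i3⟩
        simp only [rkStep, List.length_cons]
        split_ifs <;> omega
    obtain ⟨i1, i2, i3⟩ := key ((List.range (n a)).take k) (0, A a)
      ((bd_sz (A a)).mono (by omega))
    have h1 := i3.sz_le
    have h2 := sz_nat_le_self (((List.range (n a)).take k).foldl (rkStep (n a)) (0, A a)).1
    have h3 : ((List.range (n a)).take k).length ≤ n a := by simp
    have h4 := length_le_sz (A a)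
    have h5 := hB a
    have h6 := hC a
    rw [i2] at h1
    generalize ((List.range (n a)).take k).foldl (rkStep (n a)) (0, A a) = s at *
    obtain ⟨s1, s2⟩ := s
    simp only [sz_pair, eval_add, eval_mul, eval_ofNat, eval_one] at *
    have : (A a).length * (6 * (n a + sz (A a)) + 1)
        ≤ C.eval (sz a) * (6 * (B.eval (sz a) + C.eval (sz a)) + 1) :=
      Nat.mul_le_mul (by omega) (by omega)
    omega

@[fun_prop] theorem pt_inS {n : α → ℕ} {A : α → List Vec} {v : α → Vec}
    (hn : PT fun a => un (n a)) (hA : PT A) (hv : PT v) : PT fun x => inS (n x) (A x) (v x) := by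
  unfold inS
  fun_prop

@[fun_prop] theorem pt_ext {n : α → ℕ} {Z A : α → List Vec} (hn : PT fun a => un (n a))
    (hZ : PT Z) (hA : PT A) : PT fun x => ext (n x) (Z x) (A x) := by
  unfold ext
  refine PT.foldl_add (f := fun x T a => if inS (n x) (T ++ Z x) a then T else a :: T) ?_
    (by fun_prop) hA ⟨2 * X + 1, fun a c x _ => ?_⟩
  · have hn' : PT fun p : α × List Vec × Vec => un (n p.1) := hn.comp (by fun_prop)
    fun_prop
  · split_ifs <;> simp
    omega

@[fun_prop] theorem pt_inter {n : α → ℕ} {A Z : α → List Vec} (hn : PT fun a => un (n a))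
    (hA : PT A) (hZ : PT Z) : PT fun x => inter (n x) (A x) (Z x) := by
  unfold inter
  refine PT.foldl (f := fun x S i => cut (n x) (inS (n x) (Z x ++ (A x).drop (i + 1))) S) ?_
    hA (by fun_prop) ?_
  · have hn' : PT fun p : α × List Vec × ℕ => un (n p.1) := hn.comp (by fun_prop)
    have hn'' : PT fun p : (α × List Vec × ℕ) × Vec => un (n p.1.1) := hn.comp (by fun_prop)
    fun_prop
  · obtain ⟨B, hB⟩ := un_size hn
    obtain ⟨C, hC⟩ := hA.size
    refine ⟨C * (6 * (B + C) + 1), fun a k => ?_⟩
    have key := foldl_inv (P := fun S : List Vec => S.length = (A a).length ∧ Bd (n a + sz (A a)) S)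
      (f := fun S i => cut (n a) (inS (n a) (Z a ++ (A a).drop (i + 1))) S)
      (l := (List.range (A a).length).take k) (s := A a) ⟨rfl, (bd_sz _).mono (by omega)⟩
      (fun s x _ hs => ⟨by simpa using hs.1, hs.2.cut (by omega) _⟩)
    have h1 := key.2.sz_le
    rw [key.1] at h1
    refine h1.trans ?_
    have h4 := length_le_sz (A a)
    have h5 := hB a
    have h6 := hC a
    simp only [eval_add, eval_mul, eval_ofNat, eval_one]
    exact Nat.mul_le_mul (by omega) (by omega)

end Pool.Agent.MP_0c5eb8_lc.H36
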