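import Pool.Agent.MP_0c5eb8_lc.H36.Algo

/-!
Linear matroid parity over the field with two elements is solved in polynomial time.
-/

set_option autoImplicit false
set_option linter.unusedSectionVars false

namespace Pool.Agent.MP_0c5eb8_lc.H36

open Pool.Agent.Shared.H56 Polynomial

section PT

variable {α : Type} [N487b59b3 α]

@[fun_prop] theorem pt_dd {l : α → List Comp} (hl : PT l) : PT fun a => dd (l a) := by
  unfold dd
  refine PT.foldl_add (f := fun _ acc c => if c ∈ acc then acc else c :: acc) (by fun_prop)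
    (by fun_prop) hl ⟨2 * X + 1, fun a c x _ => ?_⟩
  split_ifs <;> simp
  omega

@[fun_prop] theorem pt_ofRank {n : α → ℕ} {N : α → List Vec} {j : α → ℕ} {L : α → List Line}
    (hn : PT fun a => un (n a)) (hN : PT N) (hj : PT j) (hL : PT L) :
    PT fun a => ofRank (n a) (N a) (j a) (L a) := by
  unfold ofRank
  have hn' : PT fun p : α × Line => un (n p.1) := hn.comp (by fun_prop)
  fun_prop

@[fun_prop] theorem pt_del {M : α → List Line} {l : α → Line} (hM : PT M) (hl : PT l) :
    PT fun a => del (M a) (l a) := by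
  unfold del
  fun_prop

@[fun_prop] theorem pt_rest {I Y : α → List Comp} (hI : PT I) (hY : PT Y) :
    PT fun a => rest (I a) (Y a) := by
  unfold rest
  fun_prop

@[fun_prop] theorem pt_mrg {I Y : α → List Comp} (hI : PT I) (hY : PT Y) :
    PT fun a => mrg (I a) (Y a) := by
  unfold mrg
  fun_prop

@[fun_prop] theorem pt_newZ {n : α → ℕ} {M : α → List Line} {I Y : α → List Comp}
    (hn : PT fun a => un (n a)) (hM : PT M) (hI : PT I) (hY : PT Y) :
    PT fun a => newZ (n a) (M a) (I a) (Y a) := by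
  unfold newZ
  fun_prop

@[fun_prop] theorem pt_inside {n : α → ℕ} {E : α → List Line} {Z : α → List Vec}
    (hn : PT fun a => un (n a)) (hE : PT E) (hZ : PT Z) :
    PT fun a => inside (n a) (E a) (Z a) := by
  unfold inside
  have hn' : PT fun p : α × Line => un (n p.1) := hn.comp (by fun_prop)
  fun_prop

theorem pt_newI {n : α → ℕ} {E : α → List Line} {Z N : α → List Vec} {l : α → Line}
    {I Y : α → List Comp} (hn : PT fun a => un (n a)) (hE : PT E) (hZ : PT Z) (hN : PT N)
    (hl : PT l) (hI : PT I) (hY : PT Y) :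
    PT fun a => newI (n a) (E a) (Z a) (N a) (l a) (I a) (Y a) := by
  unfold newI
  have hn' : PT fun p : α × Line => un (n p.1) := hn.comp (by fun_prop)
  exact pt_dd (PT.append (pt_rest hI hY) (PT.cons
    (pt_star hn hZ hN hl (pt_mrg hI hY) (pt_ofRank hn hN (PT.const _) (pt_inside hn hE hZ)))
    (PT.map (pt_single hn' (by fun_prop) (by fun_prop))
      (pt_ofRank hn hN (PT.const _) (pt_inside hn hE hZ)))))

theorem pt_greedy {n : α → ℕ} {E M : α → List Line} (hn : PT fun a => un (n a)) (hE : PT E)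
    (hM : PT M) : PT fun a => greedy (n a) (E a) (M a) := by
  unfold greedy
  refine PT.foldl_add (f := fun a M e =>
    if rk (n a) (e.1 :: e.2 :: flat M) = rk (n a) (flat M) + 2 then e :: M else M) ?_ hM hE
    ⟨2 * X + 1, fun a c x _ => ?_⟩
  · have hn' : PT fun p : α × List Line × Line => un (n p.1) := hn.comp (by fun_prop)
    fun_prop
  · split_ifs <;> simp
    omega

theorem pt_init {n : α → ℕ} {E M : α → List Line} (hn : PT fun a => un (n a)) (hE : PT E)
    (hM : PT M) : PT fun a => init (n a) (E a) (M a) := by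
  unfold init
  have h := pt_greedy hn hE hM
  have hn' : PT fun p : α × Line => un (n p.1) := hn.comp (by fun_prop)
  exact PT.prodMk h (PT.prodMk (pt_flat h) (pt_dd (PT.map
    (pt_single hn' ((pt_flat h).comp (by fun_prop)) (by fun_prop))
    (pt_ofRank hn (pt_flat h) (PT.const _) hE))))

theorem pt_cand {n : α → ℕ} {s : α → State} (hn : PT fun a => un (n a)) (hs : PT s) :
    PT fun a => cand (n a) (s a) := by
  unfold cand
  have hn' : PT fun p : α × Line => un (n p.1) := hn.comp (by fun_prop)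
  fun_prop

theorem pt_stepAt {n : α → ℕ} {E : α → List Line} {s : α → State} {l : α → Line}
    (hn : PT fun a => un (n a)) (hE : PT E) (hs : PT s) (hl : PT l) :
    PT fun a => stepAt (n a) (E a) (s a) (l a) := by
  unfold stepAt
  have hM := pt_del hs.fst hl
  have hR := pt_flat hM
  have hZ := hs.snd.fst
  have hI := hs.snd.snd
  have hY := pt_cpY hn hR hZ hI
  have hN := pt_newZ hn hM hI hY
  exact PT.ite (PT.decLe (PT.add (pt_gT hI).length (PT.mul (PT.const _) (pt_rk hn hZ)))
      (pt_rho hn hR hZ hI (pt_cpX hn hR hZ hI)))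
    (pt_init hn hE (PT.append (pt_cpF hn hR hZ hI) hM))
    (PT.prodMk hM (PT.prodMk hN (pt_newI hn hE hZ hN hl hI hY)))

theorem pt_step {n : α → ℕ} {E : α → List Line} {s : α → State}
    (hn : PT fun a => un (n a)) (hE : PT E) (hs : PT s) :
    PT fun a => step (n a) (E a) (s a) := by
  unfold step
  have h := pt_cand hn hs
  exact PT.ite (PT.decEq h.isEmpty (PT.const _)) hs (pt_stepAt hn hE hs (PT.headD h (PT.const _)))

theorem pt_val {n : α → ℕ} {s : α → State} (hn : PT fun a => un (n a)) (hs : PT s) :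
    PT fun a => val (n a) (s a) := by
  unfold val
  fun_prop

end PT

variable {n : ℕ}

/-- Size bounds for a component. -/
structure SmallC (n m : ℕ) (c : Comp) : Prop where
  bT : Bd m c.1
  bP : Bd m c.2.1
  lT : c.1.length ≤ n
  lP : c.2.1.length ≤ n
  lF : c.2.2.length ≤ 2 * n + 2
  lM : ∀ F ∈ c.2.2, F.length ≤ n + 1

/-- Size bounds for a state after `k` steps. -/
structure Small (n : ℕ) (E : List Line) (k : ℕ) (s : State) : Prop where
  inv : Inv n E s.1 s.2.1 s.2.2
  bZ : Bd (n + sz E) s.2.1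
  lZ : s.2.1.length ≤ n
  lI : s.2.2.length ≤ (k + 1) * (E.length + 1)
  sm : ∀ c ∈ s.2.2, SmallC n (n + sz E) c

theorem bd_flat_sub {E M : List Line} (h : ∀ e ∈ M, e ∈ E) : Bd (n + sz E) (flat M) := by
  intro a ha
  obtain ⟨e, he, h'⟩ := List.mem_flatMap.1 ha
  have := bd_flat E a (List.mem_flatMap.2 ⟨e, h e he, h'⟩)
  omega

theorem Bd.append {m : ℕ} {A B : List Vec} (hA : Bd m A) (hB : Bd m B) : Bd m (A ++ B) :=
  fun a ha => (List.mem_append.1 ha).elim (hA a) (hB a)

theorem Bd.flatMap {m : ℕ} {I : List Comp} {f : Comp → List Vec} (h : ∀ c ∈ I, Bd m (f c)) :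
    Bd m (I.flatMap f) := fun a ha => by
  obtain ⟨c, hc, h'⟩ := List.mem_flatMap.1 ha
  exact h c hc a h'

theorem small_mk {m : ℕ} (hm : n ≤ m) {N W : List Vec} {fam : List (List Line)} (hW : Bd m W)
    (h1 : fam.length ≤ 2 * n + 2) (h2 : ∀ F ∈ fam, F.length ≤ n + 1) :
    SmallC n m (mk n N W fam) :=
  ⟨hW.ext _, (hW.inter hm _).ext _, length_ext_le _ _, length_ext_le _ _, h1, h2⟩

theorem small_single {E : List Line} (N : List Vec) {e : Line} (he : e ∈ E) :
    SmallC n (n + sz E) (single n N e) :=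
  small_mk (by omega) (bd_flat_sub (M := [e]) (by simpa using he)) (by simp) (by simp)

theorem small_init {E M : List Line} (hM : IsM n E M) (k : ℕ) : Small n E k (init n E M) := by
  have H := (init_inv hM).1
  refine ⟨H, bd_flat_sub H.isM.1, ?_, ?_, fun c hc => ?_⟩
  · have := H.isM.length_le
    simpa [init] using this
  · refine (length_dd_le _).trans ?_
    have : (ofRank n (flat (greedy n E M)) 1 E).length ≤ E.length := List.length_filter_le _ _
    rw [List.length_map]
    nlinarith
  · obtain ⟨e, he, rfl⟩ := List.mem_map.1 (mem_dd.1 hc)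
    exact small_single _ (mem_ofRank.1 he).1

theorem small_step {E : List Line} {k : ℕ} {s : State} (H : Small n E k s) :
    Small n E (k + 1) (step n E s) := by
  rcases step_cases (n := n) E s with h | ⟨l, hl, h⟩
  · rw [h.2]
    exact ⟨H.inv, H.bZ, H.lZ, H.lI.trans (Nat.mul_le_mul_right _ (by omega)), H.sm⟩
  rw [h]
  rcases stepAt_cases H.inv hl with ⟨M, h1, _, h3⟩ | ⟨Y, h1, ⟨j, h2⟩, h3, _⟩
  · rw [h3]
    exact small_init h1 _
  rw [h1]
  have hin : ∀ i e, e ∈ ofRank n (newZ n (del s.1 l) s.2.2 Y) i (inside n E s.2.1) → e ∈ E :=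
    fun i e he => (mem_inside.1 (mem_ofRank.1 he).1).1
  refine ⟨h3, Bd.ext ((bd_flat_sub h3.isM.1).append (Bd.flatMap fun c hc =>
    (H.sm c (List.mem_filter.1 hc).1).bP)) _, length_ext_le _ _, ?_, fun c hc => ?_⟩
  · refine (length_dd_le _).trans ?_
    have a1 : (rest s.2.2 Y).length ≤ s.2.2.length := List.length_filter_le _ _
    have a2 : (ofRank n (newZ n (del s.1 l) s.2.2 Y) 1 (inside n E s.2.1)).length ≤ E.length :=
      (List.length_filter_le _ _).trans (List.length_filter_le _ _)
    have a3 := H.lI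
    simp only [List.length_append, List.length_cons, List.length_map]
    nlinarith
  · rcases List.mem_append.1 (mem_dd.1 hc) with hc | hc
    · exact H.sm c (List.mem_filter.1 hc).1
    rcases List.mem_cons.1 hc with rfl | hc
    · refine small_mk (by omega) ?_ ?_ fun F hF => ?_
      · exact ((Bd.flatMap fun c hc => (H.sm c (List.mem_filter.1 hc).1).bT).append
          (Bd.flatMap fun c hc => (H.sm c (List.mem_filter.1 hc).1).bP)).append
          (bd_flat_sub (List.forall_mem_cons.2 ⟨h2.lE, hin 2⟩))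
      · have a1 := length_famB_le n s.2.1 (newZ n (del s.1 l) s.2.2 Y) l (mrg s.2.2 Y)
          (ofRank n (newZ n (del s.1 l) s.2.2 Y) 2 (inside n E s.2.1))
        have a2 := length_famN_le n s.2.1 (newZ n (del s.1 l) s.2.2 Y) l (mrg s.2.2 Y)
          (ofRank n (newZ n (del s.1 l) s.2.2 Y) 2 (inside n E s.2.1))
        rw [List.length_append]
        omega
      · have a1 := h2.h3
        have a2 := dm_le (sp n s.2.1 ⊔ TS n (mrg s.2.2 Y).toFinset)
        rcases List.mem_append.1 hF with hF | hF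
        · have := (h2.famB_spec.1 F hF).2.2.1
          omega
        · have := (h2.famN_spec.1 F hF).1.2.2.1
          omega
    · obtain ⟨e, he, rfl⟩ := List.mem_map.1 hc
      exact small_single _ (hin 1 e he)

theorem sz_lines_le {E M : List Line} (h : ∀ e ∈ M, e ∈ E) : sz M ≤ M.length * (2 * sz E + 1) :=
  sz_le_of_forall fun e he => sz_le_of_mem (h e he)

theorem Small.sz_le {E : List Line} {k x : ℕ} {s : State} (H : Small n E k s) (hn : n ≤ x)
    (hE : sz E ≤ x) (hk : k ≤ (x + 1) * (x + 1)) :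
    sz s ≤ 2 * (x * (2 * x + 1)) + 1 + (2 * (x * (12 * x + 1)) + 1 +
      ((x + 1) * (x + 1) + 1) * (x + 1) * (2 * (4 * (x * (12 * x + 1)) + 2 +
        (2 * x + 2) * (2 * ((x + 1) * (2 * x + 1)) + 1)) + 1)) := by
  obtain ⟨M, Z, I⟩ := s
  have a1 := sz_lines_le H.inv.isM.1
  have a2 := H.inv.isM.length_le
  have a3 := H.bZ.sz_le
  have a4 := H.lZ
  have a5 := H.lI
  have a6 := length_le_sz E
  have hb : ∀ A : List Vec, Bd (n + sz E) A → A.length ≤ n → sz A ≤ x * (12 * x + 1) :=
    fun A h1 h2 => h1.sz_le.trans (Nat.mul_le_mul (by omega) (by omega))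
  have a7 : sz I ≤ I.length * (2 * (4 * (x * (12 * x + 1)) + 2 +
        (2 * x + 2) * (2 * ((x + 1) * (2 * x + 1)) + 1)) + 1) := by
    refine sz_le_of_forall fun c hc => ?_
    have b := H.sm c hc
    have g := H.inv.good c hc
    obtain ⟨T, P, fam⟩ := c
    have b1 := hb T b.bT b.lT
    have b2 := hb P b.bP b.lP
    have b3 : sz fam ≤ fam.length * (2 * ((x + 1) * (2 * x + 1)) + 1) :=
      sz_le_of_forall fun F hF => (sz_lines_le (g.sub F hF)).trans
        (Nat.mul_le_mul ((b.lM F hF).trans (by omega)) (by omega))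
    have b4 : fam.length * (2 * ((x + 1) * (2 * x + 1)) + 1)
        ≤ (2 * x + 2) * (2 * ((x + 1) * (2 * x + 1)) + 1) :=
      Nat.mul_le_mul_right _ (b.lF.trans (by omega))
    simp only [sz_pair]
    omega
  have a8 := hb Z H.bZ a4
  simp only at a1 a2 a5
  have a9 : M.length * (2 * sz E + 1) ≤ x * (2 * x + 1) := Nat.mul_le_mul (by omega) (by omega)
  have a10 : I.length ≤ ((x + 1) * (x + 1) + 1) * (x + 1) :=
    a5.trans (Nat.mul_le_mul (by omega) (by omega))
  have a11 := Nat.mul_le_mul_right (2 * (4 * (x * (12 * x + 1)) + 2 +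
        (2 * x + 2) * (2 * ((x + 1) * (2 * x + 1)) + 1)) + 1) a10
  simp only [sz_pair]
  omega

@[fun_prop] theorem pt_nu {α : Type} [N487b59b3 α] {n : α → ℕ} {E : α → List Line}
    (hn : PT fun a => un (n a)) (hE : PT E) : PT fun a => nu (n a) (E a) := by
  unfold nu
  refine pt_val hn (PT.iterate_un (f := fun a s => step (n a) (E a) s)
    (pt_step (hn.comp (by fun_prop)) (by fun_prop) (by fun_prop))
    (pt_init hn hE (PT.const _)) (by fun_prop) ?_)
  obtain ⟨B, hB⟩ := un_size hn
  obtain ⟨C, hC⟩ := hE.size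
  refine ⟨(2 * (X * (2 * X + 1)) + 1 + (2 * (X * (12 * X + 1)) + 1 +
      ((X + 1) * (X + 1) + 1) * (X + 1) * (2 * (4 * (X * (12 * X + 1)) + 2 +
        (2 * X + 2) * (2 * ((X + 1) * (2 * X + 1)) + 1)) + 1))).comp (B + C), fun a k hk => ?_⟩
  have H := iterate_inv (f := step (n a) (E a)) (P := Small (n a) (E a))
    (small_init (isM_nil (E a)) 0) (fun k s hs => small_step hs) k
  have h1 := hB a
  have h2 := hC a
  have := H.sz_le (x := B.eval (sz a) + C.eval (sz a)) (by omega) (by omega)
    (hk.trans (Nat.mul_le_mul (by omega) (by omega)))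
  simpa only [eval_comp, eval_add, eval_mul, eval_ofNat, eval_one, eval_X] using this

/-- Linear matroid parity over the field with two elements, with the dimension given in unary. -/
theorem parity_poly : ∃ f : List Bool × List (Vec × Vec) → ℕ, PT f ∧ ∀ u E,
    IsGreatest {k | ∃ M : List (Vec × Vec), (∀ e ∈ M, e ∈ E) ∧
      dm (sp u.length (flat M)) = 2 * M.length ∧ M.length = k} (f (u, E)) := by
  refine ⟨fun p => nu p.1.length p.2, by fun_prop, fun u E => ?_⟩
  have := nu_spec (n := u.length) E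
  simpa only [IsM, and_assoc] using this

end Pool.Agent.MP_0c5eb8_lc.H36
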