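import Pool.Agent.MP_0c5eb8_lc.H36.CP

/-!
The queries that produce the members of the family of a merged component.
-/

set_option autoImplicit false
set_option linter.unusedSectionVars false

namespace Pool.Agent.MP_0c5eb8_lc.H36

open Finset

variable {n : ℕ}

/-- The span of a line. -/
def ln (n : ℕ) (e : Line) : Sp n := pt n e.1 ⊔ pt n e.2

theorem sp_flat_cons (e : Line) (M : List Line) :
    sp n (flat (e :: M)) = ln n e ⊔ sp n (flat M) := by
  rw [flat_cons, sp_cons, sp_cons, ln, sup_assoc]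

theorem sp_cons_cons (e : Line) (A : List Vec) : sp n (e.1 :: e.2 :: A) = ln n e ⊔ sp n A := by
  rw [sp_cons, sp_cons, ln, sup_assoc]

theorem dm_sup_ln_le (O : Sp n) (e : Line) : dm (O ⊔ ln n e) ≤ dm O + 2 := by
  have := dm_sup_sp_le O [e.1, e.2]
  rwa [sp_cons_cons, sp_nil, sup_bot_eq] at this

theorem ln_le_flat {e : Line} {M : List Line} (h : e ∈ M) : ln n e ≤ sp n (flat M) :=
  sup_le (pt_le_sp (List.mem_flatMap.2 ⟨e, h, by simp⟩))
    (pt_le_sp (List.mem_flatMap.2 ⟨e, h, by simp⟩))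

theorem sp_flat_le {M : List Line} {O : Sp n} : sp n (flat M) ≤ O ↔ ∀ e ∈ M, ln n e ≤ O := by
  induction M with
  | nil => simp
  | cons e M ih => rw [sp_flat_cons, _root_.sup_le_iff, ih, List.forall_mem_cons]

theorem sp_flatMap_T (J : List Comp) : sp n (J.flatMap fun c => c.1) = TS n J.toFinset :=
  le_antisymm (sp_flatMap_le.2 fun _ hc => le_TS (List.mem_toFinset.2 hc))
    (TS_le.2 fun _ hc => le_sp_flatMap (fun c : Comp => c.1) (List.mem_toFinset.1 hc))

theorem sp_flatMap_P (J : List Comp) : sp n (J.flatMap fun c => c.2.1) = PS n J.toFinset :=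
  le_antisymm (sp_flatMap_le.2 fun _ hc => le_PS (List.mem_toFinset.2 hc))
    (PS_le.2 fun _ hc => le_sp_flatMap (fun c : Comp => c.2.1) (List.mem_toFinset.1 hc))

/-- The vectors that span the merged component. -/
def starW (l : Line) (J : List Comp) (two : List Line) : List Vec :=
  (J.flatMap fun c => c.1) ++ (J.flatMap fun c => c.2.1) ++ flat (l :: two)

theorem sp_starW (l : Line) (J : List Comp) (two : List Line) : sp n (starW l J two)
    = TS n J.toFinset ⊔ PS n J.toFinset ⊔ (ln n l ⊔ sp n (flat two)) := by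
  rw [starW, sp_append, sp_append, sp_flatMap_T, sp_flatMap_P, sp_flat_cons]

/-- The situation in which components are merged. -/
structure StarHyp (n : ℕ) (E : List Line) (Z N : List Vec) (l : Line) (J : List Comp)
    (two : List Line) (k : ℕ) : Prop where
  nodup : J.Nodup
  good : ∀ c ∈ J, Good n E c
  pz : PS n J.toFinset ≤ sp n Z
  nz : sp n N ≤ sp n Z
  lE : l ∈ E
  lz : ln n l ≤ sp n Z
  two : ∀ e ∈ two, e ∈ E ∧ ln n e ≤ sp n Z ∧ dm (sp n N ⊔ ln n e) = dm (sp n N) + 2
  h0 : sp n Z ≤ sp n N ⊔ ln n l ⊔ PS n J.toFinset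
  h1 : ∀ Y ⊆ J.toFinset, Y ≠ J.toFinset → 2 * dm (sp n Z) + 2 * KS Y
    ≤ dm (sp n Z ⊔ TS n Y) + dm (sp n N ⊔ PS n (J.toFinset \ Y))
  h2 : ∀ Y ⊆ J.toFinset, Y.Nonempty → 2 * dm (sp n Z) + 1 + 2 * KS Y
    ≤ dm (sp n Z ⊔ TS n Y) + dm (sp n N ⊔ ln n l ⊔ PS n (J.toFinset \ Y))
  h3 : dm (sp n Z ⊔ TS n J.toFinset) = dm (sp n N) + 2 * k + 1
  h4 : k + dm (sp n N) + 1 = KS J.toFinset + dm (sp n Z)

/-- A matching of the merged component that avoids the vector `u`. -/
def qB (n : ℕ) (Z N : List Vec) (l : Line) (J : List Comp) (u : Vec) : List Line :=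
  if inS n Z u then cpF n (u :: N) Z J else l :: cpF n (l.1 :: l.2 :: u :: N) (u :: Z) J

/-- A hyperplane of `N` that contains `P` and avoids `z`. -/
def hyp (n : ℕ) (N P : List Vec) (z : Vec) : List Vec := P ++ ext n (z :: P) N

/-- A matching with one more line that is independent modulo the hyperplane `R` of `N`. -/
def qN (n : ℕ) (Z : List Vec) (l : Line) (J : List Comp) (two : List Line) (R : List Vec)
    (z : Vec) : List Line :=
  if rk n Z ≤ rk n (l.1 :: l.2 :: R ++ J.flatMap fun c => c.2.1) then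
    l :: cpF n (l.1 :: l.2 :: R) Z J
  else if inS n ((l.1 :: l.2 :: R ++ J.flatMap fun c => c.2.1) ++ J.flatMap fun c => c.1) z then
    cpF n R (l.1 :: l.2 :: R ++ J.flatMap fun c => c.2.1) J
  else
    ((two.filter fun e => decide (rk n (l.1 :: l.2 :: R ++ J.flatMap fun c => c.2.1)
        < rk n (e.1 :: e.2 :: l.1 :: l.2 :: R ++ J.flatMap fun c => c.2.1))).map
      fun e => e :: cpF n (e.1 :: e.2 :: R) Z J).headD []

theorem hyp_spec {N P : List Vec} {z : Vec} (hP : sp n P ≤ sp n N) (hz : pt n z ≤ sp n N)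
    (hz' : ¬ pt n z ≤ sp n P) :
    sp n P ≤ sp n (hyp n N P z) ∧ sp n (hyp n N P z) ⊔ pt n z = sp n N ∧
      dm (sp n (hyp n N P z)) + 1 = dm (sp n N) := by
  have h1 := sup_ext (n := n) (z :: P) N
  have h2 := dm_ext (n := n) (z :: P) N
  have h3 := dm_sup_sp_le (sp n P) (ext n (z :: P) N)
  have h4 := dm_sup_pt hz'
  rw [h1] at h2
  rw [hyp, sp_append]
  rw [sp_cons] at h1 h2
  have e1 : pt n z ⊔ sp n P ⊔ sp n N = sp n N := by order
  have e2 : pt n z ⊔ sp n P = sp n P ⊔ pt n z := sup_comm _ _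
  have e3 : sp n P ⊔ sp n (ext n (z :: P) N) ⊔ pt n z = sp n N := by order
  have h5 := dm_sup_pt_le (sp n P ⊔ sp n (ext n (z :: P) N)) z
  rw [e1, e2] at h2
  rw [e3] at h5
  exact ⟨le_sup_left, e3, by omega⟩

namespace StarHyp

variable {E : List Line} {Z N : List Vec} {l : Line} {J : List Comp} {two : List Line} {k : ℕ}
  (H : StarHyp n E Z N l J two k)
include H

theorem two_le : sp n (flat two) ≤ sp n Z := sp_flat_le.2 fun e he => (H.two e he).2.1

theorem sup_W : sp n N ⊔ sp n (starW l J two) = sp n Z ⊔ TS n J.toFinset := by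
  have := H.two_le
  have := H.pz
  have := H.nz
  have := H.lz
  have := H.h0
  rw [sp_starW]
  order

theorem rank_l (h : J.toFinset.Nonempty) : dm (sp n N ⊔ ln n l) = dm (sp n N) + 2 := by
  have h1 := H.h2 _ Subset.rfl h
  have h2 := dm_sup_ln_le (sp n N) l
  have h3 := H.h3
  have h4 := H.h4
  rw [sdiff_self, bot_eq_empty, PS_empty, sup_bot_eq] at h1
  omega

theorem pc {c : Comp} (hc : c ∈ J) : sp n c.2.1 ≤ sp n Z :=
  (le_PS (List.mem_toFinset.2 hc)).trans H.pz

theorem qB_spec {u : Vec} (hu : pt n u ≤ sp n (starW l J two)) (hu' : ¬ pt n u ≤ sp n N) :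
    (∀ e ∈ qB n Z N l J u, e ∈ E) ∧ sp n (flat (qB n Z N l J u)) ≤ sp n (starW l J two) ∧
      (qB n Z N l J u).length = k ∧
      dm (sp n N ⊔ pt n u ⊔ sp n (flat (qB n Z N l J u))) = dm (sp n N) + 1 + 2 * k := by
  have a1 := dm_sup_pt hu'
  have nz := H.nz
  have h3 := H.h3
  have h4 := H.h4
  unfold qB
  split_ifs with h
  · have h := inS_iff.1 h
    have e : sp n (u :: N) = sp n N ⊔ pt n u := by rw [sp_cons, sup_comm]
    obtain ⟨b1, b2, b3, b4⟩ := cp_ok (R := u :: N) (X := Z) H.nodup H.good (by rw [e]; order)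
      (fun c hc => H.pc hc) fun Y hY => by
        rw [e]
        by_cases hYJ : Y = J.toFinset
        · rw [hYJ, sdiff_self, bot_eq_empty, PS_empty, sup_bot_eq]
          omega
        · have := H.h1 Y hY hYJ
          have : dm (sp n N ⊔ PS n (J.toFinset \ Y))
            ≤ dm (sp n N ⊔ pt n u ⊔ PS n (J.toFinset \ Y)) := dm_mono (by order)
          omega
    rw [e] at b3 b4
    refine ⟨b1, ?_, by omega, by omega⟩
    rw [sp_starW]
    order
  · have h : ¬ pt n u ≤ sp n Z := fun h' => h (inS_iff.2 h')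
    have hne : J.toFinset.Nonempty := by
      rw [nonempty_iff_ne_empty]
      intro he
      have := H.sup_W
      rw [he, TS_empty] at this
      exact h (by order)
    have a2 := H.rank_l hne
    have lz := H.lz
    have pz := H.pz
    have h0 := H.h0
    have e : sp n (l.1 :: l.2 :: u :: N) = sp n N ⊔ ln n l ⊔ pt n u := by
      rw [sp_cons_cons, sp_cons]; order
    have e' : sp n (u :: Z) = sp n Z ⊔ pt n u := by rw [sp_cons, sup_comm]
    have a3 := dm_sup_pt h
    have a4 : dm (sp n N ⊔ ln n l ⊔ pt n u) = dm (sp n N ⊔ ln n l) + 1 :=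
      dm_sup_pt fun h' => h (by order)
    obtain ⟨b1, b2, b3, b4⟩ := cp_ok (R := l.1 :: l.2 :: u :: N) (X := u :: Z) H.nodup H.good
      (by rw [e, e']; order) (fun c hc => by have := H.pc hc; rw [e']; order) fun Y hY => by
        rw [e, e']
        have c0 : PS n (J.toFinset \ Y) ≤ PS n J.toFinset := PS_mono sdiff_subset
        have c1 : dm (sp n N ⊔ ln n l ⊔ PS n (J.toFinset \ Y) ⊔ pt n u)
            = dm (sp n N ⊔ ln n l ⊔ PS n (J.toFinset \ Y)) + 1 := dm_sup_pt fun h' => h (by order)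
        have c2 : sp n N ⊔ ln n l ⊔ pt n u ⊔ PS n (J.toFinset \ Y)
            = sp n N ⊔ ln n l ⊔ PS n (J.toFinset \ Y) ⊔ pt n u := by order
        rw [c2, c1]
        rcases Y.eq_empty_or_nonempty with rfl | hY'
        · have := dm_mono h0
          simp only [TS_empty, sup_bot_eq, KS_empty, sdiff_empty]
          omega
        · have := H.h2 Y hY hY'
          have : dm (sp n Z ⊔ TS n Y) ≤ dm (sp n Z ⊔ pt n u ⊔ TS n Y) := dm_mono (by order)
          omega
    rw [e, e'] at b3
    rw [e] at b4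
    refine ⟨fun e he => (List.mem_cons.1 he).elim (fun h => h ▸ H.lE) (b1 e), ?_, ?_, ?_⟩
    · rw [sp_flat_cons, sp_starW]
      order
    · rw [List.length_cons]
      omega
    · have : sp n N ⊔ pt n u ⊔ sp n (flat (l :: cpF n (l.1 :: l.2 :: u :: N) (u :: Z) J))
          = sp n N ⊔ ln n l ⊔ pt n u ⊔ sp n (flat (cpF n (l.1 :: l.2 :: u :: N) (u :: Z) J)) := by
        rw [sp_flat_cons]; order
      rw [this]
      omega

theorem with_line {R : List Vec} {e : Line} (he : e ∈ E) (hW : ln n e ≤ sp n (starW l J two))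
    (hZ : ln n e ≤ sp n Z) (hR : sp n R ≤ sp n N) (hR' : dm (sp n R) + 1 = dm (sp n N))
    (h2 : dm (sp n R) + 2 ≤ dm (sp n R ⊔ ln n e))
    (h : ∀ Y ⊆ J.toFinset, 2 * dm (sp n Z) + 2 * KS Y
      ≤ dm (sp n Z ⊔ TS n Y) + dm (sp n R ⊔ ln n e ⊔ PS n (J.toFinset \ Y))) :
    (∀ f ∈ e :: cpF n (e.1 :: e.2 :: R) Z J, f ∈ E) ∧
      sp n (flat (e :: cpF n (e.1 :: e.2 :: R) Z J)) ≤ sp n (starW l J two) ∧
      (e :: cpF n (e.1 :: e.2 :: R) Z J).length = k + 1 ∧
      dm (sp n R ⊔ sp n (flat (e :: cpF n (e.1 :: e.2 :: R) Z J))) = dm (sp n R) + 2 * (k + 1) := by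
  have nz := H.nz
  have h4 := H.h4
  have e1 : sp n (e.1 :: e.2 :: R) = sp n R ⊔ ln n e := by rw [sp_cons_cons, sup_comm]
  have a1 := dm_sup_ln_le (sp n R) e
  obtain ⟨b1, b2, b3, b4⟩ := cp_ok (R := e.1 :: e.2 :: R) (X := Z) H.nodup H.good
    (by rw [e1]; order) (fun c hc => H.pc hc) (by rw [e1]; exact h)
  rw [e1] at b3 b4
  refine ⟨fun f hf => (List.mem_cons.1 hf).elim (fun h => h ▸ he) (b1 f), ?_, ?_, ?_⟩
  · rw [sp_flat_cons]
    refine sup_le hW ?_
    rw [sp_starW]
    order
  · rw [List.length_cons]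
    omega
  · rw [sp_flat_cons, ← sup_assoc]
    omega

theorem qN_spec {R : List Vec} {z : Vec} (hz : pt n z ≤ sp n (starW l J two))
    (hR : sp n R ⊔ pt n z = sp n N) (hR' : dm (sp n R) + 1 = dm (sp n N)) :
    (∀ e ∈ qN n Z l J two R z, e ∈ E) ∧ sp n (flat (qN n Z l J two R z)) ≤ sp n (starW l J two) ∧
      (qN n Z l J two R z).length = k + 1 ∧
      dm (sp n R ⊔ sp n (flat (qN n Z l J two R z))) = dm (sp n R) + 2 * (k + 1) := by
  have nz := H.nz
  have lz := H.lz
  have pz := H.pz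
  have h0 := H.h0
  have h3 := H.h3
  have h4 := H.h4
  have hRN : sp n R ≤ sp n N := by order
  have hrel : ∀ A, dm (sp n N ⊔ A) ≤ dm (sp n R ⊔ A) + 1 := fun A => by
    have := relsub hRN A
    omega
  have ePi : sp n (l.1 :: l.2 :: R ++ J.flatMap fun c => c.2.1)
      = sp n R ⊔ ln n l ⊔ PS n J.toFinset := by
    rw [List.cons_append, List.cons_append, sp_cons_cons, sp_append, sp_flatMap_P]; order
  unfold qN
  split_ifs with c1 c2
  · rw [rk_eq, rk_eq, ePi] at c1
    refine H.with_line H.lE (by rw [sp_starW]; order) lz hRN hR' ?_ fun Y hY => ?_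
    · rcases J.toFinset.eq_empty_or_nonempty with he | he
      · rw [he] at c1 h3 h4
        simp only [TS_empty, PS_empty, sup_bot_eq, KS_empty] at c1 h3 h4
        omega
      · have := H.rank_l he
        have := relsub hRN (ln n l)
        omega
    · rcases Y.eq_empty_or_nonempty with rfl | hY'
      · simp only [TS_empty, sup_bot_eq, KS_empty, sdiff_empty]
        omega
      · have := H.h2 Y hY hY'
        have := hrel (ln n l ⊔ PS n (J.toFinset \ Y))
        rw [← sup_assoc, ← sup_assoc] at this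
        omega
  · rw [rk_eq, rk_eq, ePi] at c1
    rw [inS_iff, sp_append, ePi, sp_flatMap_T] at c2
    have a1 := dm_sup_pt_le (sp n R ⊔ ln n l ⊔ PS n J.toFinset) z
    have a2 : dm (sp n Z) ≤ dm (sp n R ⊔ ln n l ⊔ PS n J.toFinset ⊔ pt n z) := dm_mono (by order)
    obtain ⟨b1, b2, b3, b4⟩ := cp_ok (R := R) (X := l.1 :: l.2 :: R ++ J.flatMap fun c => c.2.1)
      H.nodup H.good (by rw [ePi]; order)
      (fun c hc => by
        have := le_PS (n := n) (List.mem_toFinset.2 hc)
        rw [ePi]; order)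
      fun Y hY => by
        rw [ePi]
        by_cases hYJ : Y = J.toFinset
        · rw [hYJ, sdiff_self, bot_eq_empty, PS_empty, sup_bot_eq]
          have : dm (sp n Z ⊔ TS n J.toFinset)
            ≤ dm (sp n R ⊔ ln n l ⊔ PS n J.toFinset ⊔ TS n J.toFinset) := dm_mono (by order)
          omega
        · have := H.h1 Y hY hYJ
          have := hrel (PS n (J.toFinset \ Y))
          have := relsub (O := sp n R ⊔ ln n l ⊔ PS n J.toFinset) (O' := sp n Z) (by order) (TS n Y)
          omega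
    rw [ePi] at b3
    refine ⟨b1, ?_, by omega, by omega⟩
    rw [sp_starW]
    order
  · rw [inS_iff, sp_append, ePi, sp_flatMap_T] at c2
    have hex : ∃ e ∈ two, decide (rk n (l.1 :: l.2 :: R ++ J.flatMap fun c => c.2.1)
        < rk n (e.1 :: e.2 :: l.1 :: l.2 :: R ++ J.flatMap fun c => c.2.1)) = true := by
      by_contra hno
      have : sp n (flat two) ≤ sp n R ⊔ ln n l ⊔ PS n J.toFinset := by
        refine sp_flat_le.2 fun e he => le_of_dm (not_lt.1 fun hlt => hno ⟨e, he, ?_⟩)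
        rw [decide_eq_true_eq, rk_eq, rk_eq, List.cons_append (a := e.1),
          List.cons_append (a := e.2), sp_cons_cons e, ePi, sup_comm (ln n e)]
        exact hlt
      rw [sp_starW] at hz
      exact c2 (by order)
    obtain ⟨d1, d2⟩ := headD_filter l hex
    have e0 : ∀ (L : List Line) (f : Line → List Line), L ≠ [] →
        (L.map f).headD [] = f (L.headD l) := by
      intro L f hL
      cases L with
      | nil => exact absurd rfl hL
      | cons _ _ => rfl
    rw [e0 _ _ (by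
      obtain ⟨e, he, he'⟩ := hex
      exact List.ne_nil_of_mem (List.mem_filter.2 ⟨he, he'⟩))]
    generalize (two.filter fun e => decide (rk n (l.1 :: l.2 :: R ++ J.flatMap fun c => c.2.1)
        < rk n (e.1 :: e.2 :: l.1 :: l.2 :: R ++ J.flatMap fun c => c.2.1))).headD l = e at d1 d2
    rw [decide_eq_true_eq, rk_eq, rk_eq, List.cons_append (a := e.1),
      List.cons_append (a := e.2), sp_cons_cons e, ePi] at d2
    have d3 : ¬ ln n e ≤ sp n R ⊔ ln n l ⊔ PS n J.toFinset := fun h => by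
      rw [sup_eq_right.2 h] at d2
      exact lt_irrefl _ d2
    obtain ⟨f1, f2, f3⟩ := H.two e d1
    have f4 := relsub hRN (ln n e)
    refine H.with_line f1 ?_ f2 hRN hR' (by omega) fun Y hY => ?_
    · have := ln_le_flat (n := n) d1
      rw [sp_starW]
      order
    · by_cases hYJ : Y = J.toFinset
      · rw [hYJ, sdiff_self, bot_eq_empty, PS_empty, sup_bot_eq]
        omega
      · have := H.h1 Y hY hYJ
        have := hrel (PS n (J.toFinset \ Y))
        have c0 : PS n (J.toFinset \ Y) ≤ PS n J.toFinset := PS_mono sdiff_subset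
        have : dm (sp n R ⊔ PS n (J.toFinset \ Y)) + 1
            ≤ dm (sp n R ⊔ ln n e ⊔ PS n (J.toFinset \ Y)) :=
          dm_lt (by order) fun h => d3 (by order)
        omega

end StarHyp

section PT

open Pool.Agent.Shared.H56 Polynomial

variable {α : Type} [N487b59b3 α]

@[fun_prop] theorem pt_starW {l : α → Line} {J : α → List Comp} {two : α → List Line}
    (hl : PT l) (hJ : PT J) (ht : PT two) : PT fun a => starW (l a) (J a) (two a) := by
  unfold starW
  fun_prop

@[fun_prop] theorem pt_qB {n : α → ℕ} {Z N : α → List Vec} {l : α → Line} {J : α → List Comp}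
    {u : α → Vec} (hn : PT fun a => un (n a)) (hZ : PT Z) (hN : PT N) (hl : PT l) (hJ : PT J)
    (hu : PT u) : PT fun a => qB (n a) (Z a) (N a) (l a) (J a) (u a) := by
  unfold qB
  fun_prop

@[fun_prop] theorem pt_hyp {n : α → ℕ} {N P : α → List Vec} {z : α → Vec}
    (hn : PT fun a => un (n a)) (hN : PT N) (hP : PT P) (hz : PT z) :
    PT fun a => hyp (n a) (N a) (P a) (z a) := by
  unfold hyp
  fun_prop

@[fun_prop] theorem pt_qN {n : α → ℕ} {Z R : α → List Vec} {l : α → Line} {J : α → List Comp}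
    {two : α → List Line} {z : α → Vec} (hn : PT fun a => un (n a)) (hZ : PT Z) (hl : PT l)
    (hJ : PT J) (ht : PT two) (hR : PT R) (hz : PT z) :
    PT fun a => qN (n a) (Z a) (l a) (J a) (two a) (R a) (z a) := by
  unfold qN
  have hn' : PT fun p : α × Line => un (n p.1) := hn.comp (by fun_prop)
  fun_prop

theorem sz_qB_le (n : ℕ) (Z N : List Vec) (l : Line) (J : List Comp) (u : Vec) :
    sz (qB n Z N l J u) ≤ sz J + 2 * sz l + 1 := by
  unfold qB
  split_ifs
  · have := sz_cpF_le n (u :: N) Z J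
    omega
  · have := sz_cpF_le n (l.1 :: l.2 :: u :: N) (u :: Z) J
    rw [sz_cons]
    omega

theorem sz_qN_le (n : ℕ) (Z : List Vec) (l : Line) (J : List Comp) (two : List Line)
    (R : List Vec) (z : Vec) : sz (qN n Z l J two R z) ≤ sz J + 2 * sz l + 2 * sz two + 1 := by
  unfold qN
  split_ifs
  · have := sz_cpF_le n (l.1 :: l.2 :: R) Z J
    rw [sz_cons]
    omega
  · have := sz_cpF_le n R (l.1 :: l.2 :: R ++ J.flatMap fun c => c.2.1) J
    omega
  · cases h : two.filter fun e => decide (rk n (l.1 :: l.2 :: R ++ J.flatMap fun c => c.2.1)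
        < rk n (e.1 :: e.2 :: l.1 :: l.2 :: R ++ J.flatMap fun c => c.2.1)) with
    | nil => simp
    | cons e es =>
      have h1 : e ∈ two := (List.mem_filter.1 (h ▸ List.mem_cons_self)).1
      have h2 := sz_le_of_mem h1
      have := sz_cpF_le n (e.1 :: e.2 :: R) Z J
      simp only [List.map_cons, List.headD_cons, sz_cons]
      omega

end PT

end Pool.Agent.MP_0c5eb8_lc.H36
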