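import Pool.Agent.MP_0c5eb8_lc.H36.LinPT

/-!
Independent transversals (Rado) for an abstract rank function, by local search.
-/

set_option autoImplicit false
set_option linter.unusedSectionVars false

namespace Pool.Agent.MP_0c5eb8_lc.H36

open Finset

/-- A monotone submodular function with unit increments. -/
structure RankFn {γ : Type} [DecidableEq γ] (r : Finset γ → ℕ) : Prop where
  mono : ∀ A B, A ⊆ B → r A ≤ r B
  ins : ∀ A a, r (insert a A) ≤ r A + 1
  submod : ∀ A B, r (A ∪ B) + r (A ∩ B) ≤ r A + r B

namespace RankFn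

variable {γ : Type} [DecidableEq γ] {r : Finset γ → ℕ} (hr : RankFn r)
include hr

theorem union_le (A B : Finset γ) : r (A ∪ B) ≤ r A + B.card := by
  induction B using Finset.induction_on with
  | empty => simp
  | insert b B hb ih =>
    rw [union_insert, card_insert_of_notMem hb]
    have := hr.ins (A ∪ B) b
    omega

theorem le_card (A : Finset γ) : r A ≤ r ∅ + A.card := by
  simpa using hr.union_le ∅ A

theorem indep_subset {A B : Finset γ} (hA : r A = r ∅ + A.card) (h : B ⊆ A) :
    r B = r ∅ + B.card := by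
  have h1 := hr.union_le B (A \ B)
  rw [union_sdiff_of_subset h] at h1
  have h2 := card_sdiff_add_card_eq_card h
  have h3 := hr.le_card B
  omega

theorem cl_mono {A B : Finset γ} {y : γ} (h : A ⊆ B) (hy : r (insert y A) ≤ r A) :
    r (insert y B) ≤ r B := by
  have h1 := hr.submod (insert y A) B
  have h2 : insert y A ∪ B = insert y B := by
    rw [insert_union, union_eq_right.2 h]
  have h3 : r A ≤ r (insert y A ∩ B) := hr.mono _ _ (subset_inter (subset_insert _ _) h)
  rw [h2] at h1
  omega

theorem cl_union {A B : Finset γ} (h : ∀ y ∈ B, r (insert y A) ≤ r A) : r (A ∪ B) ≤ r A := by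
  induction B using Finset.induction_on with
  | empty => simp
  | insert b B hb ih =>
    rw [union_insert]
    have h1 := ih fun y hy => h y (mem_insert_of_mem hy)
    have h2 := hr.cl_mono (subset_union_left (s₂ := B)) (h b (mem_insert_self _ _))
    omega

theorem cl_trans {A S : Finset γ} {y z : γ} (hS : S ⊆ insert y A) (hy : r (insert y A) ≤ r A)
    (hz : r (insert z S) ≤ r S) : r (insert z A) ≤ r A := by
  have h1 := hr.cl_mono hS hz
  have h2 : r (insert z A) ≤ r (insert z (insert y A)) :=
    hr.mono _ _ (insert_subset_insert _ (subset_insert _ _))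
  omega

theorem cl_sdiff {A D : Finset γ} {y : γ} (hA : r A = r ∅ + A.card) (hy : r (insert y A) ≤ r A)
    (hD : ∀ w ∈ D, r (insert y (A.erase w)) ≤ r (A.erase w)) :
    r (insert y (A \ D)) ≤ r (A \ D) := by
  induction D using Finset.induction_on with
  | empty => simpa using hy
  | insert w D hw ih =>
    have h1 := ih fun v hv => hD v (mem_insert_of_mem hv)
    have h2 := hD w (mem_insert_self _ _)
    have h3 := hr.submod (insert y (A \ D)) (insert y (A.erase w))
    have e1 : insert y (A \ D) ∩ insert y (A.erase w) = insert y (A \ insert w D) := by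
      ext v
      simp only [mem_inter, mem_insert, mem_sdiff, mem_erase]
      tauto
    have e2 : r ((A \ D) ∪ A.erase w) ≤ r (insert y (A \ D) ∪ insert y (A.erase w)) :=
      hr.mono _ _ (union_subset_union (subset_insert _ _) (subset_insert _ _))
    have e3 : (A \ D) ∩ A.erase w = A \ insert w D := by
      ext v
      simp only [mem_inter, mem_insert, mem_sdiff, mem_erase]
      tauto
    have c1 := hr.indep_subset hA (sdiff_subset (t := D))
    have c2 := hr.indep_subset hA (erase_subset w A)
    have c3 := hr.indep_subset hA (sdiff_subset (t := insert w D))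
    have c4 := hr.indep_subset hA (union_subset (sdiff_subset (t := D)) (erase_subset w A))
    have c5 := card_union_add_card_inter (A \ D) (A.erase w)
    rw [e3] at c5
    rw [e1] at h3
    omega

end RankFn

section Algo

variable {ι β : Type} [DecidableEq ι] [DecidableEq (ι × β)]
variable (ρ : List (ι × β) → ℕ) (I : List ι) (G : List (ι × β))

/-- The elements of `x` whose part is outside `Y`. -/
def off (x : List (ι × β)) (Y : List ι) : List (ι × β) := x.filter fun w => decide (w.1 ∉ Y)

/-- One round of the backward search. -/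
def levStep (x : List (ι × β)) (Y : List ι) : List ι :=
  I.filter fun j => G.any fun y => decide (y.1 = j ∧ ρ (off x Y) < ρ (y :: off x Y))

/-- The levels of the backward search. -/
def lev (x : List (ι × β)) (i : ℕ) : List ι := (levStep ρ I G x)^[i] []

/-- Level `i` contains an unmatched part. -/
def hit (x : List (ι × β)) (i : ℕ) : Bool :=
  (lev ρ I G x (min i I.length)).any fun j => decide (j ∉ x.map Prod.fst)

/-- The potential of the local search. -/
def phi (x : List (ι × β)) : ℕ :=
  x.length * (I.length + 1) + ((List.range (I.length + 1)).filter (hit ρ I G x)).length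

/-- Additions and exchanges. -/
def moves (x : List (ι × β)) : List (List (ι × β)) :=
  (G.filter fun y => decide (y.1 ∉ x.map Prod.fst)).flatMap fun y =>
    (y :: x) :: x.map fun w => y :: x.filter fun v => decide (v ≠ w)

/-- One step of the local search. -/
def radoStep (x : List (ι × β)) : List (ι × β) :=
  ((moves G x).filter fun x' =>
    decide (ρ x' = ρ [] + x'.length ∧ phi ρ I G x < phi ρ I G x')).headD x

/-- A largest independent transversal of a subfamily. -/
def radoX : List (ι × β) := (radoStep ρ I G)^[(I.length + 1) * (I.length + 1)] []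

/-- The least minimiser in the formula of Rado. -/
def radoY : List ι := lev ρ I G (radoX ρ I G) I.length

/-- The elements whose part is outside `Y`. -/
def gc (Y : Finset ι) : Finset (ι × β) := G.toFinset.filter fun y => y.1 ∉ Y

/-- Independent transversals of a subfamily. -/
structure Trans (x : List (ι × β)) : Prop where
  nodup : (x.map Prod.fst).Nodup
  sub : ∀ w ∈ x, w ∈ G
  indep : ρ x = ρ [] + x.length

variable {ρ I G} {r : Finset (ι × β) → ℕ}

theorem toFinset_off (x : List (ι × β)) (Y : List ι) :
    (off x Y).toFinset = x.toFinset.filter fun w => w.1 ∉ Y := by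
  ext w
  simp [off]

theorem mem_levStep (hρ : ∀ l, ρ l = r l.toFinset) {x : List (ι × β)} {Y : List ι} {j : ι} :
    j ∈ levStep ρ I G x Y ↔ j ∈ I ∧ ∃ y ∈ G, y.1 = j ∧
      r (x.toFinset.filter fun w => w.1 ∉ Y) < r (insert y (x.toFinset.filter fun w => w.1 ∉ Y)) := by
  simp only [levStep, List.mem_filter, List.any_eq_true, decide_eq_true_eq, hρ, List.toFinset_cons,
    toFinset_off]

theorem lev_succ (x : List (ι × β)) (i : ℕ) :
    lev ρ I G x (i + 1) = levStep ρ I G x (lev ρ I G x i) := Function.iterate_succ_apply' _ _ _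

theorem levStep_mono (hr : RankFn r) (hρ : ∀ l, ρ l = r l.toFinset) (x : List (ι × β))
    {Y Y' : List ι} (h : ∀ j ∈ Y, j ∈ Y') : ∀ j ∈ levStep ρ I G x Y, j ∈ levStep ρ I G x Y' := by
  intro j hj
  rw [mem_levStep hρ] at hj ⊢
  obtain ⟨h1, y, hy, h2, h3⟩ := hj
  refine ⟨h1, y, hy, h2, ?_⟩
  by_contra h4
  refine absurd (hr.cl_mono ?_ (not_lt.1 h4)) (not_le.2 h3)
  intro w hw
  simp only [mem_filter] at hw ⊢
  exact ⟨hw.1, fun h5 => hw.2 (h _ h5)⟩

theorem lev_mono_succ (hr : RankFn r) (hρ : ∀ l, ρ l = r l.toFinset) (x : List (ι × β)) (i : ℕ) :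
    ∀ j ∈ lev ρ I G x i, j ∈ lev ρ I G x (i + 1) := by
  induction i with
  | zero => simp [lev]
  | succ i ih =>
    rw [lev_succ x (i + 1), lev_succ x i]
    exact levStep_mono hr hρ x (by rwa [lev_succ] at ih)

theorem lev_mono (hr : RankFn r) (hρ : ∀ l, ρ l = r l.toFinset) (x : List (ι × β)) {i i' : ℕ}
    (h : i ≤ i') : ∀ j ∈ lev ρ I G x i, j ∈ lev ρ I G x i' := by
  induction h with
  | refl => exact fun _ h => h
  | step _ ih => exact fun j hj => lev_mono_succ hr hρ x _ j (ih j hj)

theorem lev_sub (x : List (ι × β)) (i : ℕ) : ∀ j ∈ lev ρ I G x i, j ∈ I := by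
  cases i with
  | zero => simp [lev]
  | succ i => rw [lev_succ]; exact fun j hj => (List.mem_filter.1 hj).1

theorem lev_stable (hr : RankFn r) (hρ : ∀ l, ρ l = r l.toFinset) (x : List (ι × β)) :
    ∀ j ∈ lev ρ I G x (I.length + 1), j ∈ lev ρ I G x I.length := by
  have key : ∀ i, (∀ j ∈ lev ρ I G x (i + 1), j ∈ lev ρ I G x i) ∨
      i < (lev ρ I G x (i + 1)).toFinset.card := by
    intro i
    induction i with
    | zero =>
      by_cases h : lev ρ I G x 1 = []
      · left; simp [h]
      · right
        rw [card_pos]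
        simpa using h
    | succ i ih =>
      rcases ih with h | h
      · left
        rw [lev_succ x (i + 1)]
        conv => enter [j, hj, 1]; rw [lev_succ x i]
        exact levStep_mono hr hρ x h
      · by_cases h' : ∀ j ∈ lev ρ I G x (i + 1 + 1), j ∈ lev ρ I G x (i + 1)
        · exact Or.inl h'
        · right
          refine lt_of_le_of_lt h (card_lt_card ⟨fun j hj => ?_, fun h'' => h' fun j hj => ?_⟩)
          · exact List.mem_toFinset.2 (lev_mono_succ hr hρ x _ j (List.mem_toFinset.1 hj))
          · exact List.mem_toFinset.1 (h'' (List.mem_toFinset.2 hj))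
  rcases key I.length with h | h
  · exact h
  · exfalso
    have h1 : (lev ρ I G x (I.length + 1)).toFinset ⊆ I.toFinset := fun j hj =>
      List.mem_toFinset.2 (lev_sub x _ j (List.mem_toFinset.1 hj))
    have h2 := card_le_card h1
    have h3 := List.toFinset_card_le I
    omega

theorem Trans.nodup' {x : List (ι × β)} (hx : Trans ρ G x) : x.Nodup := List.Nodup.of_map _ hx.nodup

theorem Trans.indep' (hρ : ∀ l, ρ l = r l.toFinset) {x : List (ι × β)} (hx : Trans ρ G x) :
    r x.toFinset = r ∅ + x.toFinset.card := by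
  have := hx.indep
  rwa [hρ, hρ, ← List.toFinset_card_of_nodup hx.nodup'] at this

theorem Trans.length_le (hG : ∀ y ∈ G, y.1 ∈ I) {x : List (ι × β)} (hx : Trans ρ G x) :
    x.length ≤ I.length := by
  have h1 : (x.map Prod.fst).toFinset ⊆ I.toFinset := by
    intro j hj
    obtain ⟨w, hw, rfl⟩ := List.mem_map.1 (List.mem_toFinset.1 hj)
    exact List.mem_toFinset.2 (hG w (hx.sub w hw))
  have h2 := card_le_card h1
  have h3 := List.toFinset_card_le I
  rw [List.toFinset_card_of_nodup hx.nodup, List.length_map] at h2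
  omega

theorem psi_le (x : List (ι × β)) :
    ((List.range (I.length + 1)).filter (hit ρ I G x)).length ≤ I.length := by
  rw [List.range_succ_eq_map, List.filter_cons]
  have : hit ρ I G x 0 = false := by simp [hit, lev]
  simp only [this, Bool.false_eq_true, if_false]
  simpa using List.length_filter_le (hit ρ I G x) ((List.range I.length).map Nat.succ)

theorem trans_of_move {x x' : List (ι × β)} (hx : Trans ρ G x) (h : x' ∈ moves G x)
    (h' : ρ x' = ρ [] + x'.length) : Trans ρ G x' := by
  simp only [moves, List.mem_flatMap, List.mem_filter, decide_eq_true_eq, List.mem_cons,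
    List.mem_map] at h
  obtain ⟨y, ⟨hy, hy'⟩, h⟩ := h
  rcases h with rfl | ⟨w, _, rfl⟩
  · refine ⟨?_, ?_, h'⟩
    · rw [List.map_cons, List.nodup_cons]
      exact ⟨by simpa using hy', hx.nodup⟩
    · intro w hw
      rcases List.mem_cons.1 hw with rfl | hw
      · exact hy
      · exact hx.sub w hw
  · refine ⟨?_, ?_, h'⟩
    · rw [List.map_cons, List.nodup_cons]
      refine ⟨fun h => hy' ?_, hx.nodup.sublist (List.filter_sublist.map _)⟩
      obtain ⟨v, hv, e⟩ := List.mem_map.1 h
      exact ⟨v, (List.mem_filter.1 hv).1, e⟩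
    · intro v hv
      rcases List.mem_cons.1 hv with rfl | hv
      · exact hy
      · exact hx.sub v (List.mem_filter.1 hv).1

theorem filter_length_lt {α : Type} {p q : α → Bool} {l : List α}
    (h : ∀ a ∈ l, p a = true → q a = true) {b : α} (hb : b ∈ l) (hq : q b = true)
    (hp : ¬ p b = true) : (l.filter p).length < (l.filter q).length := by
  have e : l.filter p = (l.filter q).filter p := by
    rw [List.filter_filter]
    refine List.filter_congr fun a ha => ?_
    cases hpa : p a
    · simp
    · simp [h a ha hpa]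
  rw [e, List.length_filter_lt_length_iff_exists]
  exact ⟨b, List.mem_filter.2 ⟨hb, hq⟩, hp⟩

theorem hit_iff {x : List (ι × β)} {i : ℕ} (hi : i ≤ I.length) :
    hit ρ I G x i = true ↔ ∃ j ∈ lev ρ I G x i, j ∉ x.map Prod.fst := by
  simp only [hit, min_eq_left hi, List.any_eq_true, decide_eq_true_eq]

theorem exists_move (hr : RankFn r) (hρ : ∀ l, ρ l = r l.toFinset) {x : List (ι × β)}
    (hx : Trans ρ G x) (h : ∃ j ∈ lev ρ I G x I.length, j ∉ x.map Prod.fst) :
    ∃ x' ∈ moves G x, ρ x' = ρ [] + x'.length ∧ phi ρ I G x < phi ρ I G x' := by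
  classical
  have hex : ∃ s, ∃ j ∈ lev ρ I G x s, j ∉ x.map Prod.fst := ⟨_, h⟩
  have hs := Nat.find_spec hex
  have hmin := fun m => Nat.find_min hex (m := m)
  have hle : Nat.find hex ≤ I.length := Nat.find_min' hex h
  generalize Nat.find hex = s at hs hmin hle
  obtain ⟨j, hj, hj'⟩ := hs
  cases s with
  | zero => simp [lev] at hj
  | succ s =>
  rw [lev_succ, mem_levStep hρ] at hj
  obtain ⟨hjI, y, hy, rfl, hlt⟩ := hj
  have hyx : y ∉ x := fun h => hj' (List.mem_map.2 ⟨y, h, rfl⟩)
  have hind := hx.indep' hρ
  have hyG : y ∈ G.filter fun y => decide (y.1 ∉ x.map Prod.fst) :=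
    List.mem_filter.2 ⟨hy, by simpa using hj'⟩
  by_cases hcl : r (insert y x.toFinset) ≤ r x.toFinset
  · have hw : ∃ w ∈ x.toFinset.filter (fun w => w.1 ∈ lev ρ I G x s),
        r (x.toFinset.erase w) < r (insert y (x.toFinset.erase w)) := by
      by_contra hw
      push Not at hw
      have := hr.cl_sdiff hind hcl hw
      have e : x.toFinset \ x.toFinset.filter (fun w => w.1 ∈ lev ρ I G x s)
          = x.toFinset.filter fun w => w.1 ∉ lev ρ I G x s := by
        ext v
        simp only [mem_sdiff, mem_filter]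
        tauto
      rw [e] at this
      omega
    obtain ⟨w, hw, hw'⟩ := hw
    obtain ⟨hwx, hws⟩ := mem_filter.1 hw
    have hwx' := List.mem_toFinset.1 hwx
    set x' := y :: x.filter fun v => decide (v ≠ w) with hx'
    have e1 : x'.toFinset = insert y (x.toFinset.erase w) := by
      ext v
      simp [hx', and_comm]
    have e2 : (x.filter fun v => decide (v ≠ w)).length + 1 = x.length := by
      rw [← List.toFinset_card_of_nodup (hx.nodup'.filter _), ← List.toFinset_card_of_nodup hx.nodup',
        ← card_erase_add_one hwx]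
      congr 2
      ext v
      simp [and_comm]
    have e3 : x'.length = x.length := by simp [hx', ← e2]
    refine ⟨x', ?_, ?_, ?_⟩
    · exact List.mem_flatMap.2 ⟨y, hyG, List.mem_cons_of_mem _ (List.mem_map.2 ⟨w, hwx', rfl⟩)⟩
    · rw [hρ, hρ, e1, e3, ← List.toFinset_card_of_nodup hx.nodup']
      have c1 := hr.indep_subset hind (erase_subset w _)
      have c2 := card_erase_add_one hwx
      have c3 := hr.ins (x.toFinset.erase w) y
      simp only [List.toFinset_nil]
      omega
    · have hsub : ∀ i ≤ s, ∀ j ∈ lev ρ I G x i, j ∈ lev ρ I G x' i := by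
        intro i
        induction i with
        | zero => simp [lev]
        | succ i ih =>
          intro hi j hj
          have ih' := ih (by omega)
          rw [lev_succ, mem_levStep hρ] at hj ⊢
          obtain ⟨h1, z, hz, h2, h3⟩ := hj
          refine ⟨h1, z, hz, h2, ?_⟩
          by_contra h4
          refine absurd (hr.cl_trans (y := y) ?_ ?_ (not_lt.1 h4)) (not_le.2 h3)
          · intro v hv
            rw [e1] at hv
            simp only [mem_filter, mem_insert, mem_erase] at hv ⊢
            rcases hv with ⟨rfl | hv, hv'⟩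
            · exact Or.inl rfl
            · exact Or.inr ⟨hv.2, fun h5 => hv' (ih' _ h5)⟩
          · by_contra h5
            refine hmin (i + 1) (by omega) ⟨y.1, ?_, hj'⟩
            rw [lev_succ, mem_levStep hρ]
            exact ⟨hjI, y, hy, rfl, not_le.1 h5⟩
      have hun : w.1 ∉ x'.map Prod.fst := by
        rw [hx', List.map_cons, List.mem_cons, not_or]
        refine ⟨fun h => hj' (h ▸ List.mem_map.2 ⟨w, hwx', rfl⟩), fun h => ?_⟩
        obtain ⟨v, hv, e⟩ := List.mem_map.1 h
        obtain ⟨hv1, hv2⟩ := List.mem_filter.1 hv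
        exact (of_decide_eq_true hv2) (List.inj_on_of_nodup_map hx.nodup hv1 hwx' e)
      unfold phi
      rw [e3]
      refine Nat.add_lt_add_left (filter_length_lt (b := s) ?_ (by simp; omega) ?_ ?_) _
      · intro i hi hhit
        have hi' : i ≤ I.length := by simpa [Nat.lt_succ_iff] using hi
        rw [hit_iff hi'] at hhit ⊢
        have : s ≤ i := by
          by_contra h
          exact hmin i (by omega) hhit
        exact ⟨w.1, lev_mono hr hρ x' this _ (hsub s le_rfl _ hws), hun⟩
      · rw [hit_iff (by omega)]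
        exact ⟨w.1, hsub s le_rfl _ hws, hun⟩
      · rw [hit_iff (by omega)]
        exact hmin s (by omega)
  · refine ⟨y :: x, List.mem_flatMap.2 ⟨y, hyG, List.mem_cons_self⟩, ?_, ?_⟩
    · rw [hρ, hρ, List.toFinset_cons, List.length_cons, ← List.toFinset_card_of_nodup hx.nodup']
      have c3 := hr.ins x.toFinset y
      simp only [List.toFinset_nil]
      omega
    · have := psi_le (ρ := ρ) (I := I) (G := G) x
      unfold phi
      rw [List.length_cons]
      nlinarith

theorem iterate_fix {σ : Type} {f : σ → σ} {P : σ → Prop} {φ : σ → ℕ} {N : ℕ} {s : σ} (h0 : P s)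
    (hP : ∀ s, P s → P (f s)) (hφ : ∀ s, P s → f s = s ∨ φ s < φ (f s))
    (hN : ∀ s, P s → φ s < N) : P (f^[N] s) ∧ f (f^[N] s) = f^[N] s := by
  have key : ∀ k, P (f^[k] s) ∧ (f (f^[k] s) = f^[k] s ∨ k < φ (f (f^[k] s))) := by
    intro k
    induction k with
    | zero =>
      refine ⟨h0, ?_⟩
      rcases hφ s h0 with h | h
      · exact Or.inl h
      · exact Or.inr (by simp only [Function.iterate_zero, id]; omega)
    | succ k ih =>
      obtain ⟨i1, i2⟩ := ih
      rw [Function.iterate_succ_apply']
      refine ⟨hP _ i1, ?_⟩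
      rcases i2 with h | h
      · left; rw [h, h]
      · rcases hφ _ (hP _ i1) with h' | h'
        · exact Or.inl h'
        · exact Or.inr (by omega)
  obtain ⟨i1, i2⟩ := key N
  refine ⟨i1, i2.resolve_right fun h => ?_⟩
  have := hN _ (hP _ i1)
  omega

theorem radoStep_cases (x : List (ι × β)) :
    (radoStep ρ I G x = x ∧
      ¬ ∃ x' ∈ moves G x, ρ x' = ρ [] + x'.length ∧ phi ρ I G x < phi ρ I G x') ∨
    (radoStep ρ I G x ∈ moves G x ∧ ρ (radoStep ρ I G x) = ρ [] + (radoStep ρ I G x).length ∧
      phi ρ I G x < phi ρ I G (radoStep ρ I G x)) := by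
  by_cases h : ∃ x' ∈ moves G x, ρ x' = ρ [] + x'.length ∧ phi ρ I G x < phi ρ I G x'
  · right
    have := headD_filter (l := moves G x) (p := fun x' =>
      decide (ρ x' = ρ [] + x'.length ∧ phi ρ I G x < phi ρ I G x')) x (by simpa using h)
    exact ⟨this.1, of_decide_eq_true this.2⟩
  · left
    exact ⟨headD_filter_none x (by simpa using h), h⟩

theorem rado_spec (hr : RankFn r) (hρ : ∀ l, ρ l = r l.toFinset) (hG : ∀ y ∈ G, y.1 ∈ I) :
    Trans ρ G (radoX ρ I G) ∧ (∀ j ∈ radoY ρ I G, j ∈ I) ∧
    r (gc G (radoY ρ I G).toFinset) + (radoY ρ I G).toFinset.card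
      ≤ r ∅ + (radoX ρ I G).length ∧
    ∀ Y : Finset ι, r ∅ + (radoX ρ I G).length ≤ r (gc G Y) + Y.card ∧
      (r (gc G Y) + Y.card ≤ r ∅ + (radoX ρ I G).length → (radoY ρ I G).toFinset ⊆ Y) := by
  unfold gc
  obtain ⟨hx, hfix⟩ := iterate_fix (f := radoStep ρ I G) (P := Trans ρ G) (φ := phi ρ I G)
    (N := (I.length + 1) * (I.length + 1)) (s := []) ⟨by simp, by simp, by simp⟩
    (fun s hs => by
      rcases radoStep_cases (ρ := ρ) (I := I) (G := G) s with h | h
      · rwa [h.1]
      · exact trans_of_move hs h.1 h.2.1)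
    (fun s _ => (radoStep_cases s).imp (fun h => h.1) fun h => h.2.2)
    (fun s hs => by
      have h1 := hs.length_le hG
      have h2 := psi_le (ρ := ρ) (I := I) (G := G) s
      unfold phi
      nlinarith)
  change Trans ρ G (radoX ρ I G) at hx
  change radoStep ρ I G (radoX ρ I G) = radoX ρ I G at hfix
  unfold radoY
  set x := radoX ρ I G
  have hno : ∀ j ∈ lev ρ I G x I.length, j ∈ x.map Prod.fst := by
    by_contra h
    push Not at h
    have := exists_move hr hρ hx h
    rcases radoStep_cases (ρ := ρ) (I := I) (G := G) x with h | h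
    · exact h.2 this
    · rw [hfix] at h
      exact lt_irrefl _ h.2.2
  have hind := hx.indep' hρ
  have hcard := List.toFinset_card_of_nodup hx.nodup'
  have hinj : Set.InjOn Prod.fst (x.toFinset : Set (ι × β)) := fun a ha b hb e =>
    List.inj_on_of_nodup_map hx.nodup (by simpa using ha) (by simpa using hb) e
  have hin : ∀ Y : Finset ι, (x.toFinset.filter fun w => w.1 ∈ Y).card
      = (Y.filter fun j => j ∈ x.map Prod.fst).card := by
    intro Y
    rw [← card_image_of_injOn (hinj.mono (coe_subset.2 (filter_subset _ _)))]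
    congr 1
    ext j
    simp only [mem_image, mem_filter, List.mem_toFinset, List.mem_map]
    constructor
    · rintro ⟨a, ⟨h1, h2⟩, rfl⟩
      exact ⟨h2, a, h1, rfl⟩
    · rintro ⟨h2, a, h1, rfl⟩
      exact ⟨a, ⟨h1, h2⟩, rfl⟩
  have hout : ∀ Y : Finset ι, r (x.toFinset.filter fun w => w.1 ∉ Y)
      + (Y.filter fun j => j ∈ x.map Prod.fst).card = r ∅ + x.length := by
    intro Y
    have c1 := hr.indep_subset hind (filter_subset (fun w => w.1 ∉ Y) _)
    have c2 := card_filter_add_card_filter_not (s := x.toFinset) (fun w => w.1 ∈ Y)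
    have c3 := hin Y
    omega
  have hxG : ∀ Y : Finset ι, (x.toFinset.filter fun w => w.1 ∉ Y)
      ⊆ G.toFinset.filter fun y => y.1 ∉ Y := fun Y =>
    filter_subset_filter _ fun w hw => List.mem_toFinset.2 (hx.sub w (List.mem_toFinset.1 hw))
  refine ⟨hx, lev_sub x _, ?_, fun Y => ⟨?_, fun hY => ?_⟩⟩
  · set Y := (lev ρ I G x I.length).toFinset with hY
    have c1 := hout Y
    rw [filter_true_of_mem fun j hj => hno j (List.mem_toFinset.1 hj)] at c1
    have c2 : r ((x.toFinset.filter fun w => w.1 ∉ Y) ∪ G.toFinset.filter fun y => y.1 ∉ Y)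
        ≤ r (x.toFinset.filter fun w => w.1 ∉ Y) := by
      refine hr.cl_union fun y hy => ?_
      obtain ⟨hy1, hy2⟩ := mem_filter.1 hy
      have hy1 := List.mem_toFinset.1 hy1
      by_contra h
      refine hy2 (List.mem_toFinset.2 (lev_stable hr hρ x _ ?_))
      rw [lev_succ, mem_levStep hρ]
      refine ⟨hG y hy1, y, hy1, rfl, ?_⟩
      simpa [hY] using h
    rw [union_eq_right.2 (hxG Y)] at c2
    rw [← hY] at c1
    omega
  · have c1 := hout Y
    have c2 := hr.mono _ _ (hxG Y)
    have c3 := card_filter_le Y fun j => j ∈ x.map Prod.fst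
    omega
  · have c1 := hout Y
    have c2 := hr.mono _ _ (hxG Y)
    have c3 := card_filter_le Y fun j => j ∈ x.map Prod.fst
    have key : ∀ i, ∀ j ∈ lev ρ I G x i, j ∈ Y := by
      intro i
      induction i with
      | zero => simp [lev]
      | succ i ih =>
        intro j hj
        rw [lev_succ, mem_levStep hρ] at hj
        obtain ⟨_, y, hy, rfl, hlt⟩ := hj
        by_contra hyY
        refine absurd (hr.cl_mono (A := x.toFinset.filter fun w => w.1 ∉ Y) ?_ ?_) (not_le.2 hlt)
        · intro w hw
          simp only [mem_filter] at hw ⊢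
          exact ⟨hw.1, fun h => hw.2 (ih _ h)⟩
        · have : r (insert y (x.toFinset.filter fun w => w.1 ∉ Y))
              ≤ r (G.toFinset.filter fun y => y.1 ∉ Y) :=
            hr.mono _ _ (insert_subset (mem_filter.2 ⟨List.mem_toFinset.2 hy, hyY⟩) (hxG Y))
          omega
    exact fun j hj => key _ j (List.mem_toFinset.1 hj)

end Algo

end Pool.Agent.MP_0c5eb8_lc.H36
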