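import Pool.Agent.MP_0c5eb8_lc.H36.Rado

/-!
The local search runs in polynomial time when the rank oracle does.
-/

set_option autoImplicit false
set_option linter.unusedSectionVars false

namespace Pool.Agent.MP_0c5eb8_lc.H36

open Pool.Agent.Shared.H56 Polynomial

variable {α ι β : Type} [N487b59b3 α] [N487b59b3 ι] [N487b59b3 β] [DecidableEq ι] [DecidableEq (ι × β)]

@[fun_prop] theorem pt_off {x : α → List (ι × β)} {Y : α → List ι} (hx : PT x) (hY : PT Y) :
    PT fun a => off (x a) (Y a) := by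
  unfold off
  fun_prop

theorem pt_levStep {ρ : α → List (ι × β) → ℕ} {I : α → List ι} {G x : α → List (ι × β)}
    {Y : α → List ι} (hρ : PT fun p : α × List (ι × β) => ρ p.1 p.2) (hI : PT I) (hG : PT G)
    (hx : PT x) (hY : PT Y) : PT fun a => levStep (ρ a) (I a) (G a) (x a) (Y a) := by
  unfold levStep
  have h1 : PT fun p : (α × ι) × ι × β => ρ p.1.1 (off (x p.1.1) (Y p.1.1)) :=
    hρ.comp (g := fun p : (α × ι) × ι × β => (p.1.1, off (x p.1.1) (Y p.1.1))) (by fun_prop)
  have h2 : PT fun p : (α × ι) × ι × β => ρ p.1.1 (p.2 :: off (x p.1.1) (Y p.1.1)) :=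
    hρ.comp (g := fun p : (α × ι) × ι × β => (p.1.1, p.2 :: off (x p.1.1) (Y p.1.1))) (by fun_prop)
  refine PT.filter (PT.any (PT.decAnd (by fun_prop) (PT.decLt h1 h2)) (by fun_prop)) hI

theorem pt_lev {ρ : α → List (ι × β) → ℕ} {I : α → List ι} {G x : α → List (ι × β)}
    {i : α → ℕ} (hρ : PT fun p : α × List (ι × β) => ρ p.1 p.2) (hI : PT I) (hG : PT G)
    (hx : PT x) (hi : PT fun a => un (i a)) : PT fun a => lev (ρ a) (I a) (G a) (x a) (i a) := by
  unfold lev
  refine PT.iterate_un (f := fun a Y => levStep (ρ a) (I a) (G a) (x a) Y) ?_ (by fun_prop) hi ?_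
  · exact pt_levStep (ρ := fun p : α × List ι => ρ p.1)
      (hρ.comp (g := fun p : (α × List ι) × List (ι × β) => (p.1.1, p.2)) (by fun_prop))
      (by fun_prop) (by fun_prop) (by fun_prop) (by fun_prop)
  · obtain ⟨B, hB⟩ := hI.size
    refine ⟨B, fun a k _ => le_trans ?_ (hB a)⟩
    cases k with
    | zero => simp
    | succ k =>
      rw [Function.iterate_succ_apply']
      exact sz_le_of_sublist List.filter_sublist

theorem pt_phi {ρ : α → List (ι × β) → ℕ} {I : α → List ι} {G x : α → List (ι × β)}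
    (hρ : PT fun p : α × List (ι × β) => ρ p.1 p.2) (hI : PT I) (hG : PT G)
    (hx : PT x) : PT fun a => phi (ρ a) (I a) (G a) (x a) := by
  unfold phi hit
  have h1 : PT fun p : α × ℕ => lev (ρ p.1) (I p.1) (G p.1) (x p.1) (min p.2 (I p.1).length) :=
    pt_lev (ρ := fun p : α × ℕ => ρ p.1)
      (hρ.comp (g := fun p : (α × ℕ) × List (ι × β) => (p.1.1, p.2)) (by fun_prop))
      (by fun_prop) (by fun_prop) (by fun_prop) (by fun_prop)
  refine PT.add (by fun_prop) (PT.length (PT.filter (PT.any ?_ h1) (by fun_prop)))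
  fun_prop

@[fun_prop] theorem pt_moves {G x : α → List (ι × β)} (hG : PT G) (hx : PT x) :
    PT fun a => moves (G a) (x a) := by
  unfold moves
  fun_prop

theorem pt_radoStep {ρ : α → List (ι × β) → ℕ} {I : α → List ι} {G x : α → List (ι × β)}
    (hρ : PT fun p : α × List (ι × β) => ρ p.1 p.2) (hI : PT I) (hG : PT G)
    (hx : PT x) : PT fun a => radoStep (ρ a) (I a) (G a) (x a) := by
  unfold radoStep
  have h0 : PT fun p : α × List (ι × β) => ρ p.1 [] :=
    hρ.comp (g := fun p : α × List (ι × β) => (p.1, [])) (by fun_prop)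
  have hρ' : PT fun p : (α × List (ι × β)) × List (ι × β) => ρ p.1.1 p.2 :=
    hρ.comp (g := fun p : (α × List (ι × β)) × List (ι × β) => (p.1.1, p.2)) (by fun_prop)
  have h1 : PT fun p : α × List (ι × β) => phi (ρ p.1) (I p.1) (G p.1) (x p.1) :=
    pt_phi (ρ := fun p : α × List (ι × β) => ρ p.1) hρ' (by fun_prop) (by fun_prop) (by fun_prop)
  have h2 : PT fun p : α × List (ι × β) => phi (ρ p.1) (I p.1) (G p.1) p.2 :=
    pt_phi (ρ := fun p : α × List (ι × β) => ρ p.1) hρ' (by fun_prop) (by fun_prop) (by fun_prop)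
  refine PT.headD (PT.filter (PT.decAnd (PT.decEq hρ (PT.add h0 (by fun_prop)))
    (PT.decLt h1 h2)) (by fun_prop)) hx

theorem sz_radoStep_le (ρ : List (ι × β) → ℕ) (I : List ι) (G x : List (ι × β)) :
    sz (radoStep ρ I G x) ≤ sz x + (2 * sz G + 1) := by
  rcases radoStep_cases (ρ := ρ) (I := I) (G := G) x with h | h
  · rw [h.1]; omega
  · have := h.1
    generalize radoStep ρ I G x = x' at this
    simp only [moves, List.mem_flatMap, List.mem_filter, decide_eq_true_eq, List.mem_cons,
      List.mem_map] at this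
    obtain ⟨y, ⟨hy, _⟩, h⟩ := this
    have h1 := sz_le_of_mem hy
    rcases h with rfl | ⟨w, _, rfl⟩
    · rw [sz_cons]; omega
    · have := sz_le_of_sublist (List.filter_sublist (l := x) (p := fun v => decide (v ≠ w)))
      rw [sz_cons]; omega

theorem pt_radoX {ρ : α → List (ι × β) → ℕ} {I : α → List ι} {G : α → List (ι × β)}
    (hρ : PT fun p : α × List (ι × β) => ρ p.1 p.2) (hI : PT I) (hG : PT G) :
    PT fun a => radoX (ρ a) (I a) (G a) := by
  unfold radoX
  refine PT.iterate_add (f := fun a x => radoStep (ρ a) (I a) (G a) x) ?_ (by fun_prop)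
    (by fun_prop) ?_
  · exact pt_radoStep (ρ := fun p : α × List (ι × β) => ρ p.1)
      (hρ.comp (g := fun p : (α × List (ι × β)) × List (ι × β) => (p.1.1, p.2)) (by fun_prop))
      (by fun_prop) (by fun_prop) (by fun_prop)
  · obtain ⟨B, hB⟩ := hG.size
    refine ⟨2 * B + 1, fun a s => (sz_radoStep_le _ _ _ _).trans ?_⟩
    have := hB a
    simp only [eval_add, eval_mul, eval_ofNat, eval_one]
    omega

theorem pt_radoY {ρ : α → List (ι × β) → ℕ} {I : α → List ι} {G : α → List (ι × β)}
    (hρ : PT fun p : α × List (ι × β) => ρ p.1 p.2) (hI : PT I) (hG : PT G) :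
    PT fun a => radoY (ρ a) (I a) (G a) :=
  pt_lev hρ hI hG (pt_radoX hρ hI hG) (by fun_prop)

end Pool.Agent.MP_0c5eb8_lc.H36
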