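import Pool.Agent.MP_0c5eb8_lc.H36.RadoPT

/-!
Components with their witness families, and the rounding of a linear configuration to lines.
-/

set_option autoImplicit false
set_option linter.unusedSectionVars false

namespace Pool.Agent.MP_0c5eb8_lc.H36

open Finset

/-- A component: a list `T` of odd length, a list `P`, and a family of lists of lines. -/
abbrev Comp := List Vec × List Vec × List (List Line)

instance instDecEqLine : DecidableEq Line := inferInstance
instance instDecEqFam : DecidableEq (List (List Line)) := inferInstance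
instance instDecEqComp : DecidableEq Comp := inferInstance

/-- Half of the length of `T`. -/
def ck (c : Comp) : ℕ := c.1.length / 2

/-- The vectors of a list of lines. -/
def flat (M : List Line) : List Vec := M.flatMap fun e => [e.1, e.2]

/-- The space of a component. -/
def cW (n : ℕ) (c : Comp) : Sp n := sp n c.1 ⊔ sp n c.2.1

/-- The properties of a component. -/
structure Good (n : ℕ) (E : List Line) (c : Comp) : Prop where
  odd : c.1.length = 2 * ck c + 1
  nodup : c.1.Nodup
  sub : ∀ F ∈ c.2.2, ∀ e ∈ F, e ∈ E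
  le : ∀ F ∈ c.2.2, sp n (flat F) ≤ cW n c
  ex : ∀ (O : Sp n) (u : ℕ), u ≤ 1 → dm (O ⊔ sp n c.2.1) ≤ dm O + u →
    dm O + 2 * (ck c + u) ≤ dm (O ⊔ cW n c) →
    ∃ F ∈ c.2.2, F.length = ck c + u ∧ dm (O ⊔ sp n (flat F)) = dm O + 2 * F.length

variable {n : ℕ}

@[simp] theorem flat_nil : flat [] = [] := rfl
@[simp] theorem flat_cons (e : Line) (M : List Line) : flat (e :: M) = e.1 :: e.2 :: flat M := rfl
@[simp] theorem flat_append (M M' : List Line) : flat (M ++ M') = flat M ++ flat M' := by
  simp [flat]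
@[simp] theorem length_flat (M : List Line) : (flat M).length = 2 * M.length := by
  induction M with
  | nil => rfl
  | cons e M ih => simp [ih]; omega

theorem indep_sublist {O : Sp n} {L L' : List Vec} (h : L'.Sublist L)
    (hL : dm (O ⊔ sp n L) = dm O + L.length) : dm (O ⊔ sp n L') = dm O + L'.length := by
  obtain ⟨L'', hp⟩ := h.exists_perm_append
  have e : sp n L = sp n L' ⊔ sp n L'' := by
    rw [← sp_append]
    exact sp_congr fun a => hp.mem_iff
  have h1 := dm_sup_sp_le (O ⊔ sp n L') L''
  have h2 := dm_sup_sp_le O L'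
  have h3 := hp.length_eq
  rw [e, ← sup_assoc] at hL
  rw [List.length_append] at h3
  omega

/-- A member of the family of `c` with `m` vectors that is independent modulo `O`. -/
def pick (n : ℕ) (O : List Vec) (c : Comp) (m : ℕ) : List Line :=
  (c.2.2.filter fun F => decide (2 * F.length = m ∧ rk n (O ++ flat F) = rk n O + m)).headD []

/-- One step of the rounding. -/
def roundStep (n : ℕ) (R : List Vec) (s : List Line × List (Comp × List Vec))
    (p : Comp × List Vec) : List Line × List (Comp × List Vec) :=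
  (pick n (R ++ flat s.1 ++ s.2.tail.flatMap Prod.snd) p.1 p.2.length ++ s.1, s.2.tail)

/-- Replace the vectors attached to each component by a member of its family. -/
def round (n : ℕ) (R : List Vec) (L : List (Comp × List Vec)) : List Line :=
  (L.foldl (roundStep n R) ([], L)).1

theorem item_le {E : List Line} {c : Comp} (hc : Good n E c) {O : Sp n} (hO : sp n c.2.1 ≤ O)
    {g : List Vec} (hg : sp n g ≤ cW n c) {u : ℕ} (_hu : u ≤ 1) (hl : g.length = 2 * (ck c + u)) :
    dm (O ⊔ sp n g) ≤ dm O + (2 * ck c + u) := by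
  have h1 := dm_sup_sp_le O g
  have h2 := dm_sup_sp_le O c.1
  have h3 : dm (O ⊔ sp n g) ≤ dm (O ⊔ sp n c.1) := dm_mono (by unfold cW at hg; order)
  have h4 := hc.odd
  omega

theorem items_le {E : List Line} {up : Comp × List Vec → ℕ} {L : List (Comp × List Vec)} {O : Sp n}
    (h : ∀ p ∈ L, Good n E p.1 ∧ sp n p.1.2.1 ≤ O ∧ sp n p.2 ≤ cW n p.1 ∧ up p ≤ 1 ∧
      p.2.length = 2 * (ck p.1 + up p)) :
    dm (O ⊔ sp n (L.flatMap Prod.snd)) + (L.map up).sum ≤ dm O + (L.flatMap Prod.snd).length := by
  induction L with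
  | nil => simp
  | cons p L ih =>
    have ih' := ih fun q hq => h q (List.mem_cons_of_mem _ hq)
    obtain ⟨h1, h2, h3, h4, h5⟩ := h p List.mem_cons_self
    have h6 := item_le h1 (O := O ⊔ sp n (L.flatMap Prod.snd)) (by order) h3 h4 h5
    have e : O ⊔ sp n ((p :: L).flatMap Prod.snd) = O ⊔ sp n (L.flatMap Prod.snd) ⊔ sp n p.2 := by
      rw [List.flatMap_cons, sp_append]; order
    rw [e]
    simp only [List.map_cons, List.sum_cons, List.flatMap_cons, List.length_append]
    omega

theorem round_aux {E : List Line} {up : Comp × List Vec → ℕ} {X W : Sp n} {R : List Vec}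
    (L : List (Comp × List Vec)) (acc : List Line)
    (h : ∀ p ∈ L, Good n E p.1 ∧ sp n p.1.2.1 ≤ X ∧ sp n p.2 ≤ cW n p.1 ∧ up p ≤ 1 ∧
      p.2.length = 2 * (ck p.1 + up p)) (hW : ∀ p ∈ L, cW n p.1 ≤ W)
    (hind : dm (sp n R ⊔ sp n (flat acc) ⊔ sp n (L.flatMap Prod.snd))
      = dm (sp n R ⊔ sp n (flat acc)) + (L.flatMap Prod.snd).length)
    (hup : dm (sp n R ⊔ sp n (flat acc) ⊔ X) ≤ dm (sp n R ⊔ sp n (flat acc)) + (L.map up).sum) :
    ∃ F, (L.foldl (roundStep n R) (acc, L)).1 = F ++ acc ∧ (∀ e ∈ F, e ∈ E) ∧ sp n (flat F) ≤ W ∧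
      2 * F.length = (L.flatMap Prod.snd).length ∧
      dm (sp n R ⊔ sp n (flat acc) ⊔ sp n (flat F))
        = dm (sp n R ⊔ sp n (flat acc)) + 2 * F.length := by
  induction L generalizing acc with
  | nil => exact ⟨[], by simp⟩
  | cons p L ih =>
    have h' := fun q hq => h q (List.mem_cons_of_mem _ hq)
    obtain ⟨h1, h2, h3, h4, h5⟩ := h p List.mem_cons_self
    set O := sp n R ⊔ sp n (flat acc) with hO
    set S := sp n (L.flatMap Prod.snd) with hS
    simp only [List.flatMap_cons, sp_append, List.length_append, List.map_cons, List.sum_cons]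
      at hind hup ⊢
    rw [← hS] at hind
    have a1 := dm_sup_sp_le (O ⊔ S) p.2
    have a2 := dm_sup_sp_le O (L.flatMap Prod.snd)
    rw [← hS] at a2
    have e1 : O ⊔ (sp n p.2 ⊔ S) = O ⊔ S ⊔ sp n p.2 := by order
    rw [e1] at hind
    have a3 := items_le (E := E) (up := up) (L := L) (O := O ⊔ X) fun q hq => by
      obtain ⟨b1, b2, b3⟩ := h' q hq
      exact ⟨b1, by order, b3⟩
    rw [← hS] at a3
    have a4 : dm (O ⊔ S ⊔ sp n p.1.2.1) ≤ dm (O ⊔ X ⊔ S) := dm_mono (by order)
    have a5 : dm (O ⊔ S ⊔ sp n p.2) ≤ dm (O ⊔ S ⊔ cW n p.1) := dm_mono (by order)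
    obtain ⟨F, hF, hF1, hF2⟩ := h1.ex (O ⊔ S) (up p) h4 (by omega) (by omega)
    have hex : ∃ F ∈ p.1.2.2, decide (2 * F.length = p.2.length ∧
        rk n (R ++ flat acc ++ L.flatMap Prod.snd ++ flat F)
          = rk n (R ++ flat acc ++ L.flatMap Prod.snd) + p.2.length) = true := by
      refine ⟨F, hF, decide_eq_true ⟨by omega, ?_⟩⟩
      simp only [rk_eq, sp_append]
      rw [← hO, ← hS, hF2]
      omega
    obtain ⟨b1, b2⟩ := headD_filter [] hex
    have e2 : roundStep n R (acc, p :: L) p
        = (pick n (R ++ flat acc ++ L.flatMap Prod.snd) p.1 p.2.length ++ acc, L) := rfl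
    rw [List.foldl_cons, e2]
    change pick n (R ++ flat acc ++ L.flatMap Prod.snd) p.1 p.2.length ∈ _ at b1
    change decide (2 * (pick n (R ++ flat acc ++ L.flatMap Prod.snd) p.1 p.2.length).length = _ ∧
      rk n (_ ++ flat (pick n (R ++ flat acc ++ L.flatMap Prod.snd) p.1 p.2.length)) = _) = true
      at b2
    generalize pick n (R ++ flat acc ++ L.flatMap Prod.snd) p.1 p.2.length = F0 at b1 b2 ⊢
    obtain ⟨b2, b3⟩ := of_decide_eq_true b2
    simp only [rk_eq, sp_append] at b3
    rw [← hO, ← hS] at b3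
    have e3 : sp n R ⊔ sp n (flat (F0 ++ acc)) = O ⊔ sp n (flat F0) := by
      rw [flat_append, sp_append]; order
    have a6 := dm_sup_sp_le (O ⊔ sp n (flat F0)) (L.flatMap Prod.snd)
    rw [← hS] at a6
    have a7 := dm_sup_sp_le O (flat F0)
    rw [length_flat] at a7
    have e4 : O ⊔ sp n (flat F0) ⊔ S = O ⊔ S ⊔ sp n (flat F0) := by order
    have a8 := item_le h1 (O := O ⊔ X) (by order) (h1.le F0 b1) h4 (by rw [length_flat]; omega)
    have e5 : O ⊔ sp n (flat F0) ⊔ X = O ⊔ X ⊔ sp n (flat F0) := by order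
    obtain ⟨F', c1, c2, c3, c4, c5⟩ := ih (F0 ++ acc) h' (fun q hq => hW q (List.mem_cons_of_mem _ hq))
      (by rw [e3, e4]; rw [e4] at a6; omega) (by rw [e3, e5]; rw [e4] at a6; omega)
    refine ⟨F' ++ F0, by rw [c1, List.append_assoc], ?_, ?_, ?_, ?_⟩
    · intro e he
      rcases List.mem_append.1 he with he | he
      · exact c2 e he
      · exact h1.sub F0 b1 e he
    · have := h1.le F0 b1
      have := hW p List.mem_cons_self
      rw [flat_append, sp_append]
      order
    · rw [List.length_append]; omega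
    · rw [e3] at c5
      have e6 : O ⊔ sp n (flat (F' ++ F0)) = O ⊔ sp n (flat F0) ⊔ sp n (flat F') := by
        rw [flat_append, sp_append]; order
      rw [e6, c5, List.length_append]
      rw [e4] at a6
      omega

theorem round_spec {E : List Line} {up : Comp × List Vec → ℕ} {X W : Sp n} {R : List Vec}
    {L : List (Comp × List Vec)}
    (h : ∀ p ∈ L, Good n E p.1 ∧ sp n p.1.2.1 ≤ X ∧ sp n p.2 ≤ cW n p.1 ∧ up p ≤ 1 ∧
      p.2.length = 2 * (ck p.1 + up p)) (hW : ∀ p ∈ L, cW n p.1 ≤ W)
    (hind : dm (sp n R ⊔ sp n (L.flatMap Prod.snd)) = dm (sp n R) + (L.flatMap Prod.snd).length)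
    (hup : dm (sp n R ⊔ X) ≤ dm (sp n R) + (L.map up).sum) :
    (∀ e ∈ round n R L, e ∈ E) ∧ sp n (flat (round n R L)) ≤ W ∧
      2 * (round n R L).length = (L.flatMap Prod.snd).length ∧
      dm (sp n R ⊔ sp n (flat (round n R L))) = dm (sp n R) + 2 * (round n R L).length := by
  obtain ⟨F, c1, c2, c3, c4, c5⟩ := round_aux (R := R) L [] h hW (by simpa using hind)
    (by simpa using hup)
  have : round n R L = F := by simpa [round] using c1
  rw [this]
  exact ⟨c2, c3, c4, by simpa using c5⟩

section PT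

open Pool.Agent.Shared.H56 Polynomial

variable {α : Type} [N487b59b3 α]

@[fun_prop] theorem pt_flat {M : α → List Line} (hM : PT M) : PT fun a => flat (M a) := by
  unfold flat
  fun_prop

@[fun_prop] theorem pt_ck {c : α → Comp} (hc : PT c) : PT fun a => ck (c a) := by
  unfold ck
  fun_prop

@[fun_prop] theorem pt_pick {n : α → ℕ} {O : α → List Vec} {c : α → Comp} {m : α → ℕ}
    (hn : PT fun a => un (n a)) (hO : PT O) (hc : PT c) (hm : PT m) :
    PT fun a => pick (n a) (O a) (c a) (m a) := by
  unfold pick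
  have hn' : PT fun p : α × List Line => un (n p.1) := hn.comp (by fun_prop)
  fun_prop

theorem sz_pick_le (n : ℕ) (O : List Vec) (c : Comp) (m : ℕ) : sz (pick n O c m) ≤ sz c := by
  obtain ⟨T, P, F⟩ := c
  unfold pick
  cases h : F.filter fun F => decide (2 * F.length = m ∧ rk n (O ++ flat F) = rk n O + m) with
  | nil => simp
  | cons x xs =>
    have : x ∈ F := (List.mem_filter.1 (h ▸ List.mem_cons_self)).1
    have := sz_le_of_mem this
    simp only [List.headD_cons, sz_pair]
    omega

theorem sz_roundStep_le (n : ℕ) (R : List Vec) (s : List Line × List (Comp × List Vec))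
    (p : Comp × List Vec) : sz (roundStep n R s p) ≤ sz s + sz p := by
  obtain ⟨s1, s2⟩ := s
  obtain ⟨p1, p2⟩ := p
  have h1 := sz_pick_le n (R ++ flat s1 ++ s2.tail.flatMap Prod.snd) p1 p2.length
  have h2 := sz_le_of_sublist (List.tail_sublist s2)
  simp only [roundStep, sz_pair, sz_append]
  omega

@[fun_prop] theorem pt_round {n : α → ℕ} {R : α → List Vec} {L : α → List (Comp × List Vec)}
    (hn : PT fun a => un (n a)) (hR : PT R) (hL : PT L) : PT fun a => round (n a) (R a) (L a) := by
  unfold round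
  refine PT.fst (PT.foldl_add (f := fun a s p => roundStep (n a) (R a) s p) ?_ (by fun_prop) hL
    ⟨X, fun a c x _ => (sz_roundStep_le _ _ _ _).trans (by simp)⟩)
  unfold roundStep
  have hn' : PT fun p : α × (List Line × List (Comp × List Vec)) × Comp × List Vec =>
      un (n p.1) := hn.comp (by fun_prop)
  fun_prop

theorem sz_round_le (n : ℕ) (R : List Vec) (L : List (Comp × List Vec)) :
    sz (round n R L) ≤ (L.map fun p => sz p.1).sum := by
  have key : ∀ (L : List (Comp × List Vec)) (s : List Line × List (Comp × List Vec)),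
      sz (L.foldl (roundStep n R) s).1 ≤ sz s.1 + (L.map fun p => sz p.1).sum := by
    intro L
    induction L with
    | nil => simp
    | cons p L ih =>
      intro s
      refine (ih _).trans ?_
      have := sz_pick_le n (R ++ flat s.1 ++ s.2.tail.flatMap Prod.snd) p.1 p.2.length
      simp only [roundStep, sz_append, List.map_cons, List.sum_cons]
      omega
  simpa [round] using key L ([], L)

end PT

end Pool.Agent.MP_0c5eb8_lc.H36
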