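import Pool.Agent.MP_0c5eb8_lc.H36.Query

/-!
The merged component and the components made of one line.
-/

set_option autoImplicit false
set_option linter.unusedSectionVars false

namespace Pool.Agent.MP_0c5eb8_lc.H36

open Finset

variable {n : ℕ}

theorem nodup_ext (Z A : List Vec) : (ext n Z A).Nodup := by
  refine foldl_inv (P := fun T : List Vec => T.Nodup) List.nodup_nil fun T a _ hT => ?_
  split_ifs with h
  · exact hT
  · exact List.nodup_cons.2 ⟨fun ha => h (inS_iff.2 (pt_le_sp (List.mem_append_left _ ha))), hT⟩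

/-- The component spanned by `W`, relative to `N`. -/
def mk (n : ℕ) (N W : List Vec) (fam : List (List Line)) : Comp :=
  (ext n N W, ext n [] (inter n W N), fam)

theorem mk_P (N W : List Vec) (fam : List (List Line)) :
    sp n (mk n N W fam).2.1 = sp n W ⊓ sp n N := by
  rw [mk, sp_ext_nil, sp_inter]

theorem mk_T (N W : List Vec) (fam : List (List Line)) :
    sp n N ⊔ sp n (mk n N W fam).1 = sp n N ⊔ sp n W := sup_ext N W

theorem mk_len (N W : List Vec) (fam : List (List Line)) :
    dm (sp n N) + (mk n N W fam).1.length = dm (sp n N ⊔ sp n W) := by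
  rw [← mk_T N W fam]
  exact (dm_ext N W).symm

theorem mk_W (N W : List Vec) (fam : List (List Line)) : cW n (mk n N W fam) = sp n W := by
  have h1 := mk_T (n := n) N W fam
  have h2 : sp n (mk n N W fam).1 ≤ sp n W := sp_ext_le N W
  rw [cW, mk_P, inf_comm, ← sup_inf_assoc_of_le _ h2, sup_comm, h1]
  order

theorem dm_sup_of_inf {O F : Sp n} (h : dm (O ⊓ F) = 0) : dm (O ⊔ F) = dm O + dm F := by
  have := dm_modular O F
  omega

theorem good_mk {E : List Line} {N W : List Vec} {k : ℕ} {fB fN : List (List Line)}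
    (hk : dm (sp n N ⊔ sp n W) = dm (sp n N) + 2 * k + 1)
    (hB : ∀ F ∈ fB, (∀ e ∈ F, e ∈ E) ∧ sp n (flat F) ≤ sp n W ∧ F.length = k ∧
      dm (sp n N ⊔ sp n (flat F)) = dm (sp n N) + 2 * k)
    (hB' : ∀ A : Sp n, A ≤ sp n W → (∀ F ∈ fB, A ≤ sp n N ⊔ sp n (flat F)) → A ≤ sp n N)
    (hN : ∀ F ∈ fN, (∀ e ∈ F, e ∈ E) ∧ sp n (flat F) ≤ sp n W ∧ F.length = k + 1 ∧
      dm (sp n (flat F)) = 2 * (k + 1))
    (hN' : ∀ A : Sp n, (∀ F ∈ fN, sp n (flat F) ⊓ sp n N ≤ A) → sp n W ⊓ sp n N ≤ A)
    (hN'' : ∀ F ∈ fN, dm (sp n (flat F) ⊓ sp n N) ≤ 1) :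
    Good n E (mk n N W (fB ++ fN)) ∧ ck (mk n N W (fB ++ fN)) = k := by
  have h1 := mk_len (n := n) N W (fB ++ fN)
  have hck : ck (mk n N W (fB ++ fN)) = k := by
    unfold ck
    omega
  have hmod := dm_modular (sp n N) (sp n W)
  rw [inf_comm] at hmod
  refine ⟨⟨by omega, nodup_ext _ _, fun F hF => ?_, fun F hF => ?_, fun O u hu h2 h3 => ?_⟩, hck⟩
  · exact (List.mem_append.1 hF).elim (fun h => (hB F h).1) fun h => (hN F h).1
  · rw [mk_W]
    exact (List.mem_append.1 hF).elim (fun h => (hB F h).2.1) fun h => (hN F h).2.1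
  · rw [mk_P] at h2
    rw [mk_W, hck] at h3
    rw [hck]
    have hm := dm_modular O (sp n W)
    rcases Nat.le_one_iff_eq_zero_or_eq_one.1 hu with rfl | rfl
    · have a1 : sp n W ⊓ sp n N ≤ O := le_of_dm h2
      have key : ∃ F ∈ fB, O ⊓ sp n W ⊓ (sp n N ⊔ sp n (flat F)) ≤ sp n N := by
        by_cases hA : O ⊓ sp n W ≤ sp n N
        · by_contra hno
          have : sp n W ≤ sp n N := hB' _ le_rfl fun F hF => absurd ⟨F, hF, by order⟩ hno
          rw [sup_eq_left.2 this] at hk
          omega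
        · have : ∃ F ∈ fB, ¬ O ⊓ sp n W ≤ sp n N ⊔ sp n (flat F) := by
            by_contra hno
            push Not at hno
            exact hA (hB' _ inf_le_right hno)
          obtain ⟨F, hF, hF'⟩ := this
          refine ⟨F, hF, ?_⟩
          have b1 : dm (O ⊓ sp n W ⊓ (sp n N ⊔ sp n (flat F))) + 1 ≤ dm (O ⊓ sp n W) :=
            dm_lt inf_le_left fun h => hF' (by order)
          have b2 : sp n W ⊓ sp n N = O ⊓ sp n W ⊓ (sp n N ⊔ sp n (flat F)) :=
            eq_of_dm (by order) (by omega)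
          order
      obtain ⟨F, hF, hF'⟩ := key
      obtain ⟨_, b2, b3, b4⟩ := hB F hF
      refine ⟨F, List.mem_append_left _ hF, by omega, ?_⟩
      have c1 := dm_modular (sp n N) (sp n (flat F))
      have c2 := dm_sp_le (n := n) (flat F)
      have c3 : dm (O ⊓ sp n (flat F)) ≤ dm (sp n N ⊓ sp n (flat F)) := dm_mono (by order)
      have c4 := dm_modular O (sp n (flat F))
      have c5 : dm (sp n N ⊓ sp n (flat F)) ≤ dm (sp n N) := dm_mono inf_le_left
      rw [length_flat] at c2
      omega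
    · have a1 := dm_modular (O ⊔ sp n W ⊓ sp n N) (sp n W)
      have a2 : O ⊔ sp n W ⊓ sp n N ⊔ sp n W = O ⊔ sp n W := by order
      rw [a2] at a1
      have a3 : sp n W ⊓ sp n N = (O ⊔ sp n W ⊓ sp n N) ⊓ sp n W := eq_of_dm (by order) (by omega)
      have a4 : ¬ sp n W ⊓ sp n N ≤ O := fun h => by
        rw [sup_eq_left.2 h] at a1 a3
        rw [← a3] at a1
        omega
      have : ∃ F ∈ fN, ¬ sp n (flat F) ⊓ sp n N ≤ O := by
        by_contra hno
        push Not at hno
        exact a4 (hN' _ hno)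
      obtain ⟨F, hF, hF'⟩ := this
      obtain ⟨_, b2, b3, b4⟩ := hN F hF
      refine ⟨F, List.mem_append_right _ hF, b3, ?_⟩
      have c1 := hN'' F hF
      have c2 : dm (O ⊓ sp n (flat F)) + 1 ≤ dm (sp n (flat F) ⊓ sp n N) :=
        dm_lt (by order) fun h => hF' (by order)
      have c4 := dm_modular O (sp n (flat F))
      omega

/-- The component made of one line. -/
def single (n : ℕ) (N : List Vec) (e : Line) : Comp := mk n N [e.1, e.2] [[], [e]]

theorem sp_pair (e : Line) : sp n [e.1, e.2] = ln n e := by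
  rw [sp_cons_cons, sp_nil, sup_bot_eq]

theorem good_single {E : List Line} {N : List Vec} {e : Line} (he : e ∈ E)
    (h : dm (sp n N ⊔ ln n e) = dm (sp n N) + 1) :
    Good n E (single n N e) ∧ ck (single n N e) = 0 := by
  have h1 := mk_len (n := n) N [e.1, e.2] [[], [e]]
  rw [sp_pair] at h1
  have hck : ck (single n N e) = 0 := by
    unfold ck single
    omega
  have hW : cW n (single n N e) = ln n e := by rw [single, mk_W, sp_pair]
  refine ⟨⟨by rw [hck]; unfold single; omega, nodup_ext _ _, fun F hF => ?_, fun F hF => ?_,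
    fun O u hu _ h3 => ?_⟩, hck⟩
  · simp only [single, mk, List.mem_cons, List.not_mem_nil, or_false] at hF
    rcases hF with rfl | rfl <;> simp [he]
  · simp only [single, mk, List.mem_cons, List.not_mem_nil, or_false] at hF
    rw [hW]
    rcases hF with rfl | rfl
    · simp
    · rw [sp_flat_cons]; simp
  · rw [hck] at h3 ⊢
    rw [hW] at h3
    rcases Nat.le_one_iff_eq_zero_or_eq_one.1 hu with rfl | rfl
    · exact ⟨[], by simp [single, mk], rfl, by simp⟩
    · refine ⟨[e], by simp [single, mk], rfl, ?_⟩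
      have := dm_sup_ln_le O e
      rw [sp_flat_cons, flat_nil, sp_nil, sup_bot_eq, List.length_singleton]
      omega

/-- One step of the construction of the matchings of the merged component. -/
def stepB (n : ℕ) (Z N : List Vec) (l : Line) (J : List Comp) (s : List Vec × List (List Line)) :
    List Vec × List (List Line) :=
  if s.1.all (inS n N) then s else
    (cut n (inS n (N ++ flat (qB n Z N l J ((s.1.filter fun u => !inS n N u).headD [])))) s.1,
      qB n Z N l J ((s.1.filter fun u => !inS n N u).headD []) :: s.2)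

/-- The matchings of the merged component. -/
def famB (n : ℕ) (Z N : List Vec) (l : Line) (J : List Comp) (two : List Line) : List (List Line) :=
  ((stepB n Z N l J)^[n + 1] (starW l J two, [])).2

/-- The query for a vector of `P` that is not yet spanned. -/
def nextN (n : ℕ) (Z N : List Vec) (l : Line) (J : List Comp) (two : List Line) (P P0 : List Vec) :
    List Line :=
  qN n Z l J two (hyp n N P0 ((P.filter fun u => !inS n P0 u).headD []))
    ((P.filter fun u => !inS n P0 u).headD [])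

/-- One step of the construction of the larger matchings of the merged component. -/
def stepN (n : ℕ) (Z N : List Vec) (l : Line) (J : List Comp) (two : List Line) (P : List Vec)
    (s : List Vec × List (List Line)) : List Vec × List (List Line) :=
  if P.all (inS n s.1) then s else
    (inter n (flat (nextN n Z N l J two P s.1)) N ++ s.1, nextN n Z N l J two P s.1 :: s.2)

/-- The larger matchings of the merged component. -/
def famN (n : ℕ) (Z N : List Vec) (l : Line) (J : List Comp) (two : List Line) : List (List Line) :=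
  ((stepN n Z N l J two (inter n (starW l J two) N))^[n + 1] ([], [])).2

/-- The merged component. -/
def star (n : ℕ) (Z N : List Vec) (l : Line) (J : List Comp) (two : List Line) : Comp :=
  mk n N (starW l J two) (famB n Z N l J two ++ famN n Z N l J two)

theorem exists_not_all {A : List Vec} {t : Vec → Bool} (h : ¬ A.all t = true) :
    ∃ u ∈ A, (!t u) = true := by simpa using h

namespace StarHyp

variable {E : List Line} {Z N : List Vec} {l : Line} {J : List Comp} {two : List Line} {k : ℕ}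
  (H : StarHyp n E Z N l J two k)
include H

theorem dm_W : dm (sp n N ⊔ sp n (starW l J two)) = dm (sp n N) + 2 * k + 1 := by
  rw [H.sup_W, H.h3]

theorem famB_spec :
    (∀ F ∈ famB n Z N l J two, (∀ e ∈ F, e ∈ E) ∧ sp n (flat F) ≤ sp n (starW l J two) ∧
      F.length = k ∧ dm (sp n N ⊔ sp n (flat F)) = dm (sp n N) + 2 * k) ∧
    ∀ A : Sp n, A ≤ sp n (starW l J two) →
      (∀ F ∈ famB n Z N l J two, A ≤ sp n N ⊔ sp n (flat F)) → A ≤ sp n N := by
  have hW := H.dm_W
  let P : List Vec × List (List Line) → Prop := fun s => sp n s.1 ≤ sp n (starW l J two) ∧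
    (∀ F ∈ s.2, (∀ e ∈ F, e ∈ E) ∧ sp n (flat F) ≤ sp n (starW l J two) ∧
      F.length = k ∧ dm (sp n N ⊔ sp n (flat F)) = dm (sp n N) + 2 * k) ∧
    ∀ A : Sp n, A ≤ sp n (starW l J two) → (∀ F ∈ s.2, A ≤ sp n N ⊔ sp n (flat F)) → A ≤ sp n s.1
  have key : ∀ s, P s → ¬ s.1.all (inS n N) = true →
      P (stepB n Z N l J s) ∧ dm (sp n N ⊔ sp n (stepB n Z N l J s).1) < dm (sp n N ⊔ sp n s.1) := by
    rintro s ⟨p1, p2, p3⟩ h
    obtain ⟨u1, u2⟩ := headD_filter [] (exists_not_all h)
    simp only [stepB, if_neg h]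
    generalize (s.1.filter fun u => !inS n N u).headD [] = u at u1 u2 ⊢
    have u3 : ¬ pt n u ≤ sp n N := fun h => by simp [inS_iff.2 h] at u2
    have u4 := pt_le_sp (n := n) u1
    obtain ⟨q1, q2, q3, q4⟩ := H.qB_spec (u4.trans p1) u3
    generalize qB n Z N l J u = F at q1 q2 q3 q4 ⊢
    have a1 := dm_sup_sp_le (sp n N) (flat F)
    have a2 := dm_sup_pt_le (sp n N ⊔ sp n (flat F)) u
    have a3 : sp n N ⊔ pt n u ⊔ sp n (flat F) = sp n N ⊔ sp n (flat F) ⊔ pt n u := by order
    rw [length_flat] at a1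
    rw [a3] at q4
    have a4 : dm (sp n N ⊔ sp n (flat F) ⊔ sp n s.1) ≤ dm (sp n N ⊔ sp n (starW l J two)) :=
      dm_mono (by order)
    have a5 : sp n (cut n (inS n (N ++ flat F)) s.1) = sp n s.1 ⊓ (sp n N ⊔ sp n (flat F)) :=
      cut_codim (fun a => by rw [inS_iff, sp_append]) (by omega)
    refine ⟨⟨?_, ?_, ?_⟩, ?_⟩
    · simp only [a5]; order
    · exact List.forall_mem_cons.2 ⟨⟨q1, q2, q3, by omega⟩, p2⟩
    · intro A hA hA'
      obtain ⟨b1, b2⟩ := List.forall_mem_cons.1 hA'
      have := p3 A hA b2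
      simp only [a5]; order
    · simp only [a5]
      refine dm_lt (by order) fun h => ?_
      have : sp n N ⊔ sp n (flat F) ⊔ pt n u = sp n N ⊔ sp n (flat F) := by order
      rw [this] at q4
      omega
  obtain ⟨⟨p1, p2, p3⟩, hfix⟩ := iterate_fix (f := stepB n Z N l J) (P := P)
    (φ := fun s => n - dm (sp n N ⊔ sp n s.1)) (N := n + 1) (s := (starW l J two, []))
    ⟨le_rfl, by simp, fun A hA _ => hA⟩
    (fun s hs => by
      by_cases h : s.1.all (inS n N) = true
      · rwa [stepB, if_pos h]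
      · exact (key s hs h).1)
    (fun s hs => by
      by_cases h : s.1.all (inS n N) = true
      · left; rw [stepB, if_pos h]
      · right
        have := (key s hs h).2
        have := dm_le (sp n N ⊔ sp n s.1)
        omega)
    (fun s _ => by omega)
  refine ⟨p2, fun A hA hA' => (p3 A hA hA').trans ?_⟩
  by_contra h
  have h' : ¬ ((stepB n Z N l J)^[n + 1] (starW l J two, [])).1.all (inS n N) = true := fun h' =>
    h (sp_le.2 fun a ha => inS_iff.1 (List.all_eq_true.1 h' a ha))
  have := (key _ ⟨p1, p2, p3⟩ h').2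
  rw [hfix] at this
  exact lt_irrefl _ this

theorem famN_spec :
    (∀ F ∈ famN n Z N l J two, ((∀ e ∈ F, e ∈ E) ∧ sp n (flat F) ≤ sp n (starW l J two) ∧
      F.length = k + 1 ∧ dm (sp n (flat F)) = 2 * (k + 1)) ∧ dm (sp n (flat F) ⊓ sp n N) ≤ 1) ∧
    ∀ A : Sp n, (∀ F ∈ famN n Z N l J two, sp n (flat F) ⊓ sp n N ≤ A) →
      sp n (starW l J two) ⊓ sp n N ≤ A := by
  have hW := H.dm_W
  have hP := sp_inter (n := n) (starW l J two) N
  unfold famN
  generalize inter n (starW l J two) N = Q at hP ⊢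
  let P : List Vec × List (List Line) → Prop := fun s => sp n s.1 ≤ sp n N ∧
    (∀ F ∈ s.2, ((∀ e ∈ F, e ∈ E) ∧ sp n (flat F) ≤ sp n (starW l J two) ∧
      F.length = k + 1 ∧ dm (sp n (flat F)) = 2 * (k + 1)) ∧ dm (sp n (flat F) ⊓ sp n N) ≤ 1) ∧
    ∀ A : Sp n, (∀ F ∈ s.2, sp n (flat F) ⊓ sp n N ≤ A) → sp n s.1 ≤ A
  have key : ∀ s, P s → ¬ Q.all (inS n s.1) = true →
      P (stepN n Z N l J two Q s) ∧ dm (sp n s.1) < dm (sp n (stepN n Z N l J two Q s).1) := by
    rintro s ⟨p1, p2, p3⟩ h
    obtain ⟨u1, u2⟩ := headD_filter [] (exists_not_all h)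
    simp only [stepN, if_neg h, nextN]
    generalize (Q.filter fun u => !inS n s.1 u).headD [] = u at u1 u2 ⊢
    have u3 : ¬ pt n u ≤ sp n s.1 := fun h => by simp [inS_iff.2 h] at u2
    have u4 := pt_le_sp (n := n) u1
    rw [hP] at u4
    obtain ⟨r1, r2, r3⟩ := hyp_spec p1 (by order) u3
    obtain ⟨q1, q2, q3, q4⟩ := H.qN_spec (by order) r2 r3
    generalize hyp n N s.1 u = R at r1 r2 r3 q1 q2 q3 q4 ⊢
    generalize qN n Z l J two R u = F at q1 q2 q3 q4 ⊢
    have a1 := dm_sp_le (n := n) (flat F)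
    rw [length_flat] at a1
    have a2 := dm_modular (sp n R) (sp n (flat F))
    have a3 := dm_modular (sp n (flat F)) (sp n N)
    have a4 : dm (sp n (flat F) ⊔ sp n N) ≤ dm (sp n N ⊔ sp n (starW l J two)) := dm_mono (by order)
    have a5 : dm (sp n R ⊔ sp n (flat F)) ≤ dm (sp n (flat F) ⊔ sp n N) := dm_mono (by order)
    have a6 : dm (sp n R ⊓ sp n (flat F)) ≤ dm (sp n R) := dm_mono inf_le_left
    refine ⟨⟨?_, ?_, ?_⟩, ?_⟩
    · simp only [sp_append, sp_inter]; order
    · exact List.forall_mem_cons.2 ⟨⟨⟨q1, q2, q3, by omega⟩, by omega⟩, p2⟩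
    · intro A hA'
      obtain ⟨b1, b2⟩ := List.forall_mem_cons.1 hA'
      have := p3 A b2
      simp only [sp_append, sp_inter]; order
    · simp only [sp_append, sp_inter]
      refine dm_lt (by order) fun h => ?_
      have : dm (sp n (flat F) ⊓ sp n N) ≤ dm (sp n R ⊓ sp n (flat F)) := dm_mono (by order)
      omega
  obtain ⟨⟨p1, p2, p3⟩, hfix⟩ := iterate_fix (f := stepN n Z N l J two Q) (P := P)
    (φ := fun s => dm (sp n s.1)) (N := n + 1) (s := ([], []))
    ⟨by simp, by simp, fun A _ => by simp⟩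
    (fun s hs => by
      by_cases h : Q.all (inS n s.1) = true
      · rwa [stepN, if_pos h]
      · exact (key s hs h).1)
    (fun s hs => by
      by_cases h : Q.all (inS n s.1) = true
      · left; rw [stepN, if_pos h]
      · exact Or.inr (key s hs h).2)
    (fun s _ => by
      have := dm_le (sp n s.1)
      omega)
  refine ⟨p2, fun A hA' => le_trans ?_ (p3 A hA')⟩
  rw [← hP]
  by_contra h
  have h' : ¬ Q.all (inS n ((stepN n Z N l J two Q)^[n + 1] ([], [])).1) = true := fun h' =>
    h (sp_le.2 fun a ha => inS_iff.1 (List.all_eq_true.1 h' a ha))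
  have := (key _ ⟨p1, p2, p3⟩ h').2
  rw [hfix] at this
  exact lt_irrefl _ this

theorem good_star : Good n E (star n Z N l J two) ∧ ck (star n Z N l J two) = k :=
  good_mk H.dm_W H.famB_spec.1 H.famB_spec.2 (fun F hF => (H.famN_spec.1 F hF).1) H.famN_spec.2
    fun F hF => (H.famN_spec.1 F hF).2

end StarHyp

end Pool.Agent.MP_0c5eb8_lc.H36
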