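import Pool.Agent.MP_0c5eb8_lc.H36.Star

/-!
The construction of the components runs in polynomial time.
-/

set_option autoImplicit false
set_option linter.unusedSectionVars false

namespace Pool.Agent.MP_0c5eb8_lc.H36

open Pool.Agent.Shared.H56 Polynomial

variable {α : Type} [N487b59b3 α]

@[fun_prop] theorem pt_mk {n : α → ℕ} {N W : α → List Vec} {fam : α → List (List Line)}
    (hn : PT fun a => un (n a)) (hN : PT N) (hW : PT W) (hf : PT fam) :
    PT fun a => mk (n a) (N a) (W a) (fam a) := by
  unfold mk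
  fun_prop

@[fun_prop] theorem pt_single {n : α → ℕ} {N : α → List Vec} {e : α → Line}
    (hn : PT fun a => un (n a)) (hN : PT N) (he : PT e) :
    PT fun a => single (n a) (N a) (e a) := by
  unfold single
  fun_prop

theorem iterate_inv {σ : Type} {f : σ → σ} {P : ℕ → σ → Prop} {s : σ} (h0 : P 0 s)
    (h : ∀ k s, P k s → P (k + 1) (f s)) (k : ℕ) : P k (f^[k] s) := by
  induction k with
  | zero => exact h0
  | succ k ih => rw [Function.iterate_succ_apply']; exact h _ _ ih

theorem length_famB_le (n : ℕ) (Z N : List Vec) (l : Line) (J : List Comp) (two : List Line) :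
    (famB n Z N l J two).length ≤ n + 1 := by
  refine iterate_inv (P := fun k (s : List Vec × List (List Line)) => s.2.length ≤ k) (by simp)
    (fun k s hs => ?_) (n + 1)
  unfold stepB
  split_ifs
  · omega
  · simpa using hs

theorem length_famN_le (n : ℕ) (Z N : List Vec) (l : Line) (J : List Comp) (two : List Line) :
    (famN n Z N l J two).length ≤ n + 1 := by
  refine iterate_inv (P := fun k (s : List Vec × List (List Line)) => s.2.length ≤ k) (by simp)
    (fun k s hs => ?_) (n + 1)
  unfold stepN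
  split_ifs
  · omega
  · simpa using hs

theorem pt_stepB {n : α → ℕ} {Z N : α → List Vec} {l : α → Line} {J : α → List Comp}
    {s : α → List Vec × List (List Line)} (hn : PT fun a => un (n a)) (hZ : PT Z) (hN : PT N)
    (hl : PT l) (hJ : PT J) (hs : PT s) :
    PT fun a => stepB (n a) (Z a) (N a) (l a) (J a) (s a) := by
  unfold stepB
  have hn' : PT fun p : α × Vec => un (n p.1) := hn.comp (by fun_prop)
  have h1 : PT fun a => ((s a).1.filter fun u => !inS (n a) (N a) u).headD [] := by fun_prop
  have h2 := pt_qB hn hZ hN hl hJ h1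
  have h3 : PT fun a => N a ++ flat (qB (n a) (Z a) (N a) (l a) (J a)
      (((s a).1.filter fun u => !inS (n a) (N a) u).headD [])) := PT.append hN (pt_flat h2)
  exact PT.ite (by fun_prop) hs (PT.prodMk (pt_cut hn (pt_inS hn' (h3.comp (by fun_prop))
    (by fun_prop)) (by fun_prop)) (PT.cons h2 (by fun_prop)))

@[fun_prop] theorem pt_famB {n : α → ℕ} {Z N : α → List Vec} {l : α → Line} {J : α → List Comp}
    {two : α → List Line} (hn : PT fun a => un (n a)) (hZ : PT Z) (hN : PT N)
    (hl : PT l) (hJ : PT J) (ht : PT two) :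
    PT fun a => famB (n a) (Z a) (N a) (l a) (J a) (two a) := by
  unfold famB
  refine PT.snd (PT.iterate_un (f := fun a s => stepB (n a) (Z a) (N a) (l a) (J a) s)
    (pt_stepB (hn.comp (by fun_prop)) (by fun_prop) (by fun_prop) (by fun_prop) (by fun_prop)
      (by fun_prop)) (by fun_prop) (by fun_prop) ?_)
  obtain ⟨B, hB⟩ := un_size hn
  obtain ⟨C, hC⟩ := (pt_starW hl hJ ht).size
  obtain ⟨D, hD⟩ := hJ.size
  obtain ⟨F, hF⟩ := hl.size
  refine ⟨2 * (C * (6 * (B + C) + 1)) + 1 + (B + 1) * (2 * (D + 2 * F + 1) + 1), fun a k hk => ?_⟩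
  have key := iterate_inv (f := stepB (n a) (Z a) (N a) (l a) (J a))
    (P := fun k (s : List Vec × List (List Line)) =>
      s.1.length = (starW (l a) (J a) (two a)).length ∧
      Bd (n a + sz (starW (l a) (J a) (two a))) s.1 ∧
      sz s.2 ≤ k * (2 * (sz (J a) + 2 * sz (l a) + 1) + 1))
    (s := (starW (l a) (J a) (two a), []))
    ⟨rfl, (bd_sz (starW (l a) (J a) (two a))).mono (by omega), by simp⟩
    (fun k s hs => by
      unfold stepB
      split_ifs
      · exact ⟨hs.1, hs.2.1, hs.2.2.trans (Nat.mul_le_mul_right _ (by omega))⟩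
      · refine ⟨by simpa using hs.1, hs.2.1.cut (by omega) _, ?_⟩
        have := sz_qB_le (n a) (Z a) (N a) (l a) (J a)
          ((s.1.filter fun u => !inS (n a) (N a) u).headD [])
        have := hs.2.2
        simp only [sz_cons]
        nlinarith) k
  generalize (stepB (n a) (Z a) (N a) (l a) (J a))^[k] (starW (l a) (J a) (two a), []) = s at key
  obtain ⟨s1, s2⟩ := s
  obtain ⟨k1, k2, k3⟩ := key
  have h1 := k2.sz_le
  have h2 := length_le_sz (starW (l a) (J a) (two a))
  have := hB a
  have := hC a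
  have := hD a
  have := hF a
  simp only [sz_pair, eval_add, eval_mul, eval_ofNat, eval_one] at *
  have e1 : s1.length * (6 * (n a + sz (starW (l a) (J a) (two a))) + 1)
      ≤ C.eval (sz a) * (6 * (B.eval (sz a) + C.eval (sz a)) + 1) :=
    Nat.mul_le_mul (by omega) (by omega)
  have e2 : k * (2 * (sz (J a) + 2 * sz (l a) + 1) + 1)
      ≤ (B.eval (sz a) + 1) * (2 * (D.eval (sz a) + 2 * F.eval (sz a) + 1) + 1) :=
    Nat.mul_le_mul (by omega) (by omega)
  omega

theorem pt_nextN {n : α → ℕ} {Z N P P0 : α → List Vec} {l : α → Line} {J : α → List Comp}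
    {two : α → List Line} (hn : PT fun a => un (n a)) (hZ : PT Z) (hN : PT N)
    (hl : PT l) (hJ : PT J) (ht : PT two) (hP : PT P) (hP0 : PT P0) :
    PT fun a => nextN (n a) (Z a) (N a) (l a) (J a) (two a) (P a) (P0 a) := by
  unfold nextN
  have hn' : PT fun p : α × Vec => un (n p.1) := hn.comp (by fun_prop)
  have h1 : PT fun a => ((P a).filter fun u => !inS (n a) (P0 a) u).headD [] := by fun_prop
  exact pt_qN hn hZ hl hJ ht (pt_hyp hn hN hP0 h1) h1

theorem pt_stepN {n : α → ℕ} {Z N P : α → List Vec} {l : α → Line} {J : α → List Comp}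
    {two : α → List Line} {s : α → List Vec × List (List Line)} (hn : PT fun a => un (n a))
    (hZ : PT Z) (hN : PT N) (hl : PT l) (hJ : PT J) (ht : PT two) (hP : PT P) (hs : PT s) :
    PT fun a => stepN (n a) (Z a) (N a) (l a) (J a) (two a) (P a) (s a) := by
  unfold stepN
  have hn' : PT fun p : α × Vec => un (n p.1) := hn.comp (by fun_prop)
  have h2 := pt_nextN hn hZ hN hl hJ ht hP hs.fst
  exact PT.ite (by fun_prop) hs (PT.prodMk (PT.append (pt_inter hn (pt_flat h2) hN) hs.fst)
    (PT.cons h2 hs.snd))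

theorem bd_flat (F : List Line) : Bd (sz F) (flat F) := by
  intro a ha
  obtain ⟨⟨e1, e2⟩, he, h⟩ := List.mem_flatMap.1 ha
  have h1 := sz_le_of_mem he
  have h2 := length_le_sz a
  rw [sz_pair] at h1
  simp only [List.mem_cons, List.not_mem_nil, or_false] at h
  rcases h with rfl | rfl <;> omega

@[fun_prop] theorem pt_famN {n : α → ℕ} {Z N : α → List Vec} {l : α → Line} {J : α → List Comp}
    {two : α → List Line} (hn : PT fun a => un (n a)) (hZ : PT Z) (hN : PT N)
    (hl : PT l) (hJ : PT J) (ht : PT two) :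
    PT fun a => famN (n a) (Z a) (N a) (l a) (J a) (two a) := by
  unfold famN
  have hP := pt_inter hn (pt_starW hl hJ ht) hN
  refine PT.snd (PT.iterate_add (f := fun a s => stepN (n a) (Z a) (N a) (l a) (J a) (two a)
      (inter (n a) (starW (l a) (J a) (two a)) (N a)) s)
    (pt_stepN (hn.comp (by fun_prop)) (by fun_prop) (by fun_prop) (by fun_prop) (by fun_prop)
      (by fun_prop) (hP.comp (by fun_prop)) (by fun_prop)) (by fun_prop) (by fun_prop) ?_)
  obtain ⟨B, hB⟩ := un_size hn
  obtain ⟨C, hC⟩ := ht.size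
  obtain ⟨D, hD⟩ := hJ.size
  obtain ⟨F, hF⟩ := hl.size
  refine ⟨2 * (2 * (D + 2 * F + 2 * C + 1) * (6 * (B + (D + 2 * F + 2 * C + 1)) + 1))
    + 2 * (D + 2 * F + 2 * C + 1) + 1, fun a s => ?_⟩
  unfold stepN
  split_ifs
  · omega
  · have h1 : sz (nextN (n a) (Z a) (N a) (l a) (J a) (two a)
        (inter (n a) (starW (l a) (J a) (two a)) (N a)) s.1)
        ≤ sz (J a) + 2 * sz (l a) + 2 * sz (two a) + 1 := sz_qN_le _ _ _ _ _ _ _
    generalize nextN (n a) (Z a) (N a) (l a) (J a) (two a)
        (inter (n a) (starW (l a) (J a) (two a)) (N a)) s.1 = G at h1 ⊢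
    have h2 := (((bd_flat G).mono (Nat.le_add_left _ (n a))).inter (n := n a) (by omega) (N a)).sz_le
    rw [length_inter, length_flat] at h2
    have h3 := length_le_sz G
    obtain ⟨s1, s2⟩ := s
    have := hB a
    have := hC a
    have := hD a
    have := hF a
    simp only [sz_pair, sz_cons, sz_append, eval_add, eval_mul, eval_ofNat, eval_one] at *
    have e1 : 2 * G.length * (6 * (n a + sz G) + 1)
        ≤ 2 * (D.eval (sz a) + 2 * F.eval (sz a) + 2 * C.eval (sz a) + 1) * (6 * (B.eval (sz a)
          + (D.eval (sz a) + 2 * F.eval (sz a) + 2 * C.eval (sz a) + 1)) + 1) :=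
      Nat.mul_le_mul (by omega) (by omega)
    omega

@[fun_prop] theorem pt_star {n : α → ℕ} {Z N : α → List Vec} {l : α → Line} {J : α → List Comp}
    {two : α → List Line} (hn : PT fun a => un (n a)) (hZ : PT Z) (hN : PT N)
    (hl : PT l) (hJ : PT J) (ht : PT two) :
    PT fun a => star (n a) (Z a) (N a) (l a) (J a) (two a) :=
  pt_mk hn hN (pt_starW hl hJ ht) (PT.append (pt_famB hn hZ hN hl hJ ht) (pt_famN hn hZ hN hl hJ ht))

end Pool.Agent.MP_0c5eb8_lc.H36
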