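import Pool.Agent.MP_0c5eb8_lc.H36.StarPT

/-!
The states of the parity algorithm, the invariant, and the merging step.
-/

set_option autoImplicit false
set_option linter.unusedSectionVars false

namespace Pool.Agent.MP_0c5eb8_lc.H36

open Finset

variable {n : ℕ}

/-- Removal of repetitions. -/
def dd (l : List Comp) : List Comp := l.foldl (fun acc c => if c ∈ acc then acc else c :: acc) []

theorem dd_aux (l acc : List Comp) (h : acc.Nodup) :
    (l.foldl (fun acc c => if c ∈ acc then acc else c :: acc) acc).Nodup ∧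
    (∀ c, c ∈ l.foldl (fun acc c => if c ∈ acc then acc else c :: acc) acc ↔ c ∈ acc ∨ c ∈ l) ∧
    (l.foldl (fun acc c => if c ∈ acc then acc else c :: acc) acc).length
      ≤ acc.length + l.length := by
  induction l generalizing acc with
  | nil => simp [h]
  | cons a l ih =>
    simp only [List.foldl_cons]
    split_ifs with ha
    · obtain ⟨i1, i2, i3⟩ := ih acc h
      refine ⟨i1, fun c => ?_, by simp; omega⟩
      rw [i2, List.mem_cons]
      constructor
      · tauto
      · rintro (h | rfl | h) <;> tauto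
    · obtain ⟨i1, i2, i3⟩ := ih (a :: acc) (List.nodup_cons.2 ⟨ha, h⟩)
      refine ⟨i1, fun c => ?_, by simp at i3 ⊢; omega⟩
      rw [i2, List.mem_cons, List.mem_cons]
      tauto

theorem nodup_dd (l : List Comp) : (dd l).Nodup := (dd_aux l [] List.nodup_nil).1
theorem mem_dd {l : List Comp} {c : Comp} : c ∈ dd l ↔ c ∈ l := by
  simpa [dd] using (dd_aux l [] List.nodup_nil).2.1 c
theorem length_dd_le (l : List Comp) : (dd l).length ≤ l.length := by
  simpa [dd] using (dd_aux l [] List.nodup_nil).2.2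

/-- The lines of `L` of rank `j` modulo `N`. -/
def ofRank (n : ℕ) (N : List Vec) (j : ℕ) (L : List Line) : List Line :=
  L.filter fun e => decide (rk n (e.1 :: e.2 :: N) = rk n N + j)

theorem mem_ofRank {N : List Vec} {j : ℕ} {L : List Line} {e : Line} :
    e ∈ ofRank n N j L ↔ e ∈ L ∧ dm (sp n N ⊔ ln n e) = dm (sp n N) + j := by
  rw [ofRank, List.mem_filter, decide_eq_true_eq, rk_eq, rk_eq, sp_cons_cons, sup_comm]

/-- A state: a matching, a subspace that contains it, and components. -/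
abbrev State := List Line × List Vec × List Comp

/-- Matchings inside `E`. -/
def IsM (n : ℕ) (E M : List Line) : Prop := (∀ e ∈ M, e ∈ E) ∧ dm (sp n (flat M)) = 2 * M.length

/-- The invariant. -/
structure Inv (n : ℕ) (E M : List Line) (Z : List Vec) (I : List Comp) : Prop where
  isM : IsM n E M
  lz : sp n (flat M) ≤ sp n Z
  nodup : I.Nodup
  good : ∀ c ∈ I, Good n E c
  pz : PS n I.toFinset ≤ sp n Z
  cover : ∀ e ∈ E, ln n e ≤ sp n Z ∨ ∃ c ∈ I, ln n e ≤ cW n c
  s4 : sp n Z ≤ sp n (flat M) ⊔ PS n I.toFinset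
  s5 : ∀ Y ⊆ I.toFinset, Y.Nonempty → 2 * dm (sp n Z) + 1 + 2 * KS Y
    ≤ dm (sp n Z ⊔ TS n Y) + dm (sp n (flat M) ⊔ PS n (I.toFinset \ Y))
  ex : ∃ M', IsM n E M' ∧ M'.length + M.length = dm (sp n Z) + KS I.toFinset

/-- Remove a line. -/
def del (M : List Line) (l : Line) : List Line := M.filter fun e => decide (e ≠ l)

theorem sp_flat_del {M : List Line} {l : Line} (h : l ∈ M) :
    sp n (flat M) = sp n (flat (del M l)) ⊔ ln n l := by
  refine le_antisymm (sp_flat_le.2 fun e he => ?_) (sup_le (sp_flat_le.2 fun e he =>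
    ln_le_flat (List.mem_filter.1 he).1) (ln_le_flat h))
  by_cases hl : e = l
  · rw [hl]; exact le_sup_right
  · exact le_sup_of_le_left (ln_le_flat (List.mem_filter.2 ⟨he, by simpa using hl⟩))

theorem IsM.del {E M : List Line} (h : IsM n E M) {l : Line} (hl : l ∈ M) :
    IsM n E (del M l) ∧ (del M l).length + 1 = M.length := by
  have h1 : (H36.del M l).length < M.length :=
    List.length_filter_lt_length_iff_exists.2 ⟨l, hl, by simp⟩
  have h2 := h.2
  have h3 := dm_sup_ln_le (sp n (flat (H36.del M l))) l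
  have h4 := dm_sp_le (n := n) (flat (H36.del M l))
  rw [sp_flat_del hl] at h2
  rw [length_flat] at h4
  exact ⟨⟨fun e he => h.1 e (List.mem_filter.1 he).1, by omega⟩, by omega⟩

/-- The components that are kept. -/
def rest (I Y : List Comp) : List Comp := I.filter fun c => decide (c ∉ Y)

/-- The components that are merged. -/
def mrg (I Y : List Comp) : List Comp := I.filter fun c => decide (c ∈ Y)

/-- The new subspace. -/
def newZ (n : ℕ) (M : List Line) (I Y : List Comp) : List Vec :=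
  ext n [] (flat M ++ (rest I Y).flatMap fun c => c.2.1)

/-- The lines inside `Z`. -/
def inside (n : ℕ) (E : List Line) (Z : List Vec) : List Line :=
  E.filter fun e => inS n Z e.1 && inS n Z e.2

theorem mem_inside {E : List Line} {Z : List Vec} {e : Line} :
    e ∈ inside n E Z ↔ e ∈ E ∧ ln n e ≤ sp n Z := by
  rw [inside, List.mem_filter, Bool.and_eq_true, inS_iff, inS_iff, ln, _root_.sup_le_iff]

/-- The new components. -/
def newI (n : ℕ) (E : List Line) (Z N : List Vec) (l : Line) (I Y : List Comp) : List Comp :=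
  dd (rest I Y ++ star n Z N l (mrg I Y) (ofRank n N 2 (inside n E Z)) ::
    (ofRank n N 1 (inside n E Z)).map (single n N))

theorem single_T {N : List Vec} (e : Line) :
    sp n N ⊔ sp n (single n N e).1 = sp n N ⊔ ln n e := by rw [single, mk_T, sp_pair]

theorem single_P {N : List Vec} (e : Line) : sp n (single n N e).2.1 = ln n e ⊓ sp n N := by
  rw [single, mk_P, sp_pair]

theorem single_W {N : List Vec} (e : Line) : cW n (single n N e) = ln n e := by
  rw [single, mk_W, sp_pair]

theorem KS_le {Y Y1 : Finset Comp} {c : Comp} (h1 : Y1 ⊆ Y)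
    (h : ∀ d ∈ Y, d ∉ Y1 → d = c ∨ ck d = 0) : KS Y ≤ KS Y1 + ck c := by
  have e1 : KS Y = KS (Y \ Y1) + KS Y1 := (sum_sdiff h1).symm
  have e2 : KS (Y \ Y1) ≤ ck c := by
    unfold KS
    rw [← sum_filter_add_sum_filter_not _ (fun d => d = c)]
    have a1 : ∑ d ∈ (Y \ Y1).filter (fun d => ¬ d = c), ck d = 0 :=
      sum_eq_zero fun d hd => by
        obtain ⟨b1, b2⟩ := mem_filter.1 hd
        exact (h d (mem_sdiff.1 b1).1 (mem_sdiff.1 b1).2).resolve_left b2
    have a2 : ∑ d ∈ (Y \ Y1).filter (fun d => d = c), ck d ≤ ∑ d ∈ {c}, ck d :=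
      sum_le_sum_of_subset fun d hd => mem_singleton.2 (mem_filter.1 hd).2
    rw [sum_singleton] at a2
    omega
  omega

theorem KS_eq_zero {Y Y1 : Finset Comp} (h1 : Y1 ⊆ Y)
    (h : ∀ d ∈ Y, d ∉ Y1 → ck d = 0) : KS Y = KS Y1 := (sum_subset h1 h).symm

theorem KS_union {Y Y1 : Finset Comp} (h : Disjoint Y Y1) : KS (Y ∪ Y1) = KS Y + KS Y1 :=
  sum_union h

theorem merge_inv {E M : List Line} {Z : List Vec} {I Y : List Comp} {l : Line}
    (H : Inv n E M Z I) (hl : l ∈ M) (hY : Y.toFinset ⊆ I.toFinset)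
    (hval : dm (sp n Z ⊔ TS n Y.toFinset)
      + dm (sp n (flat (del M l)) ⊔ PS n (I.toFinset \ Y.toFinset)) + 1
      = 2 * dm (sp n Z) + 2 * KS Y.toFinset)
    (hge : ∀ Y' ⊆ I.toFinset, 2 * dm (sp n Z) + 2 * KS Y'
      ≤ dm (sp n Z ⊔ TS n Y') + dm (sp n (flat (del M l)) ⊔ PS n (I.toFinset \ Y')) + 1)
    (hmin : ∀ Y' ⊆ I.toFinset, dm (sp n Z ⊔ TS n Y')
      + dm (sp n (flat (del M l)) ⊔ PS n (I.toFinset \ Y')) + 1 ≤ 2 * dm (sp n Z) + 2 * KS Y' →
      Y.toFinset ⊆ Y') :
    (∃ k, StarHyp n E Z (newZ n (del M l) I Y) l (mrg I Y)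
      (ofRank n (newZ n (del M l) I Y) 2 (inside n E Z)) k) ∧
    Inv n E (del M l) (newZ n (del M l) I Y) (newI n E Z (newZ n (del M l) I Y) l I Y) ∧
      dm (sp n (newZ n (del M l) I Y)) + KS (newI n E Z (newZ n (del M l) I Y) l I Y).toFinset + 1
        = dm (sp n Z) + KS I.toFinset := by
  obtain ⟨hM', hlen⟩ := H.isM.del hl
  have eL := sp_flat_del (n := n) hl
  have eJ : (mrg I Y).toFinset = Y.toFinset := by
    ext c
    have := @hY c
    simp only [mrg, List.mem_toFinset, List.mem_filter, decide_eq_true_eq] at this ⊢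
    tauto
  have eR : (rest I Y).toFinset = I.toFinset \ Y.toFinset := by
    ext c
    simp [rest]
  have eN : sp n (newZ n (del M l) I Y)
      = sp n (flat (del M l)) ⊔ PS n (I.toFinset \ Y.toFinset) := by
    rw [newZ, sp_ext_nil, sp_append, sp_flatMap_P, eR]
  generalize newZ n (del M l) I Y = N at *
  set L := sp n (flat (del M l)) with hL
  set S := I.toFinset with hS
  set J := Y.toFinset with hJ
  have lz := H.lz
  have pz := H.pz
  have s4 := H.s4
  have s5 := H.s5
  rw [eL] at lz s4 s5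
  rw [← hS] at pz s4 s5
  have p1 : PS n (S \ J) ≤ PS n S := PS_mono sdiff_subset
  have p2 : PS n J ≤ PS n S := PS_mono hY
  have p3 : PS n S ≤ PS n (S \ J) ⊔ PS n J := by
    rw [← PS_union, sdiff_union_of_subset hY]
  have p4 : ∀ Y' ⊆ J, PS n (S \ Y') = PS n (S \ J) ⊔ PS n (J \ Y') := fun Y' h => by
    rw [← PS_union]
    congr 1
    ext c
    have := @h c
    have := @hY c
    simp only [mem_sdiff, mem_union]
    tauto
  have nz : sp n N ≤ sp n Z := by order
  have h0 : sp n Z ≤ sp n N ⊔ ln n l ⊔ PS n J := by order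
  have h2 : ∀ Y' ⊆ J, Y'.Nonempty → 2 * dm (sp n Z) + 1 + 2 * KS Y'
      ≤ dm (sp n Z ⊔ TS n Y') + dm (sp n N ⊔ ln n l ⊔ PS n (J \ Y')) := fun Y' h h' => by
    have a1 := s5 Y' (h.trans hY) h'
    have a2 := p4 Y' h
    have a3 : L ⊔ ln n l ⊔ PS n (S \ Y') = sp n N ⊔ ln n l ⊔ PS n (J \ Y') := by order
    rwa [a3] at a1
  rw [← eN] at hval
  have hlt : dm (sp n N) + 1 ≤ dm (sp n Z) := by
    rcases J.eq_empty_or_nonempty with he | he
    · rw [he] at hval
      simp only [TS_empty, sup_bot_eq, KS_empty] at hval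
      omega
    · have a1 := h2 J Subset.rfl he
      have a2 : dm (sp n N ⊔ ln n l ⊔ PS n (J \ J)) ≤ dm (sp n Z) :=
        dm_mono (by rw [sdiff_self, bot_eq_empty, PS_empty]; order)
      omega
  obtain ⟨k, hk⟩ : ∃ k, k + dm (sp n N) + 1 = KS J + dm (sp n Z) :=
    ⟨KS J + dm (sp n Z) - dm (sp n N) - 1, by omega⟩
  have hS' : StarHyp n E Z N l (mrg I Y) (ofRank n N 2 (inside n E Z)) k := by
    refine ⟨H.nodup.filter _, fun c hc => H.good c (List.mem_filter.1 hc).1, by rw [eJ]; order, nz,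
      H.isM.1 l hl, by order, fun e he => ?_, by rw [eJ]; exact h0, ?_, by rw [eJ]; exact h2,
      by rw [eJ]; omega, by rw [eJ]; exact hk⟩
    · obtain ⟨a1, a2⟩ := mem_ofRank.1 he
      exact ⟨(mem_inside.1 a1).1, (mem_inside.1 a1).2, a2⟩
    · rw [eJ]
      intro Y' h h'
      by_contra hc
      refine h' (Subset.antisymm h (hmin Y' (h.trans hY) ?_))
      have a2 := p4 Y' h
      have a3 : L ⊔ PS n (S \ Y') = sp n N ⊔ PS n (J \ Y') := by order
      rw [a3]
      omega
  refine ⟨⟨k, hS'⟩, ?_⟩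
  obtain ⟨g1, g2⟩ := hS'.good_star
  have sW := hS'.sup_W
  have sW' := sp_starW (n := n) l (mrg I Y) (ofRank n N 2 (inside n E Z))
  rw [eJ] at sW sW'
  have sT : sp n N ⊔ sp n (star n Z N l (mrg I Y) (ofRank n N 2 (inside n E Z))).1
      = sp n Z ⊔ TS n J := by rw [star, mk_T, sW]
  have sP : sp n (star n Z N l (mrg I Y) (ofRank n N 2 (inside n E Z))).2.1
      = sp n (starW l (mrg I Y) (ofRank n N 2 (inside n E Z))) ⊓ sp n N := by rw [star, mk_P]
  have sC : cW n (star n Z N l (mrg I Y) (ofRank n N 2 (inside n E Z)))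
      = sp n (starW l (mrg I Y) (ofRank n N 2 (inside n E Z))) := by rw [star, mk_W]
  have hmem : ∀ c, c ∈ newI n E Z N l I Y ↔ c ∈ S \ J ∨
      c = star n Z N l (mrg I Y) (ofRank n N 2 (inside n E Z)) ∨
      ∃ e ∈ ofRank n N 1 (inside n E Z), single n N e = c := fun c => by
    rw [newI, mem_dd, List.mem_append, List.mem_cons, List.mem_map, ← List.mem_toFinset, eR]
  have hnd : (newI n E Z N l I Y).Nodup := nodup_dd _
  generalize newI n E Z N l I Y = I' at *
  generalize star n Z N l (mrg I Y) (ofRank n N 2 (inside n E Z)) = st at *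
  generalize sp n (starW l (mrg I Y) (ofRank n N 2 (inside n E Z))) = W at *
  have hsing : ∀ e ∈ ofRank n N 1 (inside n E Z), Good n E (single n N e) ∧ ck (single n N e) = 0 :=
    fun e he => good_single (mem_inside.1 (mem_ofRank.1 he).1).1 (mem_ofRank.1 he).2
  have hsub : S \ J ⊆ I'.toFinset := fun c hc => List.mem_toFinset.2 ((hmem c).2 (Or.inl hc))
  have hst : st ∈ I'.toFinset := List.mem_toFinset.2 ((hmem st).2 (Or.inr (Or.inl rfl)))
  have hst' : st ∉ S \ J := fun h => by
    have a1 := s5 {st} (singleton_subset_iff.2 (mem_sdiff.1 h).1) (singleton_nonempty _)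
    have a2 : dm (L ⊔ ln n l ⊔ PS n (S \ {st})) ≤ dm (sp n Z) := by
      have : PS n (S \ {st}) ≤ PS n S := PS_mono sdiff_subset
      exact dm_mono (by order)
    have a3 : TS n {st} = sp n st.1 := sup_singleton
    have a4 : KS {st} = ck st := sum_singleton _ _
    have a5 := dm_sup_sp_le (sp n N) st.1
    have a6 := g1.odd
    have a7 : dm (sp n Z ⊔ sp n st.1) ≤ dm (sp n N ⊔ sp n st.1) := dm_mono (by order)
    rw [a3, a4] at a1
    omega
  have hK : KS I'.toFinset = KS (S \ J) + k := by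
    have a1 : KS I'.toFinset = KS (insert st (S \ J)) := by
      refine KS_eq_zero (insert_subset hst hsub) fun d hd hd' => ?_
      rw [mem_insert, not_or] at hd'
      rcases (hmem d).1 (List.mem_toFinset.1 hd) with h | h | ⟨e, he, rfl⟩
      · exact absurd h hd'.2
      · exact absurd h hd'.1
      · exact (hsing e he).2
    have a2 : KS (insert st (S \ J)) = ck st + KS (S \ J) := sum_insert hst'
    omega
  have hK' : KS (S \ J) + KS J = KS S := sum_sdiff hY
  have hv : dm (sp n N) + KS I'.toFinset + 1 = dm (sp n Z) + KS S := by omega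
  refine ⟨⟨hM', by order, hnd, fun c hc => ?_, PS_le.2 fun c hc => ?_, fun e he => ?_, ?_,
    fun Y' hY' hne => ?_, ?_⟩, hv⟩
  · rcases (hmem c).1 hc with h | rfl | ⟨e, he, rfl⟩
    · exact H.good c (List.mem_toFinset.1 (mem_sdiff.1 h).1)
    · exact g1
    · exact (hsing e he).1
  · rcases (hmem c).1 (List.mem_toFinset.1 hc) with h | rfl | ⟨e, he, rfl⟩
    · have := le_PS (n := n) h
      order
    · order
    · rw [single_P]; exact inf_le_right
  · rcases H.cover e he with h | ⟨c, hc, h⟩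
    · have a1 := dm_sup_ln_le (sp n N) e
      have a2 : dm (sp n N) ≤ dm (sp n N ⊔ ln n e) := dm_mono le_sup_left
      have a3 := mem_inside.2 ⟨he, h⟩
      by_cases b0 : dm (sp n N ⊔ ln n e) ≤ dm (sp n N)
      · exact Or.inl (le_of_dm b0)
      · right
        by_cases b1 : dm (sp n N ⊔ ln n e) = dm (sp n N) + 1
        · exact ⟨single n N e, (hmem _).2 (Or.inr (Or.inr ⟨e, mem_ofRank.2 ⟨a3, b1⟩, rfl⟩)),
            by rw [single_W]⟩
        · refine ⟨st, List.mem_toFinset.1 hst, ?_⟩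
          have := ln_le_flat (n := n) (mem_ofRank.2 ⟨a3, (by omega :
            dm (sp n N ⊔ ln n e) = dm (sp n N) + 2)⟩)
          order
    · right
      by_cases hcJ : c ∈ J
      · refine ⟨st, List.mem_toFinset.1 hst, ?_⟩
        have a1 := le_TS (n := n) hcJ
        have a2 := le_PS (n := n) hcJ
        rw [cW] at h
        order
      · exact ⟨c, (hmem c).2 (Or.inl (mem_sdiff.2 ⟨List.mem_toFinset.2 hc, hcJ⟩)), h⟩
  · have : PS n (S \ J) ≤ PS n I'.toFinset := PS_mono hsub
    order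
  · rw [← hL]
    have t1 : TS n (Y' ∩ (S \ J)) ≤ TS n Y' := TS_mono inter_subset_left
    have t2 : PS n ((S \ J) \ Y') ≤ PS n (I'.toFinset \ Y') :=
      PS_mono (sdiff_subset_sdiff hsub Subset.rfl)
    have hother : ∀ d ∈ Y', d ∉ Y' ∩ (S \ J) → d = st ∨ ∃ e ∈ ofRank n N 1 (inside n E Z),
        single n N e = d := fun d hd hd' =>
      ((hmem d).1 (List.mem_toFinset.1 (hY' hd))).resolve_left fun h => hd' (mem_inter.2 ⟨hd, h⟩)
    by_cases hs : st ∈ Y'
    · have a1 := hge (Y' ∩ (S \ J) ∪ J)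
        (union_subset (inter_subset_right.trans sdiff_subset) hY)
      have a2 : KS Y' ≤ KS (Y' ∩ (S \ J)) + ck st := KS_le inter_subset_left fun d hd hd' =>
        (hother d hd hd').imp id fun ⟨e, he, h⟩ => h ▸ (hsing e he).2
      have a3 : KS (Y' ∩ (S \ J) ∪ J) = KS (Y' ∩ (S \ J)) + KS J :=
        KS_union (disjoint_of_subset_left inter_subset_right sdiff_disjoint)
      have a4 : S \ (Y' ∩ (S \ J) ∪ J) = (S \ J) \ Y' := by
        ext c
        simp only [mem_sdiff, mem_union, mem_inter]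
        tauto
      have a5 := le_TS (n := n) hs
      rw [a4, TS_union] at a1
      have a6 : dm (sp n Z ⊔ (TS n (Y' ∩ (S \ J)) ⊔ TS n J)) ≤ dm (sp n N ⊔ TS n Y') :=
        dm_mono (by order)
      have a7 : dm (L ⊔ PS n ((S \ J) \ Y')) ≤ dm (L ⊔ PS n (I'.toFinset \ Y')) :=
        dm_mono (by order)
      omega
    · have a2 : KS Y' = KS (Y' ∩ (S \ J)) := KS_eq_zero inter_subset_left fun d hd hd' => by
        rcases hother d hd hd' with rfl | ⟨e, he, rfl⟩
        · exact absurd hd hs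
        · exact (hsing e he).2
      rcases (Y' ∩ (S \ J)).eq_empty_or_nonempty with he | he
      · obtain ⟨d, hd⟩ := hne
        rcases hother d hd (by simp [he]) with rfl | ⟨e, he', rfl⟩
        · exact absurd hd hs
        have a3 := single_T (n := n) (N := N) e
        have a4 := le_TS (n := n) hd
        have a5 : dm (sp n N ⊔ ln n e) ≤ dm (sp n N ⊔ TS n Y') := dm_mono (by order)
        have a6 := (mem_ofRank.1 he').2
        have a7 : (S \ J) \ Y' = S \ J := by
          rw [Finset.sdiff_eq_self_iff_disjoint, disjoint_comm, disjoint_iff_inter_eq_empty]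
          exact he
        rw [a7] at t2
        have a8 : dm (sp n N) ≤ dm (L ⊔ PS n (I'.toFinset \ Y')) := dm_mono (by order)
        rw [he, KS_empty] at a2
        omega
      · have a1 := s5 (Y' ∩ (S \ J)) (inter_subset_right.trans sdiff_subset) he
        have a3 : PS n (S \ (Y' ∩ (S \ J))) = PS n ((S \ J) \ Y') ⊔ PS n J := by
          rw [← PS_union]
          congr 1
          ext c
          have := @hY c
          simp only [mem_sdiff, mem_union, mem_inter]
          tauto
        have a4 : PS n ((S \ J) \ Y') ≤ PS n (S \ J) := PS_mono sdiff_subset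
        have a5 := le_PS (n := n) (mem_sdiff.2 ⟨hst, hs⟩)
        have a6 := relsub nz (TS n (Y' ∩ (S \ J)))
        have a7 : dm (sp n N ⊔ TS n (Y' ∩ (S \ J))) ≤ dm (sp n N ⊔ TS n Y') := dm_mono (by order)
        have a8 : L ⊔ ln n l ⊔ PS n (S \ (Y' ∩ (S \ J)))
            = (L ⊔ PS n ((S \ J) \ Y')) ⊔ (ln n l ⊔ PS n J) := by order
        rw [a8] at a1
        have a9 := dm_modular ((L ⊔ PS n ((S \ J) \ Y')) ⊔ (ln n l ⊔ PS n J)) (sp n N)
        have a10 : dm (sp n Z) ≤ dm ((L ⊔ PS n ((S \ J) \ Y')) ⊔ (ln n l ⊔ PS n J) ⊔ sp n N) :=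
          dm_mono (by order)
        have a11 : dm ((L ⊔ PS n ((S \ J) \ Y')) ⊔ (ln n l ⊔ PS n J) ⊔ sp n N) ≤ dm (sp n Z) :=
          dm_mono (by order)
        rw [sup_inf_assoc_of_le _ (by order : L ⊔ PS n ((S \ J) \ Y') ≤ sp n N)] at a9
        have a12 : dm (L ⊔ PS n ((S \ J) \ Y') ⊔ (ln n l ⊔ PS n J) ⊓ sp n N)
            ≤ dm (L ⊔ PS n (I'.toFinset \ Y')) := dm_mono (by order)
        omega
  · obtain ⟨M', a1, a2⟩ := H.ex
    exact ⟨M', a1, by rw [← hS] at a2; omega⟩

end Pool.Agent.MP_0c5eb8_lc.H36
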