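import Pool.Agent.MP_0c5eb8_lc.H36.Main

/-!
Independent sets of a hypergraphic matroid are the families that can be trimmed to a forest.
-/

set_option autoImplicit false
set_option linter.unusedSectionVars false

namespace Pool.Agent.MP_0c5eb8_lc.H36

open Finset

variable {n : ℕ}

/-- The unit vector. -/
def ue (n j : ℕ) : Vec := (List.range n).map fun i => decide (i = j)

/-- The vectors whose coordinate `j` vanishes. -/
def Kc (n j : ℕ) : Sp n where
  carrier := {v | ∀ i : Fin n, i.val = j → v i = 0}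
  add_mem' := fun ha hb i hi => by simp [ha i hi, hb i hi]
  zero_mem' := fun _ _ => rfl
  smul_mem' := fun c _ ha i hi => by simp [ha i hi]

theorem pt_le_Kc {a : Vec} {j : ℕ} (hj : j < n) : pt n a ≤ Kc n j ↔ a.getD j false = false := by
  rw [pt_le]
  constructor
  · intro h
    have := h ⟨j, hj⟩ rfl
    simp only [toV] at this
    cases hb : a.getD j false
    · rfl
    · rw [hb] at this
      simp at this
  · rintro h i rfl
    simp only [toV, h]
    simp

theorem getD_ue {j i : ℕ} (hi : i < n) : (ue n j).getD i false = decide (i = j) := by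
  simp [ue, List.getD_eq_getElem?_getD, hi]

theorem getD_vadd {a b : Vec} {i : ℕ} (hi : i < n) :
    (vadd n a b).getD i false = xor (a.getD i false) (b.getD i false) := by
  simp [vadd, List.getD_eq_getElem?_getD, hi]

theorem tri (B : Finset ℕ) (c : ℕ → ℕ) (w : ℕ → Vec) (O : Sp n) (h1 : ∀ u ∈ B, O ≤ Kc n (c u))
    (h2 : ∀ u ∈ B, ¬ pt n (w u) ≤ Kc n (c u))
    (h3 : ∀ u ∈ B, ∀ u' ∈ B, u ≠ u' → pt n (w u') ≤ Kc n (c u)) :
    dm O + B.card ≤ dm (O ⊔ B.sup fun u => pt n (w u)) := by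
  induction B using Finset.induction_on with
  | empty => simp
  | insert u B hu ih =>
    have ih' := ih (fun v hv => h1 v (mem_insert_of_mem hv)) (fun v hv => h2 v (mem_insert_of_mem hv))
      fun v hv v' hv' => h3 v (mem_insert_of_mem hv) v' (mem_insert_of_mem hv')
    have a1 : (O ⊔ B.sup fun u => pt n (w u)) ≤ Kc n (c u) :=
      sup_le (h1 u (mem_insert_self _ _)) (Finset.sup_le fun v hv =>
        h3 u (mem_insert_self _ _) v (mem_insert_of_mem hv) fun h => hu (h ▸ hv))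
    have a2 := dm_sup_pt (O := O ⊔ B.sup fun u => pt n (w u)) (a := w u)
      fun h => h2 u (mem_insert_self _ _) (h.trans a1)
    have a3 : (O ⊔ (insert u B).sup fun u => pt n (w u))
        = (O ⊔ B.sup fun u => pt n (w u)) ⊔ pt n (w u) := by
      rw [sup_insert, sup_assoc, sup_comm (pt n (w u))]
    rw [a3, a2, card_insert_of_notMem hu]
    omega

theorem dm_finsup_le (B : Finset ℕ) (w : ℕ → Vec) : dm (B.sup fun u => pt n (w u)) ≤ B.card := by
  induction B using Finset.induction_on with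
  | empty => simp
  | insert u B hu ih =>
    rw [sup_insert, card_insert_of_notMem hu, sup_comm]
    have := dm_sup_pt_le (B.sup fun u => pt n (w u)) (w u)
    omega

/-- The vector of the edge with ends `u` and `v`; the vertex `u` has the coordinate `ix u`. -/
def ev (n : ℕ) (ix : ℕ → ℕ) (u v : ℕ) : Vec := vadd n (ue n (ix u)) (ue n (ix v))

theorem ev_trans (ix : ℕ → ℕ) (u v w : ℕ) :
    pt n (ev n ix u v) ≤ pt n (ev n ix u w) ⊔ pt n (ev n ix v w) := by
  rw [pt_le]
  have : toV n (ev n ix u v) = toV n (ev n ix u w) + toV n (ev n ix v w) := by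
    simp only [ev, toV_vadd]
    rw [add_add_add_comm, add_self_V, add_zero]
  rw [this]
  exact Submodule.add_mem_sup (pt_le.1 le_rfl) (pt_le.1 le_rfl)

theorem ev_self (ix : ℕ → ℕ) (u : ℕ) : pt n (ev n ix u u) ≤ ⊥ := by
  rw [pt_le, ev, toV_vadd, add_self_V]
  exact zero_mem _

theorem ev_le_Kc {ix : ℕ → ℕ} {u v j : ℕ} (hj : j < n) :
    pt n (ev n ix u v) ≤ Kc n j ↔ (j = ix u ↔ j = ix v) := by
  rw [pt_le_Kc hj, ev, getD_vadd hj, getD_ue hj, getD_ue hj]
  by_cases h1 : j = ix u <;> by_cases h2 : j = ix v <;> simp [h1, h2]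

/-- The span of all edges inside the members of `X`. -/
def AX (n : ℕ) (ix : ℕ → ℕ) (e : ℕ → Finset ℕ) (X : Finset ℕ) : Sp n :=
  X.sup fun i => (e i ×ˢ e i).sup fun p => pt n (ev n ix p.1 p.2)

theorem le_AX {ix : ℕ → ℕ} {e : ℕ → Finset ℕ} {X : Finset ℕ} {i u v : ℕ} (hi : i ∈ X)
    (hu : u ∈ e i) (hv : v ∈ e i) : pt n (ev n ix u v) ≤ AX n ix e X :=
  le_trans (le_sup (f := fun p : ℕ × ℕ => pt n (ev n ix p.1 p.2)) (b := (u, v))
    (mem_product.2 ⟨hu, hv⟩))
    (le_sup (f := fun i => (e i ×ˢ e i).sup fun p => pt n (ev n ix p.1 p.2)) hi)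

theorem AX_le {ix : ℕ → ℕ} {e : ℕ → Finset ℕ} {X : Finset ℕ} {O : Sp n}
    (h : ∀ i ∈ X, ∀ u ∈ e i, ∀ v ∈ e i, pt n (ev n ix u v) ≤ O) : AX n ix e X ≤ O :=
  Finset.sup_le fun i hi => Finset.sup_le fun p hp =>
    h i hi p.1 (mem_product.1 hp).1 p.2 (mem_product.1 hp).2

theorem dm_AX_le {ix : ℕ → ℕ} {e : ℕ → Finset ℕ} {X : Finset ℕ} (h : (X.biUnion e).Nonempty) :
    dm (AX n ix e X) + 1 ≤ (X.biUnion e).card := by
  obtain ⟨w, hw⟩ := h
  have key : ∀ u ∈ X.biUnion e, pt n (ev n ix u w)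
      ≤ ((X.biUnion e).erase w).sup fun u => pt n (ev n ix u w) := fun u hu => by
    by_cases h : u = w
    · rw [h]; exact (ev_self ix w).trans bot_le
    · exact le_sup (f := fun u => pt n (ev n ix u w)) (mem_erase.2 ⟨h, hu⟩)
  have a1 : AX n ix e X ≤ ((X.biUnion e).erase w).sup fun u => pt n (ev n ix u w) :=
    AX_le fun i hi u hu v hv => (ev_trans ix u v w).trans
      (sup_le (key u (mem_biUnion.2 ⟨i, hi, hu⟩)) (key v (mem_biUnion.2 ⟨i, hi, hv⟩)))
  have a2 := dm_mono a1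
  have a3 := dm_finsup_le (n := n) ((X.biUnion e).erase w) fun u => ev n ix u w
  have a4 := card_erase_add_one hw
  omega

theorem le_dm_AX {ix : ℕ → ℕ} {e : ℕ → Finset ℕ} {V : Finset ℕ} (hix : Set.InjOn ix V)
    (hlt : ∀ u ∈ V, ix u < n) (he : ∀ i, e i ⊆ V) (X : Finset ℕ)
    (h : ∀ Y ⊆ X, Y.Nonempty → Y.card + 1 ≤ (Y.biUnion e).card) : X.card ≤ dm (AX n ix e X) := by
  classical
  induction X using Finset.strongInduction with
  | H X ih =>
  rcases X.eq_empty_or_nonempty with rfl | ⟨i0, hi0⟩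
  · simp
  obtain ⟨X1, hX1, hmax⟩ := exists_max_image
    (X.powerset.filter fun Y => Y.Nonempty ∧
      ∀ u ∈ Y.biUnion e, ∀ v ∈ Y.biUnion e, pt n (ev n ix u v) ≤ AX n ix e Y) card
    ⟨{i0}, mem_filter.2 ⟨by simpa using hi0, singleton_nonempty _, fun u hu v hv =>
      le_AX (mem_singleton_self i0) (by simpa using hu) (by simpa using hv)⟩⟩
  obtain ⟨b1, b2, b3⟩ := mem_filter.1 hX1
  have b1 := mem_powerset.1 b1
  have hdisj : ∀ i ∈ X \ X1, ∀ w ∈ e i, w ∉ X1.biUnion e := by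
    intro i hi w hw hw'
    obtain ⟨hi1, hi2⟩ := mem_sdiff.1 hi
    have c1 : AX n ix e X1 ≤ AX n ix e (insert i X1) := sup_mono (subset_insert _ _)
    have c2 : ∀ u ∈ (insert i X1).biUnion e, pt n (ev n ix u w) ≤ AX n ix e (insert i X1) := by
      intro u hu
      rw [biUnion_insert, mem_union] at hu
      rcases hu with hu | hu
      · exact le_AX (mem_insert_self _ _) hu hw
      · exact (b3 u hu w hw').trans c1
    have := hmax (insert i X1) (mem_filter.2 ⟨mem_powerset.2 (insert_subset hi1 b1),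
      insert_nonempty _ _, fun u hu v hv => (ev_trans ix u v w).trans (sup_le (c2 u hu) (c2 v hv))⟩)
    rw [card_insert_of_notMem hi2] at this
    omega
  have a1 := h X1 b1 b2
  obtain ⟨w, hw⟩ : (X1.biUnion e).Nonempty := card_pos.1 (by omega)
  have hV : ∀ u ∈ X1.biUnion e, u ∈ V := fun u hu => by
    obtain ⟨i, _, hi⟩ := mem_biUnion.1 hu
    exact he i hi
  have a2 := tri ((X1.biUnion e).erase w) ix (fun u => ev n ix u w) (AX n ix e (X \ X1))
    (fun u hu => AX_le fun i hi a ha b hb => by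
      have hu' := mem_of_mem_erase hu
      rw [ev_le_Kc (hlt u (hV u hu'))]
      exact iff_of_false (fun h => hdisj i hi a ha (hix (hV u hu') (he i ha) h ▸ hu'))
        fun h => hdisj i hi b hb (hix (hV u hu') (he i hb) h ▸ hu'))
    (fun u hu => by
      obtain ⟨h1, h2⟩ := mem_erase.1 hu
      rw [ev_le_Kc (hlt u (hV u h2))]
      exact fun h => h1 (hix (hV u h2) (hV w hw) (h.1 rfl)))
    (fun u hu u' hu' hne => by
      obtain ⟨h1, h2⟩ := mem_erase.1 hu
      rw [ev_le_Kc (hlt u (hV u h2))]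
      exact iff_of_false (fun h => hne (hix (hV u h2) (hV u' (mem_of_mem_erase hu')) h))
        fun h => h1 (hix (hV u h2) (hV w hw) h))
  have a3 := ih (X \ X1) (sdiff_ssubset b1 b2) fun Y hY => h Y (hY.trans sdiff_subset)
  have a4 : dm (AX n ix e (X \ X1) ⊔ ((X1.biUnion e).erase w).sup fun u => pt n (ev n ix u w))
      ≤ dm (AX n ix e X) :=
    dm_mono (sup_le (sup_mono sdiff_subset) (Finset.sup_le fun u hu =>
      (b3 u (mem_of_mem_erase hu) w hw).trans (sup_mono b1)))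
  have a5 := card_erase_add_one hw
  have a6 := card_sdiff_add_card_eq_card b1
  omega

theorem rankFn_sup {γ : Type} [DecidableEq γ] (w : γ → Vec) :
    RankFn fun A : Finset γ => dm (A.sup fun y => pt n (w y)) := by
  refine ⟨fun A B h => dm_mono (sup_mono h), fun A a => ?_, fun A B => ?_⟩
  · rw [sup_insert, sup_comm]
    exact dm_sup_pt_le _ _
  · have h1 := dm_modular (A.sup fun y => pt n (w y)) (B.sup fun y => pt n (w y))
    have h2 : dm ((A ∩ B).sup fun y => pt n (w y))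
        ≤ dm ((A.sup fun y => pt n (w y)) ⊓ (B.sup fun y => pt n (w y))) :=
      dm_mono (le_inf (sup_mono inter_subset_left) (sup_mono inter_subset_right))
    rw [sup_union]
    exact le_trans (Nat.add_le_add_left h2 _) h1.le

theorem sp_map {γ : Type} [DecidableEq γ] (w : γ → Vec) (l : List γ) :
    sp n (l.map w) = l.toFinset.sup fun y => pt n (w y) := by
  induction l with
  | nil => simp
  | cons a l ih => rw [List.map_cons, sp_cons, ih, List.toFinset_cons, sup_insert]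

/-- Trimming. -/
theorem trim {ix : ℕ → ℕ} {e : ℕ → Finset ℕ} {V : Finset ℕ} (hix : Set.InjOn ix V)
    (hlt : ∀ u ∈ V, ix u < n) (he : ∀ i, e i ⊆ V) (F : Finset ℕ)
    (h : ∀ Y ⊆ F, Y.Nonempty → Y.card + 1 ≤ (Y.biUnion e).card) :
    ∃ x : List (ℕ × ℕ × ℕ), (x.map Prod.fst).toFinset = F ∧ x.length = F.card ∧
      (∀ y ∈ x, y.2.1 ∈ e y.1 ∧ y.2.2 ∈ e y.1) ∧
      dm (sp n (x.map fun y => ev n ix y.2.1 y.2.2)) = x.length := by
  let G : List (ℕ × ℕ × ℕ) := (F.biUnion fun i => (e i ×ˢ e i).image fun p => (i, p)).toList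
  have hG : ∀ y, y ∈ G ↔ y.1 ∈ F ∧ y.2.1 ∈ e y.1 ∧ y.2.2 ∈ e y.1 := by
    rintro ⟨i, u, v⟩
    simp [G]
  obtain ⟨h1, h2, h3, _⟩ := rado_spec (I := F.toList) (G := G)
    (ρ := fun l => dm (sp n (l.map fun y => ev n ix y.2.1 y.2.2)))
    (rankFn_sup (n := n) fun y : ℕ × ℕ × ℕ => ev n ix y.2.1 y.2.2) (fun l => by rw [sp_map])
    (fun y hy => mem_toList.2 ((hG y).1 hy).1)
  generalize radoX (fun l => dm (sp n (l.map fun y => ev n ix y.2.1 y.2.2))) F.toList G = x at *
  generalize radoY (fun l => dm (sp n (l.map fun y => ev n ix y.2.1 y.2.2))) F.toList G = Y at *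
  have a1 : Y.toFinset ⊆ F := fun j hj => mem_toList.1 (h2 j (List.mem_toFinset.1 hj))
  have a2 := le_dm_AX (n := n) hix hlt he (F \ Y.toFinset)
    fun Z hZ => h Z (hZ.trans sdiff_subset)
  have a3 : dm (AX n ix e (F \ Y.toFinset))
      ≤ dm ((gc G Y.toFinset).sup fun y => pt n (ev n ix y.2.1 y.2.2)) :=
    dm_mono (AX_le fun i hi u hu v hv =>
      le_sup (f := fun y : ℕ × ℕ × ℕ => pt n (ev n ix y.2.1 y.2.2)) (b := (i, u, v))
        (mem_filter.2 ⟨List.mem_toFinset.2 ((hG _).2 ⟨(mem_sdiff.1 hi).1, hu, hv⟩),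
          (mem_sdiff.1 hi).2⟩))
  have a4 := card_sdiff_add_card_eq_card a1
  have a5 : (x.map Prod.fst).toFinset ⊆ F := fun j hj => by
    obtain ⟨y, hy, rfl⟩ := List.mem_map.1 (List.mem_toFinset.1 hj)
    exact ((hG y).1 (h1.sub y hy)).1
  have a6 := List.toFinset_card_of_nodup h1.nodup
  have a7 := card_le_card a5
  have a8 := h1.indep
  simp only [sup_empty, dm_bot, List.length_map, List.map_nil, sp_nil] at h3 a6 a8
  exact ⟨x, eq_of_subset_of_card_le a5 (by omega), by omega, fun y hy => ((hG y).1 (h1.sub y hy)).2,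
    by omega⟩

end Pool.Agent.MP_0c5eb8_lc.H36
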